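import Pool.Agent.PP5G.Defs

/-!
# PP5G/SkD: the twelve charts of `E_P`
-/

set_option autoImplicit false

namespace Pool.Agent.PP5G

open Pool.Agent.PP5

/-- the chart of the coordinate `a` -/
structure Cht (a : Fin 12) (Bm : Sp → Fin 5 → Fin 5 → ℤ) : Prop where
  skew : ∀ P, Skew (Bm P)
  add : ∀ P Q i j, Bm (P + Q) i j = Bm P i j + Bm Q i j
  smul : ∀ (n : ℤ) P i j, Bm (n • P) i j = n * Bm P i j
  bd : ∀ P i j, Bm P i j = 0 ∨ ∃ c : Fin 12, |Bm P i j| = |P c|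
  pf : ∀ P, Qd P → ∀ i j k l, P a ∣ Pf5 (Bm P) i j k l
  ne : ∀ P Q, Qd P → Qd Q → Qd (P + Q) → P a ≠ 0 → Q a = 0 → (∀ i j, Bm Q i j = 0) → Q = 0
  ex : ∀ P, Qd P → P a ≠ 0 → ∀ w z : Fin 5 → ℤ, (∀ k, act (Bm P) w k = P a * z k) →
    ∃ x : Fin 10 → ℤ, InE P x ∧ FF x = 0 ∧ (∀ k, ∃ j, x j = w k) ∧
      ∀ j, (∃ k, |x j| = |w k|) ∨ ∃ k, |x j| = |z k|

private theorem sk_c (P : Sp) : Skew (B_c P) := by
  intro i j
  fin_cases i <;> fin_cases j
  · exact (neg_zero.symm : (0 : ℤ) = -0)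
  · exact (neg_neg (P 4)).symm
  · exact (neg_neg (P 1)).symm
  · exact (rfl : -(P 10) = -(P 10))
  · exact (neg_neg (P 9)).symm
  · exact (rfl : -(P 4) = -(P 4))
  · exact (neg_zero.symm : (0 : ℤ) = -0)
  · exact (neg_neg (P 3)).symm
  · exact (neg_neg (P 8)).symm
  · exact (rfl : -(P 7) = -(P 7))
  · exact (rfl : -(P 1) = -(P 1))
  · exact (rfl : -(P 3) = -(P 3))
  · exact (neg_zero.symm : (0 : ℤ) = -0)
  · exact (neg_neg (P 7)).symm
  · exact (rfl : -(P 6) = -(P 6))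
  · exact (neg_neg (P 10)).symm
  · exact (rfl : -(P 8) = -(P 8))
  · exact (rfl : -(P 7) = -(P 7))
  · exact (neg_zero.symm : (0 : ℤ) = -0)
  · exact (rfl : -(P 1) = -(P 1))
  · exact (rfl : -(P 9) = -(P 9))
  · exact (neg_neg (P 7)).symm
  · exact (neg_neg (P 6)).symm
  · exact (neg_neg (P 1)).symm
  · exact (neg_zero.symm : (0 : ℤ) = -0)

private theorem pf_c {P : Sp} (hq : Qd P) : ∀ i j k l, P 0 ∣ Pf5 (B_c P) i j k l := by
  refine pf_all (sk_c P) ?_ ?_ ?_ ?_ ?_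
  · refine ⟨-(P 4), ?_⟩
    simp only [Pf5, B_c, Matrix.cons_val]
    linear_combination (1) * hq.h1
  · refine ⟨-(P 2), ?_⟩
    simp only [Pf5, B_c, Matrix.cons_val]
    linear_combination (-1) * hq.h2
  · refine ⟨-(P 5), ?_⟩
    simp only [Pf5, B_c, Matrix.cons_val]
    linear_combination (1) * hq.h6
  · refine ⟨P 10, ?_⟩
    simp only [Pf5, B_c, Matrix.cons_val]
    linear_combination (-1) * hq.h7
  · refine ⟨-(P 11), ?_⟩
    simp only [Pf5, B_c, Matrix.cons_val]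
    linear_combination (1) * hq.h9

private theorem bd_c (P : Sp) (i j : Fin 5) : B_c P i j = 0 ∨ ∃ c : Fin 12, |B_c P i j| = |P c| := by
  fin_cases i <;> fin_cases j
  · exact Or.inl rfl
  · exact Or.inr ⟨4, rfl⟩
  · exact Or.inr ⟨1, rfl⟩
  · exact Or.inr ⟨10, abs_neg _⟩
  · exact Or.inr ⟨9, rfl⟩
  · exact Or.inr ⟨4, abs_neg _⟩
  · exact Or.inl rfl
  · exact Or.inr ⟨3, rfl⟩
  · exact Or.inr ⟨8, rfl⟩
  · exact Or.inr ⟨7, abs_neg _⟩
  · exact Or.inr ⟨1, abs_neg _⟩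
  · exact Or.inr ⟨3, abs_neg _⟩
  · exact Or.inl rfl
  · exact Or.inr ⟨7, rfl⟩
  · exact Or.inr ⟨6, abs_neg _⟩
  · exact Or.inr ⟨10, rfl⟩
  · exact Or.inr ⟨8, abs_neg _⟩
  · exact Or.inr ⟨7, abs_neg _⟩
  · exact Or.inl rfl
  · exact Or.inr ⟨1, abs_neg _⟩
  · exact Or.inr ⟨9, abs_neg _⟩
  · exact Or.inr ⟨7, rfl⟩
  · exact Or.inr ⟨6, rfl⟩
  · exact Or.inr ⟨1, rfl⟩
  · exact Or.inl rfl

private theorem ne_c (P Q : Sp) (hP : Qd P) (_hQ : Qd Q) (hPQ : Qd (P + Q)) (ha : P 0 ≠ 0) (hb : Q 0 = 0)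
    (hB : ∀ i j, B_c Q i j = 0) : Q = 0 := by
  have q1 : Q 1 = 0 := hB 0 2
  have q3 : Q 3 = 0 := hB 1 2
  have q4 : Q 4 = 0 := hB 0 1
  have q6 : Q 6 = 0 := hB 4 2
  have q7 : Q 7 = 0 := hB 2 3
  have q8 : Q 8 = 0 := hB 1 3
  have q9 : Q 9 = 0 := hB 0 4
  have q10 : Q 10 = 0 := hB 3 0
  have q2 : Q 2 = 0 := by
    have h := hPQ.h2
    have h' := hP.h2
    simp only [Pi.add_apply, hb, q1, q6, q7, q9, q10, add_zero] at h
    have e : P 0 * Q 2 = 0 := by linear_combination -1 * (h - h')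
    exact (mul_eq_zero.mp e).resolve_left ha
  have q5 : Q 5 = 0 := by
    have h := hPQ.h6
    have h' := hP.h6
    simp only [Pi.add_apply, hb, q1, q4, q7, q8, q9, q10, add_zero] at h
    have e : P 0 * Q 5 = 0 := by linear_combination (h - h')
    exact (mul_eq_zero.mp e).resolve_left ha
  have q11 : Q 11 = 0 := by
    have h := hPQ.h9
    have h' := hP.h9
    simp only [Pi.add_apply, hb, q1, q3, q4, q7, q8, q10, add_zero] at h
    have e : P 0 * Q 11 = 0 := by linear_combination (h - h')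
    exact (mul_eq_zero.mp e).resolve_left ha
  funext i
  fin_cases i
  · exact hb
  · exact q1
  · exact q2
  · exact q3
  · exact q4
  · exact q5
  · exact q6
  · exact q7
  · exact q8
  · exact q9
  · exact q10
  · exact q11

private theorem ex_c (P : Sp) (hq : Qd P) (ha : P 0 ≠ 0) (w z : Fin 5 → ℤ) (h : ∀ k, act (B_c P) w k = P 0 * z k) :
    ∃ x : Fin 10 → ℤ, InE P x ∧ FF x = 0 ∧ (∀ k, ∃ j, x j = w k) ∧
      ∀ j, (∃ k, |x j| = |w k|) ∨ ∃ k, |x j| = |z k| := by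
  have h0 : P 1 * w 2 + P 4 * w 1 + P 9 * w 4 - P 10 * w 3 = P 0 * z 0 := by
    have := h 0
    simp only [act, B_c, Fin.sum_univ_five, Matrix.cons_val] at this
    linear_combination this
  have h1 : P 3 * w 2 - P 4 * w 0 - P 7 * w 4 + P 8 * w 3 = P 0 * z 1 := by
    have := h 1
    simp only [act, B_c, Fin.sum_univ_five, Matrix.cons_val] at this
    linear_combination this
  have h2 : -(P 1 * w 0) - P 3 * w 1 + P 7 * w 3 - P 6 * w 4 = P 0 * z 2 := by
    have := h 2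
    simp only [act, B_c, Fin.sum_univ_five, Matrix.cons_val] at this
    linear_combination this
  have h3 : -(P 1 * w 4) - P 7 * w 2 - P 8 * w 1 + P 10 * w 0 = P 0 * z 3 := by
    have := h 3
    simp only [act, B_c, Fin.sum_univ_five, Matrix.cons_val] at this
    linear_combination this
  have h4 : P 1 * w 3 + P 7 * w 1 - P 9 * w 0 + P 6 * w 2 = P 0 * z 4 := by
    have := h 4
    simp only [act, B_c, Fin.sum_univ_five, Matrix.cons_val] at this
    linear_combination this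
  obtain ⟨e1, e2⟩ := e_c hq ha h0 h1 h2 h3 h4
  refine ⟨_, e1, e2, ?_, ?_⟩
  · intro k
    fin_cases k
    · exact ⟨0, rfl⟩
    · exact ⟨1, rfl⟩
    · exact ⟨5, rfl⟩
    · exact ⟨6, rfl⟩
    · exact ⟨8, rfl⟩
  · intro j
    fin_cases j
    · exact Or.inl ⟨0, rfl⟩
    · exact Or.inl ⟨1, rfl⟩
    · exact Or.inr ⟨0, rfl⟩
    · exact Or.inr ⟨1, abs_neg _⟩
    · exact Or.inr ⟨2, abs_neg _⟩
    · exact Or.inl ⟨2, rfl⟩
    · exact Or.inl ⟨3, rfl⟩
    · exact Or.inr ⟨4, rfl⟩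
    · exact Or.inl ⟨4, rfl⟩
    · exact Or.inr ⟨3, abs_neg _⟩

private theorem cht_c : Cht 0 B_c where
  skew := sk_c
  add := by
    intro P Q i j
    fin_cases i <;> fin_cases j
    · exact (add_zero (0 : ℤ)).symm
    · exact (rfl : P 4 + Q 4 = P 4 + Q 4)
    · exact (rfl : P 1 + Q 1 = P 1 + Q 1)
    · exact neg_add (P 10) (Q 10)
    · exact (rfl : P 9 + Q 9 = P 9 + Q 9)
    · exact neg_add (P 4) (Q 4)
    · exact (add_zero (0 : ℤ)).symm
    · exact (rfl : P 3 + Q 3 = P 3 + Q 3)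
    · exact (rfl : P 8 + Q 8 = P 8 + Q 8)
    · exact neg_add (P 7) (Q 7)
    · exact neg_add (P 1) (Q 1)
    · exact neg_add (P 3) (Q 3)
    · exact (add_zero (0 : ℤ)).symm
    · exact (rfl : P 7 + Q 7 = P 7 + Q 7)
    · exact neg_add (P 6) (Q 6)
    · exact (rfl : P 10 + Q 10 = P 10 + Q 10)
    · exact neg_add (P 8) (Q 8)
    · exact neg_add (P 7) (Q 7)
    · exact (add_zero (0 : ℤ)).symm
    · exact neg_add (P 1) (Q 1)
    · exact neg_add (P 9) (Q 9)
    · exact (rfl : P 7 + Q 7 = P 7 + Q 7)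
    · exact (rfl : P 6 + Q 6 = P 6 + Q 6)
    · exact (rfl : P 1 + Q 1 = P 1 + Q 1)
    · exact (add_zero (0 : ℤ)).symm
  smul := by
    intro n P i j
    fin_cases i <;> fin_cases j
    · exact (mul_zero n).symm
    · exact (rfl : n * P 4 = n * P 4)
    · exact (rfl : n * P 1 = n * P 1)
    · exact (mul_neg n (P 10)).symm
    · exact (rfl : n * P 9 = n * P 9)
    · exact (mul_neg n (P 4)).symm
    · exact (mul_zero n).symm
    · exact (rfl : n * P 3 = n * P 3)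
    · exact (rfl : n * P 8 = n * P 8)
    · exact (mul_neg n (P 7)).symm
    · exact (mul_neg n (P 1)).symm
    · exact (mul_neg n (P 3)).symm
    · exact (mul_zero n).symm
    · exact (rfl : n * P 7 = n * P 7)
    · exact (mul_neg n (P 6)).symm
    · exact (rfl : n * P 10 = n * P 10)
    · exact (mul_neg n (P 8)).symm
    · exact (mul_neg n (P 7)).symm
    · exact (mul_zero n).symm
    · exact (mul_neg n (P 1)).symm
    · exact (mul_neg n (P 9)).symm
    · exact (rfl : n * P 7 = n * P 7)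
    · exact (rfl : n * P 6 = n * P 6)
    · exact (rfl : n * P 1 = n * P 1)
    · exact (mul_zero n).symm
  bd := bd_c
  pf := fun _ hq => pf_c hq
  ne := ne_c
  ex := ex_c

private theorem sk_p2 (P : Sp) : Skew (B_p2 P) := by
  intro i j
  fin_cases i <;> fin_cases j
  · exact (neg_zero.symm : (0 : ℤ) = -0)
  · exact (neg_neg (P 3)).symm
  · exact (rfl : -(P 4) = -(P 4))
  · exact (neg_neg (P 11)).symm
  · exact (rfl : -(P 10) = -(P 10))
  · exact (rfl : -(P 3) = -(P 3))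
  · exact (neg_zero.symm : (0 : ℤ) = -0)
  · exact (neg_neg (P 0)).symm
  · exact (neg_neg (P 7)).symm
  · exact (rfl : -(P 6) = -(P 6))
  · exact (neg_neg (P 4)).symm
  · exact (rfl : -(P 0) = -(P 0))
  · exact (neg_zero.symm : (0 : ℤ) = -0)
  · exact (rfl : -(P 10) = -(P 10))
  · exact (neg_neg (P 9)).symm
  · exact (rfl : -(P 11) = -(P 11))
  · exact (rfl : -(P 7) = -(P 7))
  · exact (neg_neg (P 10)).symm
  · exact (neg_zero.symm : (0 : ℤ) = -0)
  · exact (rfl : -(P 2) = -(P 2))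
  · exact (neg_neg (P 10)).symm
  · exact (neg_neg (P 6)).symm
  · exact (rfl : -(P 9) = -(P 9))
  · exact (neg_neg (P 2)).symm
  · exact (neg_zero.symm : (0 : ℤ) = -0)

private theorem pf_p2 {P : Sp} (hq : Qd P) : ∀ i j k l, P 1 ∣ Pf5 (B_p2 P) i j k l := by
  refine pf_all (sk_p2 P) ?_ ?_ ?_ ?_ ?_
  · refine ⟨-(P 1), ?_⟩
    simp only [Pf5, B_p2, Matrix.cons_val]
    linear_combination (1) * hq.h2
  · refine ⟨P 5, ?_⟩
    simp only [Pf5, B_p2, Matrix.cons_val]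
    linear_combination (-1) * hq.h3
  · refine ⟨-(P 4), ?_⟩
    simp only [Pf5, B_p2, Matrix.cons_val]
    linear_combination (1) * hq.h5
  · refine ⟨-(P 7), ?_⟩
    simp only [Pf5, B_p2, Matrix.cons_val]
    linear_combination (-1) * hq.h7
  · refine ⟨P 8, ?_⟩
    simp only [Pf5, B_p2, Matrix.cons_val]
    linear_combination (1) * hq.h9

private theorem bd_p2 (P : Sp) (i j : Fin 5) : B_p2 P i j = 0 ∨ ∃ c : Fin 12, |B_p2 P i j| = |P c| := by
  fin_cases i <;> fin_cases j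
  · exact Or.inl rfl
  · exact Or.inr ⟨3, rfl⟩
  · exact Or.inr ⟨4, abs_neg _⟩
  · exact Or.inr ⟨11, rfl⟩
  · exact Or.inr ⟨10, abs_neg _⟩
  · exact Or.inr ⟨3, abs_neg _⟩
  · exact Or.inl rfl
  · exact Or.inr ⟨0, rfl⟩
  · exact Or.inr ⟨7, rfl⟩
  · exact Or.inr ⟨6, abs_neg _⟩
  · exact Or.inr ⟨4, rfl⟩
  · exact Or.inr ⟨0, abs_neg _⟩
  · exact Or.inl rfl
  · exact Or.inr ⟨10, abs_neg _⟩
  · exact Or.inr ⟨9, rfl⟩
  · exact Or.inr ⟨11, abs_neg _⟩
  · exact Or.inr ⟨7, abs_neg _⟩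
  · exact Or.inr ⟨10, rfl⟩
  · exact Or.inl rfl
  · exact Or.inr ⟨2, abs_neg _⟩
  · exact Or.inr ⟨10, rfl⟩
  · exact Or.inr ⟨6, rfl⟩
  · exact Or.inr ⟨9, abs_neg _⟩
  · exact Or.inr ⟨2, rfl⟩
  · exact Or.inl rfl

private theorem ne_p2 (P Q : Sp) (hP : Qd P) (_hQ : Qd Q) (hPQ : Qd (P + Q)) (ha : P 1 ≠ 0) (hb : Q 1 = 0)
    (hB : ∀ i j, B_p2 Q i j = 0) : Q = 0 := by
  have q0 : Q 0 = 0 := hB 1 2
  have q2 : Q 2 = 0 := hB 4 3
  have q3 : Q 3 = 0 := hB 0 1
  have q4 : Q 4 = 0 := hB 2 0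
  have q6 : Q 6 = 0 := hB 4 1
  have q7 : Q 7 = 0 := hB 1 3
  have q9 : Q 9 = 0 := hB 2 4
  have q10 : Q 10 = 0 := hB 3 2
  have q11 : Q 11 = 0 := hB 0 3
  have q5 : Q 5 = 0 := by
    have h := hPQ.h3
    have h' := hP.h3
    simp only [Pi.add_apply, hb, q2, q4, q9, q10, q11, add_zero] at h
    have e : P 1 * Q 5 = 0 := by linear_combination (h - h')
    exact (mul_eq_zero.mp e).resolve_left ha
  have q8 : Q 8 = 0 := by
    have h := hPQ.h9
    have h' := hP.h9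
    simp only [Pi.add_apply, q0, hb, q3, q4, q7, q10, q11, add_zero] at h
    have e : P 1 * Q 8 = 0 := by linear_combination -1 * (h - h')
    exact (mul_eq_zero.mp e).resolve_left ha
  funext i
  fin_cases i
  · exact q0
  · exact hb
  · exact q2
  · exact q3
  · exact q4
  · exact q5
  · exact q6
  · exact q7
  · exact q8
  · exact q9
  · exact q10
  · exact q11

private theorem ex_p2 (P : Sp) (hq : Qd P) (ha : P 1 ≠ 0) (w z : Fin 5 → ℤ) (h : ∀ k, act (B_p2 P) w k = P 1 * z k) :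
    ∃ x : Fin 10 → ℤ, InE P x ∧ FF x = 0 ∧ (∀ k, ∃ j, x j = w k) ∧
      ∀ j, (∃ k, |x j| = |w k|) ∨ ∃ k, |x j| = |z k| := by
  have h0 : P 3 * w 1 - P 4 * w 2 - P 10 * w 4 + P 11 * w 3 = P 1 * z 0 := by
    have := h 0
    simp only [act, B_p2, Fin.sum_univ_five, Matrix.cons_val] at this
    linear_combination this
  have h1 : P 0 * w 2 - P 3 * w 0 + P 7 * w 3 - P 6 * w 4 = P 1 * z 1 := by
    have := h 1
    simp only [act, B_p2, Fin.sum_univ_five, Matrix.cons_val] at this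
    linear_combination this
  have h2 : -(P 0 * w 1) + P 4 * w 0 + P 9 * w 4 - P 10 * w 3 = P 1 * z 2 := by
    have := h 2
    simp only [act, B_p2, Fin.sum_univ_five, Matrix.cons_val] at this
    linear_combination this
  have h3 : -(P 2 * w 4) - P 7 * w 1 + P 10 * w 2 - P 11 * w 0 = P 1 * z 3 := by
    have := h 3
    simp only [act, B_p2, Fin.sum_univ_five, Matrix.cons_val] at this
    linear_combination this
  have h4 : P 2 * w 3 - P 9 * w 2 + P 10 * w 0 + P 6 * w 1 = P 1 * z 4 := by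
    have := h 4
    simp only [act, B_p2, Fin.sum_univ_five, Matrix.cons_val] at this
    linear_combination this
  obtain ⟨e1, e2⟩ := e_p2 hq ha h0 h1 h2 h3 h4
  refine ⟨_, e1, e2, ?_, ?_⟩
  · intro k
    fin_cases k
    · exact ⟨1, rfl⟩
    · exact ⟨2, rfl⟩
    · exact ⟨4, rfl⟩
    · exact ⟨6, rfl⟩
    · exact ⟨8, rfl⟩
  · intro j
    fin_cases j
    · exact Or.inr ⟨1, rfl⟩
    · exact Or.inl ⟨0, rfl⟩
    · exact Or.inl ⟨1, rfl⟩
    · exact Or.inr ⟨0, abs_neg _⟩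
    · exact Or.inl ⟨2, rfl⟩
    · exact Or.inr ⟨2, abs_neg _⟩
    · exact Or.inl ⟨3, rfl⟩
    · exact Or.inr ⟨4, rfl⟩
    · exact Or.inl ⟨4, rfl⟩
    · exact Or.inr ⟨3, abs_neg _⟩

private theorem cht_p2 : Cht 1 B_p2 where
  skew := sk_p2
  add := by
    intro P Q i j
    fin_cases i <;> fin_cases j
    · exact (add_zero (0 : ℤ)).symm
    · exact (rfl : P 3 + Q 3 = P 3 + Q 3)
    · exact neg_add (P 4) (Q 4)
    · exact (rfl : P 11 + Q 11 = P 11 + Q 11)
    · exact neg_add (P 10) (Q 10)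
    · exact neg_add (P 3) (Q 3)
    · exact (add_zero (0 : ℤ)).symm
    · exact (rfl : P 0 + Q 0 = P 0 + Q 0)
    · exact (rfl : P 7 + Q 7 = P 7 + Q 7)
    · exact neg_add (P 6) (Q 6)
    · exact (rfl : P 4 + Q 4 = P 4 + Q 4)
    · exact neg_add (P 0) (Q 0)
    · exact (add_zero (0 : ℤ)).symm
    · exact neg_add (P 10) (Q 10)
    · exact (rfl : P 9 + Q 9 = P 9 + Q 9)
    · exact neg_add (P 11) (Q 11)
    · exact neg_add (P 7) (Q 7)
    · exact (rfl : P 10 + Q 10 = P 10 + Q 10)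
    · exact (add_zero (0 : ℤ)).symm
    · exact neg_add (P 2) (Q 2)
    · exact (rfl : P 10 + Q 10 = P 10 + Q 10)
    · exact (rfl : P 6 + Q 6 = P 6 + Q 6)
    · exact neg_add (P 9) (Q 9)
    · exact (rfl : P 2 + Q 2 = P 2 + Q 2)
    · exact (add_zero (0 : ℤ)).symm
  smul := by
    intro n P i j
    fin_cases i <;> fin_cases j
    · exact (mul_zero n).symm
    · exact (rfl : n * P 3 = n * P 3)
    · exact (mul_neg n (P 4)).symm
    · exact (rfl : n * P 11 = n * P 11)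
    · exact (mul_neg n (P 10)).symm
    · exact (mul_neg n (P 3)).symm
    · exact (mul_zero n).symm
    · exact (rfl : n * P 0 = n * P 0)
    · exact (rfl : n * P 7 = n * P 7)
    · exact (mul_neg n (P 6)).symm
    · exact (rfl : n * P 4 = n * P 4)
    · exact (mul_neg n (P 0)).symm
    · exact (mul_zero n).symm
    · exact (mul_neg n (P 10)).symm
    · exact (rfl : n * P 9 = n * P 9)
    · exact (mul_neg n (P 11)).symm
    · exact (mul_neg n (P 7)).symm
    · exact (rfl : n * P 10 = n * P 10)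
    · exact (mul_zero n).symm
    · exact (mul_neg n (P 2)).symm
    · exact (rfl : n * P 10 = n * P 10)
    · exact (rfl : n * P 6 = n * P 6)
    · exact (mul_neg n (P 9)).symm
    · exact (rfl : n * P 2 = n * P 2)
    · exact (mul_zero n).symm
  bd := bd_p2
  pf := fun _ hq => pf_p2 hq
  ne := ne_p2
  ex := ex_p2

private theorem sk_p3 (P : Sp) : Skew (B_p3 P) := by
  intro i j
  fin_cases i <;> fin_cases j
  · exact (neg_zero.symm : (0 : ℤ) = -0)
  · exact (neg_neg (P 4)).symm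
  · exact (rfl : -(P 5) = -(P 5))
  · exact (neg_neg (P 11)).symm
  · exact (rfl : -(P 10) = -(P 10))
  · exact (rfl : -(P 4) = -(P 4))
  · exact (neg_zero.symm : (0 : ℤ) = -0)
  · exact (neg_neg (P 1)).symm
  · exact (neg_neg (P 7)).symm
  · exact (rfl : -(P 6) = -(P 6))
  · exact (neg_neg (P 5)).symm
  · exact (rfl : -(P 1) = -(P 1))
  · exact (neg_zero.symm : (0 : ℤ) = -0)
  · exact (rfl : -(P 10) = -(P 10))
  · exact (neg_neg (P 9)).symm
  · exact (rfl : -(P 11) = -(P 11))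
  · exact (rfl : -(P 7) = -(P 7))
  · exact (neg_neg (P 10)).symm
  · exact (neg_zero.symm : (0 : ℤ) = -0)
  · exact (neg_neg (P 1)).symm
  · exact (neg_neg (P 10)).symm
  · exact (neg_neg (P 6)).symm
  · exact (rfl : -(P 9) = -(P 9))
  · exact (rfl : -(P 1) = -(P 1))
  · exact (neg_zero.symm : (0 : ℤ) = -0)

private theorem pf_p3 {P : Sp} (hq : Qd P) : ∀ i j k l, P 2 ∣ Pf5 (B_p3 P) i j k l := by
  refine pf_all (sk_p3 P) ?_ ?_ ?_ ?_ ?_
  · refine ⟨P 0, ?_⟩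
    simp only [Pf5, B_p3, Matrix.cons_val]
    linear_combination (1) * hq.h2
  · refine ⟨-(P 4), ?_⟩
    simp only [Pf5, B_p3, Matrix.cons_val]
    linear_combination (-1) * hq.h3
  · refine ⟨P 3, ?_⟩
    simp only [Pf5, B_p3, Matrix.cons_val]
    linear_combination (1) * hq.h5
  · refine ⟨-(P 7), ?_⟩
    simp only [Pf5, B_p3, Matrix.cons_val]
    linear_combination (-1) * hq.h8
  · refine ⟨P 8, ?_⟩
    simp only [Pf5, B_p3, Matrix.cons_val]
    linear_combination (1) * hq.h10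

private theorem bd_p3 (P : Sp) (i j : Fin 5) : B_p3 P i j = 0 ∨ ∃ c : Fin 12, |B_p3 P i j| = |P c| := by
  fin_cases i <;> fin_cases j
  · exact Or.inl rfl
  · exact Or.inr ⟨4, rfl⟩
  · exact Or.inr ⟨5, abs_neg _⟩
  · exact Or.inr ⟨11, rfl⟩
  · exact Or.inr ⟨10, abs_neg _⟩
  · exact Or.inr ⟨4, abs_neg _⟩
  · exact Or.inl rfl
  · exact Or.inr ⟨1, rfl⟩
  · exact Or.inr ⟨7, rfl⟩
  · exact Or.inr ⟨6, abs_neg _⟩
  · exact Or.inr ⟨5, rfl⟩
  · exact Or.inr ⟨1, abs_neg _⟩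
  · exact Or.inl rfl
  · exact Or.inr ⟨10, abs_neg _⟩
  · exact Or.inr ⟨9, rfl⟩
  · exact Or.inr ⟨11, abs_neg _⟩
  · exact Or.inr ⟨7, abs_neg _⟩
  · exact Or.inr ⟨10, rfl⟩
  · exact Or.inl rfl
  · exact Or.inr ⟨1, rfl⟩
  · exact Or.inr ⟨10, rfl⟩
  · exact Or.inr ⟨6, rfl⟩
  · exact Or.inr ⟨9, abs_neg _⟩
  · exact Or.inr ⟨1, abs_neg _⟩
  · exact Or.inl rfl

private theorem ne_p3 (P Q : Sp) (hP : Qd P) (_hQ : Qd Q) (hPQ : Qd (P + Q)) (ha : P 2 ≠ 0) (hb : Q 2 = 0)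
    (hB : ∀ i j, B_p3 Q i j = 0) : Q = 0 := by
  have q1 : Q 1 = 0 := hB 1 2
  have q4 : Q 4 = 0 := hB 0 1
  have q5 : Q 5 = 0 := hB 2 0
  have q6 : Q 6 = 0 := hB 4 1
  have q7 : Q 7 = 0 := hB 1 3
  have q9 : Q 9 = 0 := hB 2 4
  have q10 : Q 10 = 0 := hB 3 2
  have q11 : Q 11 = 0 := hB 0 3
  have q0 : Q 0 = 0 := by
    have h := hPQ.h2
    have h' := hP.h2
    simp only [Pi.add_apply, q1, hb, q6, q7, q9, q10, add_zero] at h
    have e : P 2 * Q 0 = 0 := by linear_combination -1 * (h - h')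
    exact (mul_eq_zero.mp e).resolve_left ha
  have q3 : Q 3 = 0 := by
    have h := hPQ.h5
    have h' := hP.h5
    simp only [Pi.add_apply, q1, hb, q4, q6, q7, q10, q11, add_zero] at h
    have e : P 2 * Q 3 = 0 := by linear_combination -1 * (h - h')
    exact (mul_eq_zero.mp e).resolve_left ha
  have q8 : Q 8 = 0 := by
    have h := hPQ.h10
    have h' := hP.h10
    simp only [Pi.add_apply, q1, hb, q4, q5, q7, q10, q11, add_zero] at h
    have e : P 2 * Q 8 = 0 := by linear_combination -1 * (h - h')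
    exact (mul_eq_zero.mp e).resolve_left ha
  funext i
  fin_cases i
  · exact q0
  · exact q1
  · exact hb
  · exact q3
  · exact q4
  · exact q5
  · exact q6
  · exact q7
  · exact q8
  · exact q9
  · exact q10
  · exact q11

private theorem ex_p3 (P : Sp) (hq : Qd P) (ha : P 2 ≠ 0) (w z : Fin 5 → ℤ) (h : ∀ k, act (B_p3 P) w k = P 2 * z k) :
    ∃ x : Fin 10 → ℤ, InE P x ∧ FF x = 0 ∧ (∀ k, ∃ j, x j = w k) ∧
      ∀ j, (∃ k, |x j| = |w k|) ∨ ∃ k, |x j| = |z k| := by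
  have h0 : P 4 * w 1 - P 5 * w 2 - P 10 * w 4 + P 11 * w 3 = P 2 * z 0 := by
    have := h 0
    simp only [act, B_p3, Fin.sum_univ_five, Matrix.cons_val] at this
    linear_combination this
  have h1 : P 1 * w 2 - P 4 * w 0 + P 7 * w 3 - P 6 * w 4 = P 2 * z 1 := by
    have := h 1
    simp only [act, B_p3, Fin.sum_univ_five, Matrix.cons_val] at this
    linear_combination this
  have h2 : -(P 1 * w 1) + P 5 * w 0 + P 9 * w 4 - P 10 * w 3 = P 2 * z 2 := by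
    have := h 2
    simp only [act, B_p3, Fin.sum_univ_five, Matrix.cons_val] at this
    linear_combination this
  have h3 : P 1 * w 4 - P 7 * w 1 + P 10 * w 2 - P 11 * w 0 = P 2 * z 3 := by
    have := h 3
    simp only [act, B_p3, Fin.sum_univ_five, Matrix.cons_val] at this
    linear_combination this
  have h4 : -(P 1 * w 3) - P 9 * w 2 + P 10 * w 0 + P 6 * w 1 = P 2 * z 4 := by
    have := h 4
    simp only [act, B_p3, Fin.sum_univ_five, Matrix.cons_val] at this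
    linear_combination this
  obtain ⟨e1, e2⟩ := e_p3 hq ha h0 h1 h2 h3 h4
  refine ⟨_, e1, e2, ?_, ?_⟩
  · intro k
    fin_cases k
    · exact ⟨1, rfl⟩
    · exact ⟨2, rfl⟩
    · exact ⟨4, rfl⟩
    · exact ⟨7, rfl⟩
    · exact ⟨9, rfl⟩
  · intro j
    fin_cases j
    · exact Or.inr ⟨1, rfl⟩
    · exact Or.inl ⟨0, rfl⟩
    · exact Or.inl ⟨1, rfl⟩
    · exact Or.inr ⟨0, abs_neg _⟩
    · exact Or.inl ⟨2, rfl⟩
    · exact Or.inr ⟨2, abs_neg _⟩
    · exact Or.inr ⟨4, abs_neg _⟩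
    · exact Or.inl ⟨3, rfl⟩
    · exact Or.inr ⟨3, rfl⟩
    · exact Or.inl ⟨4, rfl⟩

private theorem cht_p3 : Cht 2 B_p3 where
  skew := sk_p3
  add := by
    intro P Q i j
    fin_cases i <;> fin_cases j
    · exact (add_zero (0 : ℤ)).symm
    · exact (rfl : P 4 + Q 4 = P 4 + Q 4)
    · exact neg_add (P 5) (Q 5)
    · exact (rfl : P 11 + Q 11 = P 11 + Q 11)
    · exact neg_add (P 10) (Q 10)
    · exact neg_add (P 4) (Q 4)
    · exact (add_zero (0 : ℤ)).symm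
    · exact (rfl : P 1 + Q 1 = P 1 + Q 1)
    · exact (rfl : P 7 + Q 7 = P 7 + Q 7)
    · exact neg_add (P 6) (Q 6)
    · exact (rfl : P 5 + Q 5 = P 5 + Q 5)
    · exact neg_add (P 1) (Q 1)
    · exact (add_zero (0 : ℤ)).symm
    · exact neg_add (P 10) (Q 10)
    · exact (rfl : P 9 + Q 9 = P 9 + Q 9)
    · exact neg_add (P 11) (Q 11)
    · exact neg_add (P 7) (Q 7)
    · exact (rfl : P 10 + Q 10 = P 10 + Q 10)
    · exact (add_zero (0 : ℤ)).symm
    · exact (rfl : P 1 + Q 1 = P 1 + Q 1)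
    · exact (rfl : P 10 + Q 10 = P 10 + Q 10)
    · exact (rfl : P 6 + Q 6 = P 6 + Q 6)
    · exact neg_add (P 9) (Q 9)
    · exact neg_add (P 1) (Q 1)
    · exact (add_zero (0 : ℤ)).symm
  smul := by
    intro n P i j
    fin_cases i <;> fin_cases j
    · exact (mul_zero n).symm
    · exact (rfl : n * P 4 = n * P 4)
    · exact (mul_neg n (P 5)).symm
    · exact (rfl : n * P 11 = n * P 11)
    · exact (mul_neg n (P 10)).symm
    · exact (mul_neg n (P 4)).symm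
    · exact (mul_zero n).symm
    · exact (rfl : n * P 1 = n * P 1)
    · exact (rfl : n * P 7 = n * P 7)
    · exact (mul_neg n (P 6)).symm
    · exact (rfl : n * P 5 = n * P 5)
    · exact (mul_neg n (P 1)).symm
    · exact (mul_zero n).symm
    · exact (mul_neg n (P 10)).symm
    · exact (rfl : n * P 9 = n * P 9)
    · exact (mul_neg n (P 11)).symm
    · exact (mul_neg n (P 7)).symm
    · exact (rfl : n * P 10 = n * P 10)
    · exact (mul_zero n).symm
    · exact (rfl : n * P 1 = n * P 1)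
    · exact (rfl : n * P 10 = n * P 10)
    · exact (rfl : n * P 6 = n * P 6)
    · exact (mul_neg n (P 9)).symm
    · exact (mul_neg n (P 1)).symm
    · exact (mul_zero n).symm
  bd := bd_p3
  pf := fun _ hq => pf_p3 hq
  ne := ne_p3
  ex := ex_p3

private theorem sk_q1 (P : Sp) : Skew (B_q1 P) := by
  intro i j
  fin_cases i <;> fin_cases j
  · exact (neg_zero.symm : (0 : ℤ) = -0)
  · exact (rfl : -(P 1) = -(P 1))
  · exact (neg_neg (P 4)).symm
  · exact (rfl : -(P 11) = -(P 11))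
  · exact (neg_neg (P 10)).symm
  · exact (neg_neg (P 1)).symm
  · exact (neg_zero.symm : (0 : ℤ) = -0)
  · exact (rfl : -(P 0) = -(P 0))
  · exact (rfl : -(P 7) = -(P 7))
  · exact (neg_neg (P 6)).symm
  · exact (rfl : -(P 4) = -(P 4))
  · exact (neg_neg (P 0)).symm
  · exact (neg_zero.symm : (0 : ℤ) = -0)
  · exact (neg_neg (P 8)).symm
  · exact (rfl : -(P 7) = -(P 7))
  · exact (neg_neg (P 11)).symm
  · exact (neg_neg (P 7)).symm
  · exact (rfl : -(P 8) = -(P 8))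
  · exact (neg_zero.symm : (0 : ℤ) = -0)
  · exact (rfl : -(P 4) = -(P 4))
  · exact (rfl : -(P 10) = -(P 10))
  · exact (rfl : -(P 6) = -(P 6))
  · exact (neg_neg (P 7)).symm
  · exact (neg_neg (P 4)).symm
  · exact (neg_zero.symm : (0 : ℤ) = -0)

private theorem pf_q1 {P : Sp} (hq : Qd P) : ∀ i j k l, P 3 ∣ Pf5 (B_q1 P) i j k l := by
  refine pf_all (sk_q1 P) ?_ ?_ ?_ ?_ ?_
  · refine ⟨P 1, ?_⟩
    simp only [Pf5, B_q1, Matrix.cons_val]
    linear_combination (1) * hq.h1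
  · refine ⟨-(P 5), ?_⟩
    simp only [Pf5, B_q1, Matrix.cons_val]
    linear_combination (-1) * hq.h4
  · refine ⟨P 2, ?_⟩
    simp only [Pf5, B_q1, Matrix.cons_val]
    linear_combination (1) * hq.h5
  · refine ⟨-(P 9), ?_⟩
    simp only [Pf5, B_q1, Matrix.cons_val]
    linear_combination (-1) * hq.h7
  · refine ⟨P 10, ?_⟩
    simp only [Pf5, B_q1, Matrix.cons_val]
    linear_combination (1) * hq.h9

private theorem bd_q1 (P : Sp) (i j : Fin 5) : B_q1 P i j = 0 ∨ ∃ c : Fin 12, |B_q1 P i j| = |P c| := by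
  fin_cases i <;> fin_cases j
  · exact Or.inl rfl
  · exact Or.inr ⟨1, abs_neg _⟩
  · exact Or.inr ⟨4, rfl⟩
  · exact Or.inr ⟨11, abs_neg _⟩
  · exact Or.inr ⟨10, rfl⟩
  · exact Or.inr ⟨1, rfl⟩
  · exact Or.inl rfl
  · exact Or.inr ⟨0, abs_neg _⟩
  · exact Or.inr ⟨7, abs_neg _⟩
  · exact Or.inr ⟨6, rfl⟩
  · exact Or.inr ⟨4, abs_neg _⟩
  · exact Or.inr ⟨0, rfl⟩
  · exact Or.inl rfl
  · exact Or.inr ⟨8, rfl⟩
  · exact Or.inr ⟨7, abs_neg _⟩
  · exact Or.inr ⟨11, rfl⟩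
  · exact Or.inr ⟨7, rfl⟩
  · exact Or.inr ⟨8, abs_neg _⟩
  · exact Or.inl rfl
  · exact Or.inr ⟨4, abs_neg _⟩
  · exact Or.inr ⟨10, abs_neg _⟩
  · exact Or.inr ⟨6, abs_neg _⟩
  · exact Or.inr ⟨7, rfl⟩
  · exact Or.inr ⟨4, rfl⟩
  · exact Or.inl rfl

private theorem ne_q1 (P Q : Sp) (hP : Qd P) (_hQ : Qd Q) (hPQ : Qd (P + Q)) (ha : P 3 ≠ 0) (hb : Q 3 = 0)
    (hB : ∀ i j, B_q1 Q i j = 0) : Q = 0 := by
  have q0 : Q 0 = 0 := hB 2 1
  have q1 : Q 1 = 0 := hB 1 0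
  have q4 : Q 4 = 0 := hB 0 2
  have q6 : Q 6 = 0 := hB 1 4
  have q7 : Q 7 = 0 := hB 3 1
  have q8 : Q 8 = 0 := hB 2 3
  have q10 : Q 10 = 0 := hB 0 4
  have q11 : Q 11 = 0 := hB 3 0
  have q2 : Q 2 = 0 := by
    have h := hPQ.h5
    have h' := hP.h5
    simp only [Pi.add_apply, q1, hb, q4, q6, q7, q10, q11, add_zero] at h
    have e : P 3 * Q 2 = 0 := by linear_combination -1 * (h - h')
    exact (mul_eq_zero.mp e).resolve_left ha
  have q5 : Q 5 = 0 := by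
    have h := hPQ.h4
    have h' := hP.h4
    simp only [Pi.add_apply, hb, q4, q7, q8, q10, q11, add_zero] at h
    have e : P 3 * Q 5 = 0 := by linear_combination -1 * (h - h')
    exact (mul_eq_zero.mp e).resolve_left ha
  have q9 : Q 9 = 0 := by
    have h := hPQ.h7
    have h' := hP.h7
    simp only [Pi.add_apply, q0, q1, hb, q4, q6, q7, q10, add_zero] at h
    have e : P 3 * Q 9 = 0 := by linear_combination -1 * (h - h')
    exact (mul_eq_zero.mp e).resolve_left ha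
  funext i
  fin_cases i
  · exact q0
  · exact q1
  · exact q2
  · exact hb
  · exact q4
  · exact q5
  · exact q6
  · exact q7
  · exact q8
  · exact q9
  · exact q10
  · exact q11

private theorem ex_q1 (P : Sp) (hq : Qd P) (ha : P 3 ≠ 0) (w z : Fin 5 → ℤ) (h : ∀ k, act (B_q1 P) w k = P 3 * z k) :
    ∃ x : Fin 10 → ℤ, InE P x ∧ FF x = 0 ∧ (∀ k, ∃ j, x j = w k) ∧
      ∀ j, (∃ k, |x j| = |w k|) ∨ ∃ k, |x j| = |z k| := by
  have h0 : -(P 1 * w 1) + P 4 * w 2 + P 10 * w 4 - P 11 * w 3 = P 3 * z 0 := by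
    have := h 0
    simp only [act, B_q1, Fin.sum_univ_five, Matrix.cons_val] at this
    linear_combination this
  have h1 : -(P 0 * w 2) + P 1 * w 0 - P 7 * w 3 + P 6 * w 4 = P 3 * z 1 := by
    have := h 1
    simp only [act, B_q1, Fin.sum_univ_five, Matrix.cons_val] at this
    linear_combination this
  have h2 : P 0 * w 1 - P 4 * w 0 - P 7 * w 4 + P 8 * w 3 = P 3 * z 2 := by
    have := h 2
    simp only [act, B_q1, Fin.sum_univ_five, Matrix.cons_val] at this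
    linear_combination this
  have h3 : -(P 4 * w 4) + P 7 * w 1 - P 8 * w 2 + P 11 * w 0 = P 3 * z 3 := by
    have := h 3
    simp only [act, B_q1, Fin.sum_univ_five, Matrix.cons_val] at this
    linear_combination this
  have h4 : P 4 * w 3 + P 7 * w 2 - P 10 * w 0 - P 6 * w 1 = P 3 * z 4 := by
    have := h 4
    simp only [act, B_q1, Fin.sum_univ_five, Matrix.cons_val] at this
    linear_combination this
  obtain ⟨e1, e2⟩ := e_q1 hq ha h0 h1 h2 h3 h4
  refine ⟨_, e1, e2, ?_, ?_⟩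
  · intro k
    fin_cases k
    · exact ⟨0, rfl⟩
    · exact ⟨3, rfl⟩
    · exact ⟨4, rfl⟩
    · exact ⟨6, rfl⟩
    · exact ⟨8, rfl⟩
  · intro j
    fin_cases j
    · exact Or.inl ⟨0, rfl⟩
    · exact Or.inr ⟨1, abs_neg _⟩
    · exact Or.inr ⟨0, rfl⟩
    · exact Or.inl ⟨1, rfl⟩
    · exact Or.inl ⟨2, rfl⟩
    · exact Or.inr ⟨2, abs_neg _⟩
    · exact Or.inl ⟨3, rfl⟩
    · exact Or.inr ⟨4, rfl⟩
    · exact Or.inl ⟨4, rfl⟩
    · exact Or.inr ⟨3, abs_neg _⟩

private theorem cht_q1 : Cht 3 B_q1 where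
  skew := sk_q1
  add := by
    intro P Q i j
    fin_cases i <;> fin_cases j
    · exact (add_zero (0 : ℤ)).symm
    · exact neg_add (P 1) (Q 1)
    · exact (rfl : P 4 + Q 4 = P 4 + Q 4)
    · exact neg_add (P 11) (Q 11)
    · exact (rfl : P 10 + Q 10 = P 10 + Q 10)
    · exact (rfl : P 1 + Q 1 = P 1 + Q 1)
    · exact (add_zero (0 : ℤ)).symm
    · exact neg_add (P 0) (Q 0)
    · exact neg_add (P 7) (Q 7)
    · exact (rfl : P 6 + Q 6 = P 6 + Q 6)
    · exact neg_add (P 4) (Q 4)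
    · exact (rfl : P 0 + Q 0 = P 0 + Q 0)
    · exact (add_zero (0 : ℤ)).symm
    · exact (rfl : P 8 + Q 8 = P 8 + Q 8)
    · exact neg_add (P 7) (Q 7)
    · exact (rfl : P 11 + Q 11 = P 11 + Q 11)
    · exact (rfl : P 7 + Q 7 = P 7 + Q 7)
    · exact neg_add (P 8) (Q 8)
    · exact (add_zero (0 : ℤ)).symm
    · exact neg_add (P 4) (Q 4)
    · exact neg_add (P 10) (Q 10)
    · exact neg_add (P 6) (Q 6)
    · exact (rfl : P 7 + Q 7 = P 7 + Q 7)
    · exact (rfl : P 4 + Q 4 = P 4 + Q 4)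
    · exact (add_zero (0 : ℤ)).symm
  smul := by
    intro n P i j
    fin_cases i <;> fin_cases j
    · exact (mul_zero n).symm
    · exact (mul_neg n (P 1)).symm
    · exact (rfl : n * P 4 = n * P 4)
    · exact (mul_neg n (P 11)).symm
    · exact (rfl : n * P 10 = n * P 10)
    · exact (rfl : n * P 1 = n * P 1)
    · exact (mul_zero n).symm
    · exact (mul_neg n (P 0)).symm
    · exact (mul_neg n (P 7)).symm
    · exact (rfl : n * P 6 = n * P 6)
    · exact (mul_neg n (P 4)).symm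
    · exact (rfl : n * P 0 = n * P 0)
    · exact (mul_zero n).symm
    · exact (rfl : n * P 8 = n * P 8)
    · exact (mul_neg n (P 7)).symm
    · exact (rfl : n * P 11 = n * P 11)
    · exact (rfl : n * P 7 = n * P 7)
    · exact (mul_neg n (P 8)).symm
    · exact (mul_zero n).symm
    · exact (mul_neg n (P 4)).symm
    · exact (mul_neg n (P 10)).symm
    · exact (mul_neg n (P 6)).symm
    · exact (rfl : n * P 7 = n * P 7)
    · exact (rfl : n * P 4 = n * P 4)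
    · exact (mul_zero n).symm
  bd := bd_q1
  pf := fun _ hq => pf_q1 hq
  ne := ne_q1
  ex := ex_q1

private theorem sk_q2 (P : Sp) : Skew (B_q2 P) := by
  intro i j
  fin_cases i <;> fin_cases j
  · exact (neg_zero.symm : (0 : ℤ) = -0)
  · exact (rfl : -(P 2) = -(P 2))
  · exact (neg_neg (P 5)).symm
  · exact (rfl : -(P 11) = -(P 11))
  · exact (neg_neg (P 10)).symm
  · exact (neg_neg (P 2)).symm
  · exact (neg_zero.symm : (0 : ℤ) = -0)
  · exact (rfl : -(P 1) = -(P 1))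
  · exact (rfl : -(P 7) = -(P 7))
  · exact (neg_neg (P 6)).symm
  · exact (rfl : -(P 5) = -(P 5))
  · exact (neg_neg (P 1)).symm
  · exact (neg_zero.symm : (0 : ℤ) = -0)
  · exact (neg_neg (P 8)).symm
  · exact (rfl : -(P 7) = -(P 7))
  · exact (neg_neg (P 11)).symm
  · exact (neg_neg (P 7)).symm
  · exact (rfl : -(P 8) = -(P 8))
  · exact (neg_zero.symm : (0 : ℤ) = -0)
  · exact (neg_neg (P 3)).symm
  · exact (rfl : -(P 10) = -(P 10))
  · exact (rfl : -(P 6) = -(P 6))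
  · exact (neg_neg (P 7)).symm
  · exact (rfl : -(P 3) = -(P 3))
  · exact (neg_zero.symm : (0 : ℤ) = -0)

private theorem pf_q2 {P : Sp} (hq : Qd P) : ∀ i j k l, P 4 ∣ Pf5 (B_q2 P) i j k l := by
  refine pf_all (sk_q2 P) ?_ ?_ ?_ ?_ ?_
  · refine ⟨-(P 0), ?_⟩
    simp only [Pf5, B_q2, Matrix.cons_val]
    linear_combination (1) * hq.h1
  · refine ⟨P 4, ?_⟩
    simp only [Pf5, B_q2, Matrix.cons_val]
    linear_combination (-1) * hq.h4
  · refine ⟨-(P 1), ?_⟩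
    simp only [Pf5, B_q2, Matrix.cons_val]
    linear_combination (1) * hq.h5
  · refine ⟨-(P 9), ?_⟩
    simp only [Pf5, B_q2, Matrix.cons_val]
    linear_combination (-1) * hq.h8
  · refine ⟨P 10, ?_⟩
    simp only [Pf5, B_q2, Matrix.cons_val]
    linear_combination (1) * hq.h10

private theorem bd_q2 (P : Sp) (i j : Fin 5) : B_q2 P i j = 0 ∨ ∃ c : Fin 12, |B_q2 P i j| = |P c| := by
  fin_cases i <;> fin_cases j
  · exact Or.inl rfl
  · exact Or.inr ⟨2, abs_neg _⟩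
  · exact Or.inr ⟨5, rfl⟩
  · exact Or.inr ⟨11, abs_neg _⟩
  · exact Or.inr ⟨10, rfl⟩
  · exact Or.inr ⟨2, rfl⟩
  · exact Or.inl rfl
  · exact Or.inr ⟨1, abs_neg _⟩
  · exact Or.inr ⟨7, abs_neg _⟩
  · exact Or.inr ⟨6, rfl⟩
  · exact Or.inr ⟨5, abs_neg _⟩
  · exact Or.inr ⟨1, rfl⟩
  · exact Or.inl rfl
  · exact Or.inr ⟨8, rfl⟩
  · exact Or.inr ⟨7, abs_neg _⟩
  · exact Or.inr ⟨11, rfl⟩
  · exact Or.inr ⟨7, rfl⟩
  · exact Or.inr ⟨8, abs_neg _⟩
  · exact Or.inl rfl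
  · exact Or.inr ⟨3, rfl⟩
  · exact Or.inr ⟨10, abs_neg _⟩
  · exact Or.inr ⟨6, abs_neg _⟩
  · exact Or.inr ⟨7, rfl⟩
  · exact Or.inr ⟨3, abs_neg _⟩
  · exact Or.inl rfl

private theorem ne_q2 (P Q : Sp) (hP : Qd P) (_hQ : Qd Q) (hPQ : Qd (P + Q)) (ha : P 4 ≠ 0) (hb : Q 4 = 0)
    (hB : ∀ i j, B_q2 Q i j = 0) : Q = 0 := by
  have q1 : Q 1 = 0 := hB 2 1
  have q2 : Q 2 = 0 := hB 1 0
  have q3 : Q 3 = 0 := hB 3 4
  have q5 : Q 5 = 0 := hB 0 2
  have q6 : Q 6 = 0 := hB 1 4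
  have q7 : Q 7 = 0 := hB 3 1
  have q8 : Q 8 = 0 := hB 2 3
  have q10 : Q 10 = 0 := hB 0 4
  have q11 : Q 11 = 0 := hB 3 0
  have q0 : Q 0 = 0 := by
    have h := hPQ.h1
    have h' := hP.h1
    simp only [Pi.add_apply, q1, q3, hb, q6, q7, q8, add_zero] at h
    have e : P 4 * Q 0 = 0 := by linear_combination (h - h')
    exact (mul_eq_zero.mp e).resolve_left ha
  have q9 : Q 9 = 0 := by
    have h := hPQ.h8
    have h' := hP.h8
    simp only [Pi.add_apply, q1, q2, hb, q5, q6, q7, q10, add_zero] at h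
    have e : P 4 * Q 9 = 0 := by linear_combination -1 * (h - h')
    exact (mul_eq_zero.mp e).resolve_left ha
  funext i
  fin_cases i
  · exact q0
  · exact q1
  · exact q2
  · exact q3
  · exact hb
  · exact q5
  · exact q6
  · exact q7
  · exact q8
  · exact q9
  · exact q10
  · exact q11

private theorem ex_q2 (P : Sp) (hq : Qd P) (ha : P 4 ≠ 0) (w z : Fin 5 → ℤ) (h : ∀ k, act (B_q2 P) w k = P 4 * z k) :
    ∃ x : Fin 10 → ℤ, InE P x ∧ FF x = 0 ∧ (∀ k, ∃ j, x j = w k) ∧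
      ∀ j, (∃ k, |x j| = |w k|) ∨ ∃ k, |x j| = |z k| := by
  have h0 : -(P 2 * w 1) + P 5 * w 2 + P 10 * w 4 - P 11 * w 3 = P 4 * z 0 := by
    have := h 0
    simp only [act, B_q2, Fin.sum_univ_five, Matrix.cons_val] at this
    linear_combination this
  have h1 : -(P 1 * w 2) + P 2 * w 0 - P 7 * w 3 + P 6 * w 4 = P 4 * z 1 := by
    have := h 1
    simp only [act, B_q2, Fin.sum_univ_five, Matrix.cons_val] at this
    linear_combination this
  have h2 : P 1 * w 1 - P 5 * w 0 - P 7 * w 4 + P 8 * w 3 = P 4 * z 2 := by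
    have := h 2
    simp only [act, B_q2, Fin.sum_univ_five, Matrix.cons_val] at this
    linear_combination this
  have h3 : P 3 * w 4 + P 7 * w 1 - P 8 * w 2 + P 11 * w 0 = P 4 * z 3 := by
    have := h 3
    simp only [act, B_q2, Fin.sum_univ_five, Matrix.cons_val] at this
    linear_combination this
  have h4 : -(P 3 * w 3) + P 7 * w 2 - P 10 * w 0 - P 6 * w 1 = P 4 * z 4 := by
    have := h 4
    simp only [act, B_q2, Fin.sum_univ_five, Matrix.cons_val] at this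
    linear_combination this
  obtain ⟨e1, e2⟩ := e_q2 hq ha h0 h1 h2 h3 h4
  refine ⟨_, e1, e2, ?_, ?_⟩
  · intro k
    fin_cases k
    · exact ⟨0, rfl⟩
    · exact ⟨3, rfl⟩
    · exact ⟨4, rfl⟩
    · exact ⟨7, rfl⟩
    · exact ⟨9, rfl⟩
  · intro j
    fin_cases j
    · exact Or.inl ⟨0, rfl⟩
    · exact Or.inr ⟨1, abs_neg _⟩
    · exact Or.inr ⟨0, rfl⟩
    · exact Or.inl ⟨1, rfl⟩
    · exact Or.inl ⟨2, rfl⟩
    · exact Or.inr ⟨2, abs_neg _⟩
    · exact Or.inr ⟨4, abs_neg _⟩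
    · exact Or.inl ⟨3, rfl⟩
    · exact Or.inr ⟨3, rfl⟩
    · exact Or.inl ⟨4, rfl⟩

private theorem cht_q2 : Cht 4 B_q2 where
  skew := sk_q2
  add := by
    intro P Q i j
    fin_cases i <;> fin_cases j
    · exact (add_zero (0 : ℤ)).symm
    · exact neg_add (P 2) (Q 2)
    · exact (rfl : P 5 + Q 5 = P 5 + Q 5)
    · exact neg_add (P 11) (Q 11)
    · exact (rfl : P 10 + Q 10 = P 10 + Q 10)
    · exact (rfl : P 2 + Q 2 = P 2 + Q 2)
    · exact (add_zero (0 : ℤ)).symm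
    · exact neg_add (P 1) (Q 1)
    · exact neg_add (P 7) (Q 7)
    · exact (rfl : P 6 + Q 6 = P 6 + Q 6)
    · exact neg_add (P 5) (Q 5)
    · exact (rfl : P 1 + Q 1 = P 1 + Q 1)
    · exact (add_zero (0 : ℤ)).symm
    · exact (rfl : P 8 + Q 8 = P 8 + Q 8)
    · exact neg_add (P 7) (Q 7)
    · exact (rfl : P 11 + Q 11 = P 11 + Q 11)
    · exact (rfl : P 7 + Q 7 = P 7 + Q 7)
    · exact neg_add (P 8) (Q 8)
    · exact (add_zero (0 : ℤ)).symm
    · exact (rfl : P 3 + Q 3 = P 3 + Q 3)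
    · exact neg_add (P 10) (Q 10)
    · exact neg_add (P 6) (Q 6)
    · exact (rfl : P 7 + Q 7 = P 7 + Q 7)
    · exact neg_add (P 3) (Q 3)
    · exact (add_zero (0 : ℤ)).symm
  smul := by
    intro n P i j
    fin_cases i <;> fin_cases j
    · exact (mul_zero n).symm
    · exact (mul_neg n (P 2)).symm
    · exact (rfl : n * P 5 = n * P 5)
    · exact (mul_neg n (P 11)).symm
    · exact (rfl : n * P 10 = n * P 10)
    · exact (rfl : n * P 2 = n * P 2)
    · exact (mul_zero n).symm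
    · exact (mul_neg n (P 1)).symm
    · exact (mul_neg n (P 7)).symm
    · exact (rfl : n * P 6 = n * P 6)
    · exact (mul_neg n (P 5)).symm
    · exact (rfl : n * P 1 = n * P 1)
    · exact (mul_zero n).symm
    · exact (rfl : n * P 8 = n * P 8)
    · exact (mul_neg n (P 7)).symm
    · exact (rfl : n * P 11 = n * P 11)
    · exact (rfl : n * P 7 = n * P 7)
    · exact (mul_neg n (P 8)).symm
    · exact (mul_zero n).symm
    · exact (rfl : n * P 3 = n * P 3)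
    · exact (mul_neg n (P 10)).symm
    · exact (mul_neg n (P 6)).symm
    · exact (rfl : n * P 7 = n * P 7)
    · exact (mul_neg n (P 3)).symm
    · exact (mul_zero n).symm
  bd := bd_q2
  pf := fun _ hq => pf_q2 hq
  ne := ne_q2
  ex := ex_q2

private theorem sk_q3 (P : Sp) : Skew (B_q3 P) := by
  intro i j
  fin_cases i <;> fin_cases j
  · exact (neg_zero.symm : (0 : ℤ) = -0)
  · exact (neg_neg (P 1)).symm
  · exact (neg_neg (P 4)).symm
  · exact (neg_neg (P 8)).symm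
  · exact (rfl : -(P 7) = -(P 7))
  · exact (rfl : -(P 1) = -(P 1))
  · exact (neg_zero.symm : (0 : ℤ) = -0)
  · exact (neg_neg (P 2)).symm
  · exact (rfl : -(P 10) = -(P 10))
  · exact (neg_neg (P 9)).symm
  · exact (rfl : -(P 4) = -(P 4))
  · exact (rfl : -(P 2) = -(P 2))
  · exact (neg_zero.symm : (0 : ℤ) = -0)
  · exact (rfl : -(P 11) = -(P 11))
  · exact (neg_neg (P 10)).symm
  · exact (rfl : -(P 8) = -(P 8))
  · exact (neg_neg (P 10)).symm
  · exact (neg_neg (P 11)).symm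
  · exact (neg_zero.symm : (0 : ℤ) = -0)
  · exact (neg_neg (P 4)).symm
  · exact (neg_neg (P 7)).symm
  · exact (rfl : -(P 9) = -(P 9))
  · exact (rfl : -(P 10) = -(P 10))
  · exact (rfl : -(P 4) = -(P 4))
  · exact (neg_zero.symm : (0 : ℤ) = -0)

private theorem pf_q3 {P : Sp} (hq : Qd P) : ∀ i j k l, P 5 ∣ Pf5 (B_q3 P) i j k l := by
  refine pf_all (sk_q3 P) ?_ ?_ ?_ ?_ ?_
  · refine ⟨P 1, ?_⟩
    simp only [Pf5, B_q3, Matrix.cons_val]
    linear_combination (-1) * hq.h3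
  · refine ⟨P 3, ?_⟩
    simp only [Pf5, B_q3, Matrix.cons_val]
    linear_combination (1) * hq.h4
  · refine ⟨P 0, ?_⟩
    simp only [Pf5, B_q3, Matrix.cons_val]
    linear_combination (-1) * hq.h6
  · refine ⟨-(P 6), ?_⟩
    simp only [Pf5, B_q3, Matrix.cons_val]
    linear_combination (1) * hq.h8
  · refine ⟨P 7, ?_⟩
    simp only [Pf5, B_q3, Matrix.cons_val]
    linear_combination (-1) * hq.h10

private theorem bd_q3 (P : Sp) (i j : Fin 5) : B_q3 P i j = 0 ∨ ∃ c : Fin 12, |B_q3 P i j| = |P c| := by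
  fin_cases i <;> fin_cases j
  · exact Or.inl rfl
  · exact Or.inr ⟨1, rfl⟩
  · exact Or.inr ⟨4, rfl⟩
  · exact Or.inr ⟨8, rfl⟩
  · exact Or.inr ⟨7, abs_neg _⟩
  · exact Or.inr ⟨1, abs_neg _⟩
  · exact Or.inl rfl
  · exact Or.inr ⟨2, rfl⟩
  · exact Or.inr ⟨10, abs_neg _⟩
  · exact Or.inr ⟨9, rfl⟩
  · exact Or.inr ⟨4, abs_neg _⟩
  · exact Or.inr ⟨2, abs_neg _⟩
  · exact Or.inl rfl
  · exact Or.inr ⟨11, abs_neg _⟩
  · exact Or.inr ⟨10, rfl⟩
  · exact Or.inr ⟨8, abs_neg _⟩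
  · exact Or.inr ⟨10, rfl⟩
  · exact Or.inr ⟨11, rfl⟩
  · exact Or.inl rfl
  · exact Or.inr ⟨4, rfl⟩
  · exact Or.inr ⟨7, rfl⟩
  · exact Or.inr ⟨9, abs_neg _⟩
  · exact Or.inr ⟨10, abs_neg _⟩
  · exact Or.inr ⟨4, abs_neg _⟩
  · exact Or.inl rfl

private theorem ne_q3 (P Q : Sp) (hP : Qd P) (_hQ : Qd Q) (hPQ : Qd (P + Q)) (ha : P 5 ≠ 0) (hb : Q 5 = 0)
    (hB : ∀ i j, B_q3 Q i j = 0) : Q = 0 := by
  have q1 : Q 1 = 0 := hB 0 1
  have q2 : Q 2 = 0 := hB 1 2
  have q4 : Q 4 = 0 := hB 0 2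
  have q7 : Q 7 = 0 := hB 4 0
  have q8 : Q 8 = 0 := hB 0 3
  have q9 : Q 9 = 0 := hB 1 4
  have q10 : Q 10 = 0 := hB 2 4
  have q11 : Q 11 = 0 := hB 3 2
  have q0 : Q 0 = 0 := by
    have h := hPQ.h6
    have h' := hP.h6
    simp only [Pi.add_apply, q1, q4, hb, q7, q8, q9, q10, add_zero] at h
    have e : P 5 * Q 0 = 0 := by linear_combination (h - h')
    exact (mul_eq_zero.mp e).resolve_left ha
  have q3 : Q 3 = 0 := by
    have h := hPQ.h4
    have h' := hP.h4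
    simp only [Pi.add_apply, q4, hb, q7, q8, q10, q11, add_zero] at h
    have e : P 5 * Q 3 = 0 := by linear_combination -1 * (h - h')
    exact (mul_eq_zero.mp e).resolve_left ha
  have q6 : Q 6 = 0 := by
    have h := hPQ.h8
    have h' := hP.h8
    simp only [Pi.add_apply, q1, q2, q4, hb, q7, q9, q10, add_zero] at h
    have e : P 5 * Q 6 = 0 := by linear_combination (h - h')
    exact (mul_eq_zero.mp e).resolve_left ha
  funext i
  fin_cases i
  · exact q0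
  · exact q1
  · exact q2
  · exact q3
  · exact q4
  · exact hb
  · exact q6
  · exact q7
  · exact q8
  · exact q9
  · exact q10
  · exact q11

private theorem ex_q3 (P : Sp) (hq : Qd P) (ha : P 5 ≠ 0) (w z : Fin 5 → ℤ) (h : ∀ k, act (B_q3 P) w k = P 5 * z k) :
    ∃ x : Fin 10 → ℤ, InE P x ∧ FF x = 0 ∧ (∀ k, ∃ j, x j = w k) ∧
      ∀ j, (∃ k, |x j| = |w k|) ∨ ∃ k, |x j| = |z k| := by
  have h0 : P 1 * w 1 + P 4 * w 2 - P 7 * w 4 + P 8 * w 3 = P 5 * z 0 := by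
    have := h 0
    simp only [act, B_q3, Fin.sum_univ_five, Matrix.cons_val] at this
    linear_combination this
  have h1 : -(P 1 * w 0) + P 2 * w 2 + P 9 * w 4 - P 10 * w 3 = P 5 * z 1 := by
    have := h 1
    simp only [act, B_q3, Fin.sum_univ_five, Matrix.cons_val] at this
    linear_combination this
  have h2 : -(P 2 * w 1) - P 4 * w 0 + P 10 * w 4 - P 11 * w 3 = P 5 * z 2 := by
    have := h 2
    simp only [act, B_q3, Fin.sum_univ_five, Matrix.cons_val] at this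
    linear_combination this
  have h3 : P 4 * w 4 - P 8 * w 0 + P 10 * w 1 + P 11 * w 2 = P 5 * z 3 := by
    have := h 3
    simp only [act, B_q3, Fin.sum_univ_five, Matrix.cons_val] at this
    linear_combination this
  have h4 : -(P 4 * w 3) + P 7 * w 0 - P 9 * w 1 - P 10 * w 2 = P 5 * z 4 := by
    have := h 4
    simp only [act, B_q3, Fin.sum_univ_five, Matrix.cons_val] at this
    linear_combination this
  obtain ⟨e1, e2⟩ := e_q3 hq ha h0 h1 h2 h3 h4
  refine ⟨_, e1, e2, ?_, ?_⟩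
  · intro k
    fin_cases k
    · exact ⟨2, rfl⟩
    · exact ⟨3, rfl⟩
    · exact ⟨5, rfl⟩
    · exact ⟨7, rfl⟩
    · exact ⟨9, rfl⟩
  · intro j
    fin_cases j
    · exact Or.inr ⟨0, rfl⟩
    · exact Or.inr ⟨1, abs_neg _⟩
    · exact Or.inl ⟨0, rfl⟩
    · exact Or.inl ⟨1, rfl⟩
    · exact Or.inr ⟨2, abs_neg _⟩
    · exact Or.inl ⟨2, rfl⟩
    · exact Or.inr ⟨4, abs_neg _⟩
    · exact Or.inl ⟨3, rfl⟩
    · exact Or.inr ⟨3, rfl⟩
    · exact Or.inl ⟨4, rfl⟩

private theorem cht_q3 : Cht 5 B_q3 where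
  skew := sk_q3
  add := by
    intro P Q i j
    fin_cases i <;> fin_cases j
    · exact (add_zero (0 : ℤ)).symm
    · exact (rfl : P 1 + Q 1 = P 1 + Q 1)
    · exact (rfl : P 4 + Q 4 = P 4 + Q 4)
    · exact (rfl : P 8 + Q 8 = P 8 + Q 8)
    · exact neg_add (P 7) (Q 7)
    · exact neg_add (P 1) (Q 1)
    · exact (add_zero (0 : ℤ)).symm
    · exact (rfl : P 2 + Q 2 = P 2 + Q 2)
    · exact neg_add (P 10) (Q 10)
    · exact (rfl : P 9 + Q 9 = P 9 + Q 9)
    · exact neg_add (P 4) (Q 4)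
    · exact neg_add (P 2) (Q 2)
    · exact (add_zero (0 : ℤ)).symm
    · exact neg_add (P 11) (Q 11)
    · exact (rfl : P 10 + Q 10 = P 10 + Q 10)
    · exact neg_add (P 8) (Q 8)
    · exact (rfl : P 10 + Q 10 = P 10 + Q 10)
    · exact (rfl : P 11 + Q 11 = P 11 + Q 11)
    · exact (add_zero (0 : ℤ)).symm
    · exact (rfl : P 4 + Q 4 = P 4 + Q 4)
    · exact (rfl : P 7 + Q 7 = P 7 + Q 7)
    · exact neg_add (P 9) (Q 9)
    · exact neg_add (P 10) (Q 10)
    · exact neg_add (P 4) (Q 4)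
    · exact (add_zero (0 : ℤ)).symm
  smul := by
    intro n P i j
    fin_cases i <;> fin_cases j
    · exact (mul_zero n).symm
    · exact (rfl : n * P 1 = n * P 1)
    · exact (rfl : n * P 4 = n * P 4)
    · exact (rfl : n * P 8 = n * P 8)
    · exact (mul_neg n (P 7)).symm
    · exact (mul_neg n (P 1)).symm
    · exact (mul_zero n).symm
    · exact (rfl : n * P 2 = n * P 2)
    · exact (mul_neg n (P 10)).symm
    · exact (rfl : n * P 9 = n * P 9)
    · exact (mul_neg n (P 4)).symm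
    · exact (mul_neg n (P 2)).symm
    · exact (mul_zero n).symm
    · exact (mul_neg n (P 11)).symm
    · exact (rfl : n * P 10 = n * P 10)
    · exact (mul_neg n (P 8)).symm
    · exact (rfl : n * P 10 = n * P 10)
    · exact (rfl : n * P 11 = n * P 11)
    · exact (mul_zero n).symm
    · exact (rfl : n * P 4 = n * P 4)
    · exact (rfl : n * P 7 = n * P 7)
    · exact (mul_neg n (P 9)).symm
    · exact (mul_neg n (P 10)).symm
    · exact (mul_neg n (P 4)).symm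
    · exact (mul_zero n).symm
  bd := bd_q3
  pf := fun _ hq => pf_q3 hq
  ne := ne_q3
  ex := ex_q3

private theorem sk_v (P : Sp) : Skew (B_v P) := by
  intro i j
  fin_cases i <;> fin_cases j
  · exact (neg_zero.symm : (0 : ℤ) = -0)
  · exact (rfl : -(P 10) = -(P 10))
  · exact (neg_neg (P 9)).symm
  · exact (rfl : -(P 2) = -(P 2))
  · exact (neg_neg (P 1)).symm
  · exact (neg_neg (P 10)).symm
  · exact (neg_zero.symm : (0 : ℤ) = -0)
  · exact (rfl : -(P 7) = -(P 7))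
  · exact (rfl : -(P 4) = -(P 4))
  · exact (neg_neg (P 3)).symm
  · exact (rfl : -(P 9) = -(P 9))
  · exact (neg_neg (P 7)).symm
  · exact (neg_zero.symm : (0 : ℤ) = -0)
  · exact (neg_neg (P 1)).symm
  · exact (rfl : -(P 0) = -(P 0))
  · exact (neg_neg (P 2)).symm
  · exact (neg_neg (P 4)).symm
  · exact (rfl : -(P 1) = -(P 1))
  · exact (neg_zero.symm : (0 : ℤ) = -0)
  · exact (rfl : -(P 7) = -(P 7))
  · exact (rfl : -(P 1) = -(P 1))
  · exact (rfl : -(P 3) = -(P 3))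
  · exact (neg_neg (P 0)).symm
  · exact (neg_neg (P 7)).symm
  · exact (neg_zero.symm : (0 : ℤ) = -0)

private theorem pf_v {P : Sp} (hq : Qd P) : ∀ i j k l, P 6 ∣ Pf5 (B_v P) i j k l := by
  refine pf_all (sk_v P) ?_ ?_ ?_ ?_ ?_
  · refine ⟨P 8, ?_⟩
    simp only [Pf5, B_v, Matrix.cons_val]
    linear_combination (-1) * hq.h1
  · refine ⟨-(P 10), ?_⟩
    simp only [Pf5, B_v, Matrix.cons_val]
    linear_combination (1) * hq.h2
  · refine ⟨P 11, ?_⟩
    simp only [Pf5, B_v, Matrix.cons_val]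
    linear_combination (-1) * hq.h5
  · refine ⟨-(P 4), ?_⟩
    simp only [Pf5, B_v, Matrix.cons_val]
    linear_combination (1) * hq.h7
  · refine ⟨P 5, ?_⟩
    simp only [Pf5, B_v, Matrix.cons_val]
    linear_combination (-1) * hq.h8

private theorem bd_v (P : Sp) (i j : Fin 5) : B_v P i j = 0 ∨ ∃ c : Fin 12, |B_v P i j| = |P c| := by
  fin_cases i <;> fin_cases j
  · exact Or.inl rfl
  · exact Or.inr ⟨10, abs_neg _⟩
  · exact Or.inr ⟨9, rfl⟩
  · exact Or.inr ⟨2, abs_neg _⟩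
  · exact Or.inr ⟨1, rfl⟩
  · exact Or.inr ⟨10, rfl⟩
  · exact Or.inl rfl
  · exact Or.inr ⟨7, abs_neg _⟩
  · exact Or.inr ⟨4, abs_neg _⟩
  · exact Or.inr ⟨3, rfl⟩
  · exact Or.inr ⟨9, abs_neg _⟩
  · exact Or.inr ⟨7, rfl⟩
  · exact Or.inl rfl
  · exact Or.inr ⟨1, rfl⟩
  · exact Or.inr ⟨0, abs_neg _⟩
  · exact Or.inr ⟨2, rfl⟩
  · exact Or.inr ⟨4, rfl⟩
  · exact Or.inr ⟨1, abs_neg _⟩
  · exact Or.inl rfl
  · exact Or.inr ⟨7, abs_neg _⟩
  · exact Or.inr ⟨1, abs_neg _⟩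
  · exact Or.inr ⟨3, abs_neg _⟩
  · exact Or.inr ⟨0, rfl⟩
  · exact Or.inr ⟨7, rfl⟩
  · exact Or.inl rfl

private theorem ne_v (P Q : Sp) (hP : Qd P) (_hQ : Qd Q) (hPQ : Qd (P + Q)) (ha : P 6 ≠ 0) (hb : Q 6 = 0)
    (hB : ∀ i j, B_v Q i j = 0) : Q = 0 := by
  have q0 : Q 0 = 0 := hB 4 2
  have q1 : Q 1 = 0 := hB 0 4
  have q2 : Q 2 = 0 := hB 3 0
  have q3 : Q 3 = 0 := hB 1 4
  have q4 : Q 4 = 0 := hB 3 1
  have q7 : Q 7 = 0 := hB 2 1
  have q9 : Q 9 = 0 := hB 0 2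
  have q10 : Q 10 = 0 := hB 1 0
  have q5 : Q 5 = 0 := by
    have h := hPQ.h8
    have h' := hP.h8
    simp only [Pi.add_apply, q1, q2, q4, hb, q7, q9, q10, add_zero] at h
    have e : P 6 * Q 5 = 0 := by linear_combination (h - h')
    exact (mul_eq_zero.mp e).resolve_left ha
  have q8 : Q 8 = 0 := by
    have h := hPQ.h1
    have h' := hP.h1
    simp only [Pi.add_apply, q0, q1, q3, q4, hb, q7, add_zero] at h
    have e : P 6 * Q 8 = 0 := by linear_combination (h - h')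
    exact (mul_eq_zero.mp e).resolve_left ha
  have q11 : Q 11 = 0 := by
    have h := hPQ.h5
    have h' := hP.h5
    simp only [Pi.add_apply, q1, q2, q3, q4, hb, q7, q10, add_zero] at h
    have e : P 6 * Q 11 = 0 := by linear_combination (h - h')
    exact (mul_eq_zero.mp e).resolve_left ha
  funext i
  fin_cases i
  · exact q0
  · exact q1
  · exact q2
  · exact q3
  · exact q4
  · exact q5
  · exact hb
  · exact q7
  · exact q8
  · exact q9
  · exact q10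
  · exact q11

private theorem ex_v (P : Sp) (hq : Qd P) (ha : P 6 ≠ 0) (w z : Fin 5 → ℤ) (h : ∀ k, act (B_v P) w k = P 6 * z k) :
    ∃ x : Fin 10 → ℤ, InE P x ∧ FF x = 0 ∧ (∀ k, ∃ j, x j = w k) ∧
      ∀ j, (∃ k, |x j| = |w k|) ∨ ∃ k, |x j| = |z k| := by
  have h0 : P 1 * w 4 - P 2 * w 3 + P 9 * w 2 - P 10 * w 1 = P 6 * z 0 := by
    have := h 0
    simp only [act, B_v, Fin.sum_univ_five, Matrix.cons_val] at this
    linear_combination this
  have h1 : P 3 * w 4 - P 4 * w 3 - P 7 * w 2 + P 10 * w 0 = P 6 * z 1 := by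
    have := h 1
    simp only [act, B_v, Fin.sum_univ_five, Matrix.cons_val] at this
    linear_combination this
  have h2 : -(P 0 * w 4) + P 1 * w 3 + P 7 * w 1 - P 9 * w 0 = P 6 * z 2 := by
    have := h 2
    simp only [act, B_v, Fin.sum_univ_five, Matrix.cons_val] at this
    linear_combination this
  have h3 : -(P 1 * w 2) + P 2 * w 0 + P 4 * w 1 - P 7 * w 4 = P 6 * z 3 := by
    have := h 3
    simp only [act, B_v, Fin.sum_univ_five, Matrix.cons_val] at this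
    linear_combination this
  have h4 : P 0 * w 2 - P 1 * w 0 - P 3 * w 1 + P 7 * w 3 = P 6 * z 4 := by
    have := h 4
    simp only [act, B_v, Fin.sum_univ_five, Matrix.cons_val] at this
    linear_combination this
  obtain ⟨e1, e2⟩ := e_v hq ha h0 h1 h2 h3 h4
  refine ⟨_, e1, e2, ?_, ?_⟩
  · intro k
    fin_cases k
    · exact ⟨0, rfl⟩
    · exact ⟨1, rfl⟩
    · exact ⟨4, rfl⟩
    · exact ⟨6, rfl⟩
    · exact ⟨7, rfl⟩
  · intro j
    fin_cases j
    · exact Or.inl ⟨0, rfl⟩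
    · exact Or.inl ⟨1, rfl⟩
    · exact Or.inr ⟨0, rfl⟩
    · exact Or.inr ⟨1, abs_neg _⟩
    · exact Or.inl ⟨2, rfl⟩
    · exact Or.inr ⟨2, abs_neg _⟩
    · exact Or.inl ⟨3, rfl⟩
    · exact Or.inl ⟨4, rfl⟩
    · exact Or.inr ⟨4, rfl⟩
    · exact Or.inr ⟨3, abs_neg _⟩

private theorem cht_v : Cht 6 B_v where
  skew := sk_v
  add := by
    intro P Q i j
    fin_cases i <;> fin_cases j
    · exact (add_zero (0 : ℤ)).symm
    · exact neg_add (P 10) (Q 10)
    · exact (rfl : P 9 + Q 9 = P 9 + Q 9)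
    · exact neg_add (P 2) (Q 2)
    · exact (rfl : P 1 + Q 1 = P 1 + Q 1)
    · exact (rfl : P 10 + Q 10 = P 10 + Q 10)
    · exact (add_zero (0 : ℤ)).symm
    · exact neg_add (P 7) (Q 7)
    · exact neg_add (P 4) (Q 4)
    · exact (rfl : P 3 + Q 3 = P 3 + Q 3)
    · exact neg_add (P 9) (Q 9)
    · exact (rfl : P 7 + Q 7 = P 7 + Q 7)
    · exact (add_zero (0 : ℤ)).symm
    · exact (rfl : P 1 + Q 1 = P 1 + Q 1)
    · exact neg_add (P 0) (Q 0)
    · exact (rfl : P 2 + Q 2 = P 2 + Q 2)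
    · exact (rfl : P 4 + Q 4 = P 4 + Q 4)
    · exact neg_add (P 1) (Q 1)
    · exact (add_zero (0 : ℤ)).symm
    · exact neg_add (P 7) (Q 7)
    · exact neg_add (P 1) (Q 1)
    · exact neg_add (P 3) (Q 3)
    · exact (rfl : P 0 + Q 0 = P 0 + Q 0)
    · exact (rfl : P 7 + Q 7 = P 7 + Q 7)
    · exact (add_zero (0 : ℤ)).symm
  smul := by
    intro n P i j
    fin_cases i <;> fin_cases j
    · exact (mul_zero n).symm
    · exact (mul_neg n (P 10)).symm
    · exact (rfl : n * P 9 = n * P 9)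
    · exact (mul_neg n (P 2)).symm
    · exact (rfl : n * P 1 = n * P 1)
    · exact (rfl : n * P 10 = n * P 10)
    · exact (mul_zero n).symm
    · exact (mul_neg n (P 7)).symm
    · exact (mul_neg n (P 4)).symm
    · exact (rfl : n * P 3 = n * P 3)
    · exact (mul_neg n (P 9)).symm
    · exact (rfl : n * P 7 = n * P 7)
    · exact (mul_zero n).symm
    · exact (rfl : n * P 1 = n * P 1)
    · exact (mul_neg n (P 0)).symm
    · exact (rfl : n * P 2 = n * P 2)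
    · exact (rfl : n * P 4 = n * P 4)
    · exact (mul_neg n (P 1)).symm
    · exact (mul_zero n).symm
    · exact (mul_neg n (P 7)).symm
    · exact (mul_neg n (P 1)).symm
    · exact (mul_neg n (P 3)).symm
    · exact (rfl : n * P 0 = n * P 0)
    · exact (rfl : n * P 7 = n * P 7)
    · exact (mul_zero n).symm
  bd := bd_v
  pf := fun _ hq => pf_v hq
  ne := ne_v
  ex := ex_v

private theorem sk_r2 (P : Sp) : Skew (B_r2 P) := by
  intro i j
  fin_cases i <;> fin_cases j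
  · exact (neg_zero.symm : (0 : ℤ) = -0)
  · exact (rfl : -(P 11) = -(P 11))
  · exact (neg_neg (P 10)).symm
  · exact (rfl : -(P 2) = -(P 2))
  · exact (neg_neg (P 1)).symm
  · exact (neg_neg (P 11)).symm
  · exact (neg_zero.symm : (0 : ℤ) = -0)
  · exact (rfl : -(P 8) = -(P 8))
  · exact (rfl : -(P 4) = -(P 4))
  · exact (neg_neg (P 3)).symm
  · exact (rfl : -(P 10) = -(P 10))
  · exact (neg_neg (P 8)).symm
  · exact (neg_zero.symm : (0 : ℤ) = -0)
  · exact (neg_neg (P 1)).symm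
  · exact (rfl : -(P 0) = -(P 0))
  · exact (neg_neg (P 2)).symm
  · exact (neg_neg (P 4)).symm
  · exact (rfl : -(P 1) = -(P 1))
  · exact (neg_zero.symm : (0 : ℤ) = -0)
  · exact (neg_neg (P 6)).symm
  · exact (rfl : -(P 1) = -(P 1))
  · exact (rfl : -(P 3) = -(P 3))
  · exact (neg_neg (P 0)).symm
  · exact (rfl : -(P 6) = -(P 6))
  · exact (neg_zero.symm : (0 : ℤ) = -0)

private theorem pf_r2 {P : Sp} (hq : Qd P) : ∀ i j k l, P 7 ∣ Pf5 (B_r2 P) i j k l := by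
  refine pf_all (sk_r2 P) ?_ ?_ ?_ ?_ ?_
  · refine ⟨-(P 7), ?_⟩
    simp only [Pf5, B_r2, Matrix.cons_val]
    linear_combination (-1) * hq.h1
  · refine ⟨P 9, ?_⟩
    simp only [Pf5, B_r2, Matrix.cons_val]
    linear_combination (1) * hq.h2
  · refine ⟨-(P 10), ?_⟩
    simp only [Pf5, B_r2, Matrix.cons_val]
    linear_combination (-1) * hq.h5
  · refine ⟨-(P 4), ?_⟩
    simp only [Pf5, B_r2, Matrix.cons_val]
    linear_combination (1) * hq.h9
  · refine ⟨P 5, ?_⟩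
    simp only [Pf5, B_r2, Matrix.cons_val]
    linear_combination (-1) * hq.h10

private theorem bd_r2 (P : Sp) (i j : Fin 5) : B_r2 P i j = 0 ∨ ∃ c : Fin 12, |B_r2 P i j| = |P c| := by
  fin_cases i <;> fin_cases j
  · exact Or.inl rfl
  · exact Or.inr ⟨11, abs_neg _⟩
  · exact Or.inr ⟨10, rfl⟩
  · exact Or.inr ⟨2, abs_neg _⟩
  · exact Or.inr ⟨1, rfl⟩
  · exact Or.inr ⟨11, rfl⟩
  · exact Or.inl rfl
  · exact Or.inr ⟨8, abs_neg _⟩
  · exact Or.inr ⟨4, abs_neg _⟩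
  · exact Or.inr ⟨3, rfl⟩
  · exact Or.inr ⟨10, abs_neg _⟩
  · exact Or.inr ⟨8, rfl⟩
  · exact Or.inl rfl
  · exact Or.inr ⟨1, rfl⟩
  · exact Or.inr ⟨0, abs_neg _⟩
  · exact Or.inr ⟨2, rfl⟩
  · exact Or.inr ⟨4, rfl⟩
  · exact Or.inr ⟨1, abs_neg _⟩
  · exact Or.inl rfl
  · exact Or.inr ⟨6, rfl⟩
  · exact Or.inr ⟨1, abs_neg _⟩
  · exact Or.inr ⟨3, abs_neg _⟩
  · exact Or.inr ⟨0, rfl⟩
  · exact Or.inr ⟨6, abs_neg _⟩
  · exact Or.inl rfl

private theorem ne_r2 (P Q : Sp) (hP : Qd P) (_hQ : Qd Q) (hPQ : Qd (P + Q)) (ha : P 7 ≠ 0) (hb : Q 7 = 0)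
    (hB : ∀ i j, B_r2 Q i j = 0) : Q = 0 := by
  have q0 : Q 0 = 0 := hB 4 2
  have q1 : Q 1 = 0 := hB 0 4
  have q2 : Q 2 = 0 := hB 3 0
  have q3 : Q 3 = 0 := hB 1 4
  have q4 : Q 4 = 0 := hB 3 1
  have q6 : Q 6 = 0 := hB 3 4
  have q8 : Q 8 = 0 := hB 2 1
  have q10 : Q 10 = 0 := hB 0 2
  have q11 : Q 11 = 0 := hB 1 0
  have q5 : Q 5 = 0 := by
    have h := hPQ.h10
    have h' := hP.h10
    simp only [Pi.add_apply, q1, q2, q4, hb, q8, q10, q11, add_zero] at h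
    have e : P 7 * Q 5 = 0 := by linear_combination (h - h')
    exact (mul_eq_zero.mp e).resolve_left ha
  have q9 : Q 9 = 0 := by
    have h := hPQ.h2
    have h' := hP.h2
    simp only [Pi.add_apply, q0, q1, q2, q6, hb, q10, add_zero] at h
    have e : P 7 * Q 9 = 0 := by linear_combination -1 * (h - h')
    exact (mul_eq_zero.mp e).resolve_left ha
  funext i
  fin_cases i
  · exact q0
  · exact q1
  · exact q2
  · exact q3
  · exact q4
  · exact q5
  · exact q6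
  · exact hb
  · exact q8
  · exact q9
  · exact q10
  · exact q11

private theorem ex_r2 (P : Sp) (hq : Qd P) (ha : P 7 ≠ 0) (w z : Fin 5 → ℤ) (h : ∀ k, act (B_r2 P) w k = P 7 * z k) :
    ∃ x : Fin 10 → ℤ, InE P x ∧ FF x = 0 ∧ (∀ k, ∃ j, x j = w k) ∧
      ∀ j, (∃ k, |x j| = |w k|) ∨ ∃ k, |x j| = |z k| := by
  have h0 : P 1 * w 4 - P 2 * w 3 + P 10 * w 2 - P 11 * w 1 = P 7 * z 0 := by
    have := h 0
    simp only [act, B_r2, Fin.sum_univ_five, Matrix.cons_val] at this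
    linear_combination this
  have h1 : P 3 * w 4 - P 4 * w 3 - P 8 * w 2 + P 11 * w 0 = P 7 * z 1 := by
    have := h 1
    simp only [act, B_r2, Fin.sum_univ_five, Matrix.cons_val] at this
    linear_combination this
  have h2 : -(P 0 * w 4) + P 1 * w 3 + P 8 * w 1 - P 10 * w 0 = P 7 * z 2 := by
    have := h 2
    simp only [act, B_r2, Fin.sum_univ_five, Matrix.cons_val] at this
    linear_combination this
  have h3 : -(P 1 * w 2) + P 2 * w 0 + P 4 * w 1 + P 6 * w 4 = P 7 * z 3 := by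
    have := h 3
    simp only [act, B_r2, Fin.sum_univ_five, Matrix.cons_val] at this
    linear_combination this
  have h4 : P 0 * w 2 - P 1 * w 0 - P 3 * w 1 - P 6 * w 3 = P 7 * z 4 := by
    have := h 4
    simp only [act, B_r2, Fin.sum_univ_five, Matrix.cons_val] at this
    linear_combination this
  obtain ⟨e1, e2⟩ := e_r2 hq ha h0 h1 h2 h3 h4
  refine ⟨_, e1, e2, ?_, ?_⟩
  · intro k
    fin_cases k
    · exact ⟨0, rfl⟩
    · exact ⟨1, rfl⟩
    · exact ⟨4, rfl⟩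
    · exact ⟨8, rfl⟩
    · exact ⟨9, rfl⟩
  · intro j
    fin_cases j
    · exact Or.inl ⟨0, rfl⟩
    · exact Or.inl ⟨1, rfl⟩
    · exact Or.inr ⟨0, rfl⟩
    · exact Or.inr ⟨1, abs_neg _⟩
    · exact Or.inl ⟨2, rfl⟩
    · exact Or.inr ⟨2, abs_neg _⟩
    · exact Or.inr ⟨4, abs_neg _⟩
    · exact Or.inr ⟨3, rfl⟩
    · exact Or.inl ⟨3, rfl⟩
    · exact Or.inl ⟨4, rfl⟩

private theorem cht_r2 : Cht 7 B_r2 where
  skew := sk_r2
  add := by
    intro P Q i j
    fin_cases i <;> fin_cases j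
    · exact (add_zero (0 : ℤ)).symm
    · exact neg_add (P 11) (Q 11)
    · exact (rfl : P 10 + Q 10 = P 10 + Q 10)
    · exact neg_add (P 2) (Q 2)
    · exact (rfl : P 1 + Q 1 = P 1 + Q 1)
    · exact (rfl : P 11 + Q 11 = P 11 + Q 11)
    · exact (add_zero (0 : ℤ)).symm
    · exact neg_add (P 8) (Q 8)
    · exact neg_add (P 4) (Q 4)
    · exact (rfl : P 3 + Q 3 = P 3 + Q 3)
    · exact neg_add (P 10) (Q 10)
    · exact (rfl : P 8 + Q 8 = P 8 + Q 8)
    · exact (add_zero (0 : ℤ)).symm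
    · exact (rfl : P 1 + Q 1 = P 1 + Q 1)
    · exact neg_add (P 0) (Q 0)
    · exact (rfl : P 2 + Q 2 = P 2 + Q 2)
    · exact (rfl : P 4 + Q 4 = P 4 + Q 4)
    · exact neg_add (P 1) (Q 1)
    · exact (add_zero (0 : ℤ)).symm
    · exact (rfl : P 6 + Q 6 = P 6 + Q 6)
    · exact neg_add (P 1) (Q 1)
    · exact neg_add (P 3) (Q 3)
    · exact (rfl : P 0 + Q 0 = P 0 + Q 0)
    · exact neg_add (P 6) (Q 6)
    · exact (add_zero (0 : ℤ)).symm
  smul := by
    intro n P i j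
    fin_cases i <;> fin_cases j
    · exact (mul_zero n).symm
    · exact (mul_neg n (P 11)).symm
    · exact (rfl : n * P 10 = n * P 10)
    · exact (mul_neg n (P 2)).symm
    · exact (rfl : n * P 1 = n * P 1)
    · exact (rfl : n * P 11 = n * P 11)
    · exact (mul_zero n).symm
    · exact (mul_neg n (P 8)).symm
    · exact (mul_neg n (P 4)).symm
    · exact (rfl : n * P 3 = n * P 3)
    · exact (mul_neg n (P 10)).symm
    · exact (rfl : n * P 8 = n * P 8)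
    · exact (mul_zero n).symm
    · exact (rfl : n * P 1 = n * P 1)
    · exact (mul_neg n (P 0)).symm
    · exact (rfl : n * P 2 = n * P 2)
    · exact (rfl : n * P 4 = n * P 4)
    · exact (mul_neg n (P 1)).symm
    · exact (mul_zero n).symm
    · exact (rfl : n * P 6 = n * P 6)
    · exact (mul_neg n (P 1)).symm
    · exact (mul_neg n (P 3)).symm
    · exact (rfl : n * P 0 = n * P 0)
    · exact (mul_neg n (P 6)).symm
    · exact (mul_zero n).symm
  bd := bd_r2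
  pf := fun _ hq => pf_r2 hq
  ne := ne_r2
  ex := ex_r2

private theorem sk_r3 (P : Sp) : Skew (B_r3 P) := by
  intro i j
  fin_cases i <;> fin_cases j
  · exact (neg_zero.symm : (0 : ℤ) = -0)
  · exact (neg_neg (P 10)).symm
  · exact (neg_neg (P 11)).symm
  · exact (rfl : -(P 5) = -(P 5))
  · exact (neg_neg (P 4)).symm
  · exact (rfl : -(P 10) = -(P 10))
  · exact (neg_zero.symm : (0 : ℤ) = -0)
  · exact (neg_neg (P 7)).symm
  · exact (neg_neg (P 1)).symm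
  · exact (rfl : -(P 0) = -(P 0))
  · exact (rfl : -(P 11) = -(P 11))
  · exact (rfl : -(P 7) = -(P 7))
  · exact (neg_zero.symm : (0 : ℤ) = -0)
  · exact (neg_neg (P 4)).symm
  · exact (rfl : -(P 3) = -(P 3))
  · exact (neg_neg (P 5)).symm
  · exact (rfl : -(P 1) = -(P 1))
  · exact (rfl : -(P 4) = -(P 4))
  · exact (neg_zero.symm : (0 : ℤ) = -0)
  · exact (neg_neg (P 7)).symm
  · exact (rfl : -(P 4) = -(P 4))
  · exact (neg_neg (P 0)).symm
  · exact (neg_neg (P 3)).symm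
  · exact (rfl : -(P 7) = -(P 7))
  · exact (neg_zero.symm : (0 : ℤ) = -0)

private theorem pf_r3 {P : Sp} (hq : Qd P) : ∀ i j k l, P 8 ∣ Pf5 (B_r3 P) i j k l := by
  refine pf_all (sk_r3 P) ?_ ?_ ?_ ?_ ?_
  · refine ⟨P 6, ?_⟩
    simp only [Pf5, B_r3, Matrix.cons_val]
    linear_combination (-1) * hq.h1
  · refine ⟨P 10, ?_⟩
    simp only [Pf5, B_r3, Matrix.cons_val]
    linear_combination (1) * hq.h4
  · refine ⟨P 9, ?_⟩
    simp only [Pf5, B_r3, Matrix.cons_val]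
    linear_combination (-1) * hq.h6
  · refine ⟨P 1, ?_⟩
    simp only [Pf5, B_r3, Matrix.cons_val]
    linear_combination (1) * hq.h9
  · refine ⟨-(P 2), ?_⟩
    simp only [Pf5, B_r3, Matrix.cons_val]
    linear_combination (-1) * hq.h10

private theorem bd_r3 (P : Sp) (i j : Fin 5) : B_r3 P i j = 0 ∨ ∃ c : Fin 12, |B_r3 P i j| = |P c| := by
  fin_cases i <;> fin_cases j
  · exact Or.inl rfl
  · exact Or.inr ⟨10, rfl⟩
  · exact Or.inr ⟨11, rfl⟩
  · exact Or.inr ⟨5, abs_neg _⟩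
  · exact Or.inr ⟨4, rfl⟩
  · exact Or.inr ⟨10, abs_neg _⟩
  · exact Or.inl rfl
  · exact Or.inr ⟨7, rfl⟩
  · exact Or.inr ⟨1, rfl⟩
  · exact Or.inr ⟨0, abs_neg _⟩
  · exact Or.inr ⟨11, abs_neg _⟩
  · exact Or.inr ⟨7, abs_neg _⟩
  · exact Or.inl rfl
  · exact Or.inr ⟨4, rfl⟩
  · exact Or.inr ⟨3, abs_neg _⟩
  · exact Or.inr ⟨5, rfl⟩
  · exact Or.inr ⟨1, abs_neg _⟩
  · exact Or.inr ⟨4, abs_neg _⟩
  · exact Or.inl rfl
  · exact Or.inr ⟨7, rfl⟩
  · exact Or.inr ⟨4, abs_neg _⟩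
  · exact Or.inr ⟨0, rfl⟩
  · exact Or.inr ⟨3, rfl⟩
  · exact Or.inr ⟨7, abs_neg _⟩
  · exact Or.inl rfl

private theorem ne_r3 (P Q : Sp) (hP : Qd P) (_hQ : Qd Q) (hPQ : Qd (P + Q)) (ha : P 8 ≠ 0) (hb : Q 8 = 0)
    (hB : ∀ i j, B_r3 Q i j = 0) : Q = 0 := by
  have q0 : Q 0 = 0 := hB 4 1
  have q1 : Q 1 = 0 := hB 1 3
  have q3 : Q 3 = 0 := hB 4 2
  have q4 : Q 4 = 0 := hB 0 4
  have q5 : Q 5 = 0 := hB 3 0
  have q7 : Q 7 = 0 := hB 1 2
  have q10 : Q 10 = 0 := hB 0 1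
  have q11 : Q 11 = 0 := hB 0 2
  have q2 : Q 2 = 0 := by
    have h := hPQ.h10
    have h' := hP.h10
    simp only [Pi.add_apply, q1, q4, q5, q7, hb, q10, q11, add_zero] at h
    have e : P 8 * Q 2 = 0 := by linear_combination -1 * (h - h')
    exact (mul_eq_zero.mp e).resolve_left ha
  have q6 : Q 6 = 0 := by
    have h := hPQ.h1
    have h' := hP.h1
    simp only [Pi.add_apply, q0, q1, q3, q4, q7, hb, add_zero] at h
    have e : P 8 * Q 6 = 0 := by linear_combination (h - h')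
    exact (mul_eq_zero.mp e).resolve_left ha
  have q9 : Q 9 = 0 := by
    have h := hPQ.h6
    have h' := hP.h6
    simp only [Pi.add_apply, q0, q1, q4, q5, q7, hb, q10, add_zero] at h
    have e : P 8 * Q 9 = 0 := by linear_combination (h - h')
    exact (mul_eq_zero.mp e).resolve_left ha
  funext i
  fin_cases i
  · exact q0
  · exact q1
  · exact q2
  · exact q3
  · exact q4
  · exact q5
  · exact q6
  · exact q7
  · exact hb
  · exact q9
  · exact q10
  · exact q11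

private theorem ex_r3 (P : Sp) (hq : Qd P) (ha : P 8 ≠ 0) (w z : Fin 5 → ℤ) (h : ∀ k, act (B_r3 P) w k = P 8 * z k) :
    ∃ x : Fin 10 → ℤ, InE P x ∧ FF x = 0 ∧ (∀ k, ∃ j, x j = w k) ∧
      ∀ j, (∃ k, |x j| = |w k|) ∨ ∃ k, |x j| = |z k| := by
  have h0 : P 4 * w 4 - P 5 * w 3 + P 10 * w 1 + P 11 * w 2 = P 8 * z 0 := by
    have := h 0
    simp only [act, B_r3, Fin.sum_univ_five, Matrix.cons_val] at this
    linear_combination this
  have h1 : -(P 0 * w 4) + P 1 * w 3 + P 7 * w 2 - P 10 * w 0 = P 8 * z 1 := by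
    have := h 1
    simp only [act, B_r3, Fin.sum_univ_five, Matrix.cons_val] at this
    linear_combination this
  have h2 : -(P 3 * w 4) + P 4 * w 3 - P 7 * w 1 - P 11 * w 0 = P 8 * z 2 := by
    have := h 2
    simp only [act, B_r3, Fin.sum_univ_five, Matrix.cons_val] at this
    linear_combination this
  have h3 : -(P 1 * w 1) - P 4 * w 2 + P 5 * w 0 + P 7 * w 4 = P 8 * z 3 := by
    have := h 3
    simp only [act, B_r3, Fin.sum_univ_five, Matrix.cons_val] at this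
    linear_combination this
  have h4 : P 0 * w 1 + P 3 * w 2 - P 4 * w 0 - P 7 * w 3 = P 8 * z 4 := by
    have := h 4
    simp only [act, B_r3, Fin.sum_univ_five, Matrix.cons_val] at this
    linear_combination this
  obtain ⟨e1, e2⟩ := e_r3 hq ha h0 h1 h2 h3 h4
  refine ⟨_, e1, e2, ?_, ?_⟩
  · intro k
    fin_cases k
    · exact ⟨0, rfl⟩
    · exact ⟨3, rfl⟩
    · exact ⟨5, rfl⟩
    · exact ⟨8, rfl⟩
    · exact ⟨9, rfl⟩
  · intro j
    fin_cases j
    · exact Or.inl ⟨0, rfl⟩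
    · exact Or.inr ⟨1, abs_neg _⟩
    · exact Or.inr ⟨0, rfl⟩
    · exact Or.inl ⟨1, rfl⟩
    · exact Or.inr ⟨2, abs_neg _⟩
    · exact Or.inl ⟨2, rfl⟩
    · exact Or.inr ⟨4, abs_neg _⟩
    · exact Or.inr ⟨3, rfl⟩
    · exact Or.inl ⟨3, rfl⟩
    · exact Or.inl ⟨4, rfl⟩

private theorem cht_r3 : Cht 8 B_r3 where
  skew := sk_r3
  add := by
    intro P Q i j
    fin_cases i <;> fin_cases j
    · exact (add_zero (0 : ℤ)).symm
    · exact (rfl : P 10 + Q 10 = P 10 + Q 10)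
    · exact (rfl : P 11 + Q 11 = P 11 + Q 11)
    · exact neg_add (P 5) (Q 5)
    · exact (rfl : P 4 + Q 4 = P 4 + Q 4)
    · exact neg_add (P 10) (Q 10)
    · exact (add_zero (0 : ℤ)).symm
    · exact (rfl : P 7 + Q 7 = P 7 + Q 7)
    · exact (rfl : P 1 + Q 1 = P 1 + Q 1)
    · exact neg_add (P 0) (Q 0)
    · exact neg_add (P 11) (Q 11)
    · exact neg_add (P 7) (Q 7)
    · exact (add_zero (0 : ℤ)).symm
    · exact (rfl : P 4 + Q 4 = P 4 + Q 4)
    · exact neg_add (P 3) (Q 3)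
    · exact (rfl : P 5 + Q 5 = P 5 + Q 5)
    · exact neg_add (P 1) (Q 1)
    · exact neg_add (P 4) (Q 4)
    · exact (add_zero (0 : ℤ)).symm
    · exact (rfl : P 7 + Q 7 = P 7 + Q 7)
    · exact neg_add (P 4) (Q 4)
    · exact (rfl : P 0 + Q 0 = P 0 + Q 0)
    · exact (rfl : P 3 + Q 3 = P 3 + Q 3)
    · exact neg_add (P 7) (Q 7)
    · exact (add_zero (0 : ℤ)).symm
  smul := by
    intro n P i j
    fin_cases i <;> fin_cases j
    · exact (mul_zero n).symm
    · exact (rfl : n * P 10 = n * P 10)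
    · exact (rfl : n * P 11 = n * P 11)
    · exact (mul_neg n (P 5)).symm
    · exact (rfl : n * P 4 = n * P 4)
    · exact (mul_neg n (P 10)).symm
    · exact (mul_zero n).symm
    · exact (rfl : n * P 7 = n * P 7)
    · exact (rfl : n * P 1 = n * P 1)
    · exact (mul_neg n (P 0)).symm
    · exact (mul_neg n (P 11)).symm
    · exact (mul_neg n (P 7)).symm
    · exact (mul_zero n).symm
    · exact (rfl : n * P 4 = n * P 4)
    · exact (mul_neg n (P 3)).symm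
    · exact (rfl : n * P 5 = n * P 5)
    · exact (mul_neg n (P 1)).symm
    · exact (mul_neg n (P 4)).symm
    · exact (mul_zero n).symm
    · exact (rfl : n * P 7 = n * P 7)
    · exact (mul_neg n (P 4)).symm
    · exact (rfl : n * P 0 = n * P 0)
    · exact (rfl : n * P 3 = n * P 3)
    · exact (mul_neg n (P 7)).symm
    · exact (mul_zero n).symm
  bd := bd_r3
  pf := fun _ hq => pf_r3 hq
  ne := ne_r3
  ex := ex_r3

private theorem sk_s1 (P : Sp) : Skew (B_s1 P) := by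
  intro i j
  fin_cases i <;> fin_cases j
  · exact (neg_zero.symm : (0 : ℤ) = -0)
  · exact (rfl : -(P 7) = -(P 7))
  · exact (neg_neg (P 10)).symm
  · exact (rfl : -(P 5) = -(P 5))
  · exact (neg_neg (P 4)).symm
  · exact (neg_neg (P 7)).symm
  · exact (neg_zero.symm : (0 : ℤ) = -0)
  · exact (neg_neg (P 6)).symm
  · exact (neg_neg (P 1)).symm
  · exact (rfl : -(P 0) = -(P 0))
  · exact (rfl : -(P 10) = -(P 10))
  · exact (rfl : -(P 6) = -(P 6))
  · exact (neg_zero.symm : (0 : ℤ) = -0)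
  · exact (rfl : -(P 2) = -(P 2))
  · exact (neg_neg (P 1)).symm
  · exact (neg_neg (P 5)).symm
  · exact (rfl : -(P 1) = -(P 1))
  · exact (neg_neg (P 2)).symm
  · exact (neg_zero.symm : (0 : ℤ) = -0)
  · exact (rfl : -(P 10) = -(P 10))
  · exact (rfl : -(P 4) = -(P 4))
  · exact (neg_neg (P 0)).symm
  · exact (rfl : -(P 1) = -(P 1))
  · exact (neg_neg (P 10)).symm
  · exact (neg_zero.symm : (0 : ℤ) = -0)

private theorem pf_s1 {P : Sp} (hq : Qd P) : ∀ i j k l, P 9 ∣ Pf5 (B_s1 P) i j k l := by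
  refine pf_all (sk_s1 P) ?_ ?_ ?_ ?_ ?_
  · refine ⟨-(P 7), ?_⟩
    simp only [Pf5, B_s1, Matrix.cons_val]
    linear_combination (-1) * hq.h2
  · refine ⟨-(P 11), ?_⟩
    simp only [Pf5, B_s1, Matrix.cons_val]
    linear_combination (1) * hq.h3
  · refine ⟨P 8, ?_⟩
    simp only [Pf5, B_s1, Matrix.cons_val]
    linear_combination (-1) * hq.h6
  · refine ⟨P 3, ?_⟩
    simp only [Pf5, B_s1, Matrix.cons_val]
    linear_combination (1) * hq.h7
  · refine ⟨-(P 4), ?_⟩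
    simp only [Pf5, B_s1, Matrix.cons_val]
    linear_combination (-1) * hq.h8

private theorem bd_s1 (P : Sp) (i j : Fin 5) : B_s1 P i j = 0 ∨ ∃ c : Fin 12, |B_s1 P i j| = |P c| := by
  fin_cases i <;> fin_cases j
  · exact Or.inl rfl
  · exact Or.inr ⟨7, abs_neg _⟩
  · exact Or.inr ⟨10, rfl⟩
  · exact Or.inr ⟨5, abs_neg _⟩
  · exact Or.inr ⟨4, rfl⟩
  · exact Or.inr ⟨7, rfl⟩
  · exact Or.inl rfl
  · exact Or.inr ⟨6, rfl⟩
  · exact Or.inr ⟨1, rfl⟩
  · exact Or.inr ⟨0, abs_neg _⟩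
  · exact Or.inr ⟨10, abs_neg _⟩
  · exact Or.inr ⟨6, abs_neg _⟩
  · exact Or.inl rfl
  · exact Or.inr ⟨2, abs_neg _⟩
  · exact Or.inr ⟨1, rfl⟩
  · exact Or.inr ⟨5, rfl⟩
  · exact Or.inr ⟨1, abs_neg _⟩
  · exact Or.inr ⟨2, rfl⟩
  · exact Or.inl rfl
  · exact Or.inr ⟨10, abs_neg _⟩
  · exact Or.inr ⟨4, abs_neg _⟩
  · exact Or.inr ⟨0, rfl⟩
  · exact Or.inr ⟨1, abs_neg _⟩
  · exact Or.inr ⟨10, rfl⟩
  · exact Or.inl rfl

private theorem ne_s1 (P Q : Sp) (hP : Qd P) (_hQ : Qd Q) (hPQ : Qd (P + Q)) (ha : P 9 ≠ 0) (hb : Q 9 = 0)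
    (hB : ∀ i j, B_s1 Q i j = 0) : Q = 0 := by
  have q0 : Q 0 = 0 := hB 4 1
  have q1 : Q 1 = 0 := hB 1 3
  have q2 : Q 2 = 0 := hB 3 2
  have q4 : Q 4 = 0 := hB 0 4
  have q5 : Q 5 = 0 := hB 3 0
  have q6 : Q 6 = 0 := hB 1 2
  have q7 : Q 7 = 0 := hB 1 0
  have q10 : Q 10 = 0 := hB 0 2
  have q3 : Q 3 = 0 := by
    have h := hPQ.h7
    have h' := hP.h7
    simp only [Pi.add_apply, q0, q1, q4, q6, q7, hb, q10, add_zero] at h
    have e : P 9 * Q 3 = 0 := by linear_combination -1 * (h - h')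
    exact (mul_eq_zero.mp e).resolve_left ha
  have q8 : Q 8 = 0 := by
    have h := hPQ.h6
    have h' := hP.h6
    simp only [Pi.add_apply, q0, q1, q4, q5, q7, hb, q10, add_zero] at h
    have e : P 9 * Q 8 = 0 := by linear_combination (h - h')
    exact (mul_eq_zero.mp e).resolve_left ha
  have q11 : Q 11 = 0 := by
    have h := hPQ.h3
    have h' := hP.h3
    simp only [Pi.add_apply, q1, q2, q4, q5, hb, q10, add_zero] at h
    have e : P 9 * Q 11 = 0 := by linear_combination (h - h')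
    exact (mul_eq_zero.mp e).resolve_left ha
  funext i
  fin_cases i
  · exact q0
  · exact q1
  · exact q2
  · exact q3
  · exact q4
  · exact q5
  · exact q6
  · exact q7
  · exact q8
  · exact hb
  · exact q10
  · exact q11

private theorem ex_s1 (P : Sp) (hq : Qd P) (ha : P 9 ≠ 0) (w z : Fin 5 → ℤ) (h : ∀ k, act (B_s1 P) w k = P 9 * z k) :
    ∃ x : Fin 10 → ℤ, InE P x ∧ FF x = 0 ∧ (∀ k, ∃ j, x j = w k) ∧
      ∀ j, (∃ k, |x j| = |w k|) ∨ ∃ k, |x j| = |z k| := by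
  have h0 : P 4 * w 4 - P 5 * w 3 - P 7 * w 1 + P 10 * w 2 = P 9 * z 0 := by
    have := h 0
    simp only [act, B_s1, Fin.sum_univ_five, Matrix.cons_val] at this
    linear_combination this
  have h1 : -(P 0 * w 4) + P 1 * w 3 + P 7 * w 0 + P 6 * w 2 = P 9 * z 1 := by
    have := h 1
    simp only [act, B_s1, Fin.sum_univ_five, Matrix.cons_val] at this
    linear_combination this
  have h2 : P 1 * w 4 - P 2 * w 3 - P 10 * w 0 - P 6 * w 1 = P 9 * z 2 := by
    have := h 2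
    simp only [act, B_s1, Fin.sum_univ_five, Matrix.cons_val] at this
    linear_combination this
  have h3 : -(P 1 * w 1) + P 2 * w 2 + P 5 * w 0 - P 10 * w 4 = P 9 * z 3 := by
    have := h 3
    simp only [act, B_s1, Fin.sum_univ_five, Matrix.cons_val] at this
    linear_combination this
  have h4 : P 0 * w 1 - P 1 * w 2 - P 4 * w 0 + P 10 * w 3 = P 9 * z 4 := by
    have := h 4
    simp only [act, B_s1, Fin.sum_univ_five, Matrix.cons_val] at this
    linear_combination this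
  obtain ⟨e1, e2⟩ := e_s1 hq ha h0 h1 h2 h3 h4
  refine ⟨_, e1, e2, ?_, ?_⟩
  · intro k
    fin_cases k
    · exact ⟨1, rfl⟩
    · exact ⟨2, rfl⟩
    · exact ⟨5, rfl⟩
    · exact ⟨6, rfl⟩
    · exact ⟨7, rfl⟩
  · intro j
    fin_cases j
    · exact Or.inr ⟨1, rfl⟩
    · exact Or.inl ⟨0, rfl⟩
    · exact Or.inl ⟨1, rfl⟩
    · exact Or.inr ⟨0, abs_neg _⟩
    · exact Or.inr ⟨2, abs_neg _⟩
    · exact Or.inl ⟨2, rfl⟩
    · exact Or.inl ⟨3, rfl⟩
    · exact Or.inl ⟨4, rfl⟩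
    · exact Or.inr ⟨4, rfl⟩
    · exact Or.inr ⟨3, abs_neg _⟩

private theorem cht_s1 : Cht 9 B_s1 where
  skew := sk_s1
  add := by
    intro P Q i j
    fin_cases i <;> fin_cases j
    · exact (add_zero (0 : ℤ)).symm
    · exact neg_add (P 7) (Q 7)
    · exact (rfl : P 10 + Q 10 = P 10 + Q 10)
    · exact neg_add (P 5) (Q 5)
    · exact (rfl : P 4 + Q 4 = P 4 + Q 4)
    · exact (rfl : P 7 + Q 7 = P 7 + Q 7)
    · exact (add_zero (0 : ℤ)).symm
    · exact (rfl : P 6 + Q 6 = P 6 + Q 6)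
    · exact (rfl : P 1 + Q 1 = P 1 + Q 1)
    · exact neg_add (P 0) (Q 0)
    · exact neg_add (P 10) (Q 10)
    · exact neg_add (P 6) (Q 6)
    · exact (add_zero (0 : ℤ)).symm
    · exact neg_add (P 2) (Q 2)
    · exact (rfl : P 1 + Q 1 = P 1 + Q 1)
    · exact (rfl : P 5 + Q 5 = P 5 + Q 5)
    · exact neg_add (P 1) (Q 1)
    · exact (rfl : P 2 + Q 2 = P 2 + Q 2)
    · exact (add_zero (0 : ℤ)).symm
    · exact neg_add (P 10) (Q 10)
    · exact neg_add (P 4) (Q 4)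
    · exact (rfl : P 0 + Q 0 = P 0 + Q 0)
    · exact neg_add (P 1) (Q 1)
    · exact (rfl : P 10 + Q 10 = P 10 + Q 10)
    · exact (add_zero (0 : ℤ)).symm
  smul := by
    intro n P i j
    fin_cases i <;> fin_cases j
    · exact (mul_zero n).symm
    · exact (mul_neg n (P 7)).symm
    · exact (rfl : n * P 10 = n * P 10)
    · exact (mul_neg n (P 5)).symm
    · exact (rfl : n * P 4 = n * P 4)
    · exact (rfl : n * P 7 = n * P 7)
    · exact (mul_zero n).symm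
    · exact (rfl : n * P 6 = n * P 6)
    · exact (rfl : n * P 1 = n * P 1)
    · exact (mul_neg n (P 0)).symm
    · exact (mul_neg n (P 10)).symm
    · exact (mul_neg n (P 6)).symm
    · exact (mul_zero n).symm
    · exact (mul_neg n (P 2)).symm
    · exact (rfl : n * P 1 = n * P 1)
    · exact (rfl : n * P 5 = n * P 5)
    · exact (mul_neg n (P 1)).symm
    · exact (rfl : n * P 2 = n * P 2)
    · exact (mul_zero n).symm
    · exact (mul_neg n (P 10)).symm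
    · exact (mul_neg n (P 4)).symm
    · exact (rfl : n * P 0 = n * P 0)
    · exact (mul_neg n (P 1)).symm
    · exact (rfl : n * P 10 = n * P 10)
    · exact (mul_zero n).symm
  bd := bd_s1
  pf := fun _ hq => pf_s1 hq
  ne := ne_s1
  ex := ex_s1

private theorem sk_s2 (P : Sp) : Skew (B_s2 P) := by
  intro i j
  fin_cases i <;> fin_cases j
  · exact (neg_zero.symm : (0 : ℤ) = -0)
  · exact (rfl : -(P 6) = -(P 6))
  · exact (neg_neg (P 7)).symm
  · exact (neg_neg (P 4)).symm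
  · exact (rfl : -(P 3) = -(P 3))
  · exact (neg_neg (P 6)).symm
  · exact (neg_zero.symm : (0 : ℤ) = -0)
  · exact (rfl : -(P 9) = -(P 9))
  · exact (neg_neg (P 2)).symm
  · exact (rfl : -(P 1) = -(P 1))
  · exact (rfl : -(P 7) = -(P 7))
  · exact (neg_neg (P 9)).symm
  · exact (neg_zero.symm : (0 : ℤ) = -0)
  · exact (rfl : -(P 5) = -(P 5))
  · exact (neg_neg (P 4)).symm
  · exact (rfl : -(P 4) = -(P 4))
  · exact (rfl : -(P 2) = -(P 2))
  · exact (neg_neg (P 5)).symm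
  · exact (neg_zero.symm : (0 : ℤ) = -0)
  · exact (rfl : -(P 11) = -(P 11))
  · exact (neg_neg (P 3)).symm
  · exact (neg_neg (P 1)).symm
  · exact (rfl : -(P 4) = -(P 4))
  · exact (neg_neg (P 11)).symm
  · exact (neg_zero.symm : (0 : ℤ) = -0)

private theorem pf_s2 {P : Sp} (hq : Qd P) : ∀ i j k l, P 10 ∣ Pf5 (B_s2 P) i j k l := by
  refine pf_all (sk_s2 P) ?_ ?_ ?_ ?_ ?_
  · refine ⟨P 10, ?_⟩
    simp only [Pf5, B_s2, Matrix.cons_val]
    linear_combination (1) * hq.h3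
  · refine ⟨-(P 8), ?_⟩
    simp only [Pf5, B_s2, Matrix.cons_val]
    linear_combination (-1) * hq.h4
  · refine ⟨P 7, ?_⟩
    simp only [Pf5, B_s2, Matrix.cons_val]
    linear_combination (1) * hq.h5
  · refine ⟨P 0, ?_⟩
    simp only [Pf5, B_s2, Matrix.cons_val]
    linear_combination (-1) * hq.h7
  · refine ⟨-(P 1), ?_⟩
    simp only [Pf5, B_s2, Matrix.cons_val]
    linear_combination (1) * hq.h8

private theorem bd_s2 (P : Sp) (i j : Fin 5) : B_s2 P i j = 0 ∨ ∃ c : Fin 12, |B_s2 P i j| = |P c| := by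
  fin_cases i <;> fin_cases j
  · exact Or.inl rfl
  · exact Or.inr ⟨6, abs_neg _⟩
  · exact Or.inr ⟨7, rfl⟩
  · exact Or.inr ⟨4, rfl⟩
  · exact Or.inr ⟨3, abs_neg _⟩
  · exact Or.inr ⟨6, rfl⟩
  · exact Or.inl rfl
  · exact Or.inr ⟨9, abs_neg _⟩
  · exact Or.inr ⟨2, rfl⟩
  · exact Or.inr ⟨1, abs_neg _⟩
  · exact Or.inr ⟨7, abs_neg _⟩
  · exact Or.inr ⟨9, rfl⟩
  · exact Or.inl rfl
  · exact Or.inr ⟨5, abs_neg _⟩
  · exact Or.inr ⟨4, rfl⟩
  · exact Or.inr ⟨4, abs_neg _⟩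
  · exact Or.inr ⟨2, abs_neg _⟩
  · exact Or.inr ⟨5, rfl⟩
  · exact Or.inl rfl
  · exact Or.inr ⟨11, abs_neg _⟩
  · exact Or.inr ⟨3, rfl⟩
  · exact Or.inr ⟨1, rfl⟩
  · exact Or.inr ⟨4, abs_neg _⟩
  · exact Or.inr ⟨11, rfl⟩
  · exact Or.inl rfl

private theorem ne_s2 (P Q : Sp) (hP : Qd P) (_hQ : Qd Q) (hPQ : Qd (P + Q)) (ha : P 10 ≠ 0) (hb : Q 10 = 0)
    (hB : ∀ i j, B_s2 Q i j = 0) : Q = 0 := by
  have q1 : Q 1 = 0 := hB 4 1
  have q2 : Q 2 = 0 := hB 1 3
  have q3 : Q 3 = 0 := hB 4 0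
  have q4 : Q 4 = 0 := hB 0 3
  have q5 : Q 5 = 0 := hB 3 2
  have q6 : Q 6 = 0 := hB 1 0
  have q7 : Q 7 = 0 := hB 0 2
  have q9 : Q 9 = 0 := hB 2 1
  have q11 : Q 11 = 0 := hB 4 3
  have q0 : Q 0 = 0 := by
    have h := hPQ.h7
    have h' := hP.h7
    simp only [Pi.add_apply, q1, q3, q4, q6, q7, q9, hb, add_zero] at h
    have e : P 10 * Q 0 = 0 := by linear_combination (h - h')
    exact (mul_eq_zero.mp e).resolve_left ha
  have q8 : Q 8 = 0 := by
    have h := hPQ.h4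
    have h' := hP.h4
    simp only [Pi.add_apply, q3, q4, q5, q7, hb, q11, add_zero] at h
    have e : P 10 * Q 8 = 0 := by linear_combination -1 * (h - h')
    exact (mul_eq_zero.mp e).resolve_left ha
  funext i
  fin_cases i
  · exact q0
  · exact q1
  · exact q2
  · exact q3
  · exact q4
  · exact q5
  · exact q6
  · exact q7
  · exact q8
  · exact q9
  · exact hb
  · exact q11

private theorem ex_s2 (P : Sp) (hq : Qd P) (ha : P 10 ≠ 0) (w z : Fin 5 → ℤ) (h : ∀ k, act (B_s2 P) w k = P 10 * z k) :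
    ∃ x : Fin 10 → ℤ, InE P x ∧ FF x = 0 ∧ (∀ k, ∃ j, x j = w k) ∧
      ∀ j, (∃ k, |x j| = |w k|) ∨ ∃ k, |x j| = |z k| := by
  have h0 : -(P 3 * w 4) + P 4 * w 3 + P 7 * w 2 - P 6 * w 1 = P 10 * z 0 := by
    have := h 0
    simp only [act, B_s2, Fin.sum_univ_five, Matrix.cons_val] at this
    linear_combination this
  have h1 : -(P 1 * w 4) + P 2 * w 3 - P 9 * w 2 + P 6 * w 0 = P 10 * z 1 := by
    have := h 1
    simp only [act, B_s2, Fin.sum_univ_five, Matrix.cons_val] at this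
    linear_combination this
  have h2 : P 4 * w 4 - P 5 * w 3 - P 7 * w 0 + P 9 * w 1 = P 10 * z 2 := by
    have := h 2
    simp only [act, B_s2, Fin.sum_univ_five, Matrix.cons_val] at this
    linear_combination this
  have h3 : -(P 2 * w 1) - P 4 * w 0 + P 5 * w 2 - P 11 * w 4 = P 10 * z 3 := by
    have := h 3
    simp only [act, B_s2, Fin.sum_univ_five, Matrix.cons_val] at this
    linear_combination this
  have h4 : P 1 * w 1 + P 3 * w 0 - P 4 * w 2 + P 11 * w 3 = P 10 * z 4 := by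
    have := h 4
    simp only [act, B_s2, Fin.sum_univ_five, Matrix.cons_val] at this
    linear_combination this
  obtain ⟨e1, e2⟩ := e_s2 hq ha h0 h1 h2 h3 h4
  refine ⟨_, e1, e2, ?_, ?_⟩
  · intro k
    fin_cases k
    · exact ⟨2, rfl⟩
    · exact ⟨3, rfl⟩
    · exact ⟨4, rfl⟩
    · exact ⟨6, rfl⟩
    · exact ⟨7, rfl⟩
  · intro j
    fin_cases j
    · exact Or.inr ⟨0, rfl⟩
    · exact Or.inr ⟨1, abs_neg _⟩
    · exact Or.inl ⟨0, rfl⟩
    · exact Or.inl ⟨1, rfl⟩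
    · exact Or.inl ⟨2, rfl⟩
    · exact Or.inr ⟨2, abs_neg _⟩
    · exact Or.inl ⟨3, rfl⟩
    · exact Or.inl ⟨4, rfl⟩
    · exact Or.inr ⟨4, rfl⟩
    · exact Or.inr ⟨3, abs_neg _⟩

private theorem cht_s2 : Cht 10 B_s2 where
  skew := sk_s2
  add := by
    intro P Q i j
    fin_cases i <;> fin_cases j
    · exact (add_zero (0 : ℤ)).symm
    · exact neg_add (P 6) (Q 6)
    · exact (rfl : P 7 + Q 7 = P 7 + Q 7)
    · exact (rfl : P 4 + Q 4 = P 4 + Q 4)
    · exact neg_add (P 3) (Q 3)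
    · exact (rfl : P 6 + Q 6 = P 6 + Q 6)
    · exact (add_zero (0 : ℤ)).symm
    · exact neg_add (P 9) (Q 9)
    · exact (rfl : P 2 + Q 2 = P 2 + Q 2)
    · exact neg_add (P 1) (Q 1)
    · exact neg_add (P 7) (Q 7)
    · exact (rfl : P 9 + Q 9 = P 9 + Q 9)
    · exact (add_zero (0 : ℤ)).symm
    · exact neg_add (P 5) (Q 5)
    · exact (rfl : P 4 + Q 4 = P 4 + Q 4)
    · exact neg_add (P 4) (Q 4)
    · exact neg_add (P 2) (Q 2)
    · exact (rfl : P 5 + Q 5 = P 5 + Q 5)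
    · exact (add_zero (0 : ℤ)).symm
    · exact neg_add (P 11) (Q 11)
    · exact (rfl : P 3 + Q 3 = P 3 + Q 3)
    · exact (rfl : P 1 + Q 1 = P 1 + Q 1)
    · exact neg_add (P 4) (Q 4)
    · exact (rfl : P 11 + Q 11 = P 11 + Q 11)
    · exact (add_zero (0 : ℤ)).symm
  smul := by
    intro n P i j
    fin_cases i <;> fin_cases j
    · exact (mul_zero n).symm
    · exact (mul_neg n (P 6)).symm
    · exact (rfl : n * P 7 = n * P 7)
    · exact (rfl : n * P 4 = n * P 4)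
    · exact (mul_neg n (P 3)).symm
    · exact (rfl : n * P 6 = n * P 6)
    · exact (mul_zero n).symm
    · exact (mul_neg n (P 9)).symm
    · exact (rfl : n * P 2 = n * P 2)
    · exact (mul_neg n (P 1)).symm
    · exact (mul_neg n (P 7)).symm
    · exact (rfl : n * P 9 = n * P 9)
    · exact (mul_zero n).symm
    · exact (mul_neg n (P 5)).symm
    · exact (rfl : n * P 4 = n * P 4)
    · exact (mul_neg n (P 4)).symm
    · exact (mul_neg n (P 2)).symm
    · exact (rfl : n * P 5 = n * P 5)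
    · exact (mul_zero n).symm
    · exact (mul_neg n (P 11)).symm
    · exact (rfl : n * P 3 = n * P 3)
    · exact (rfl : n * P 1 = n * P 1)
    · exact (mul_neg n (P 4)).symm
    · exact (rfl : n * P 11 = n * P 11)
    · exact (mul_zero n).symm
  bd := bd_s2
  pf := fun _ hq => pf_s2 hq
  ne := ne_s2
  ex := ex_s2

private theorem sk_s3 (P : Sp) : Skew (B_s3 P) := by
  intro i j
  fin_cases i <;> fin_cases j
  · exact (neg_zero.symm : (0 : ℤ) = -0)
  · exact (rfl : -(P 7) = -(P 7))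
  · exact (neg_neg (P 8)).symm
  · exact (neg_neg (P 4)).symm
  · exact (rfl : -(P 3) = -(P 3))
  · exact (neg_neg (P 7)).symm
  · exact (neg_zero.symm : (0 : ℤ) = -0)
  · exact (rfl : -(P 10) = -(P 10))
  · exact (neg_neg (P 2)).symm
  · exact (rfl : -(P 1) = -(P 1))
  · exact (rfl : -(P 8) = -(P 8))
  · exact (neg_neg (P 10)).symm
  · exact (neg_zero.symm : (0 : ℤ) = -0)
  · exact (rfl : -(P 5) = -(P 5))
  · exact (neg_neg (P 4)).symm
  · exact (rfl : -(P 4) = -(P 4))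
  · exact (rfl : -(P 2) = -(P 2))
  · exact (neg_neg (P 5)).symm
  · exact (neg_zero.symm : (0 : ℤ) = -0)
  · exact (neg_neg (P 10)).symm
  · exact (neg_neg (P 3)).symm
  · exact (neg_neg (P 1)).symm
  · exact (rfl : -(P 4) = -(P 4))
  · exact (rfl : -(P 10) = -(P 10))
  · exact (neg_zero.symm : (0 : ℤ) = -0)

private theorem pf_s3 {P : Sp} (hq : Qd P) : ∀ i j k l, P 11 ∣ Pf5 (B_s3 P) i j k l := by
  refine pf_all (sk_s3 P) ?_ ?_ ?_ ?_ ?_
  · refine ⟨-(P 9), ?_⟩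
    simp only [Pf5, B_s3, Matrix.cons_val]
    linear_combination (1) * hq.h3
  · refine ⟨P 7, ?_⟩
    simp only [Pf5, B_s3, Matrix.cons_val]
    linear_combination (-1) * hq.h4
  · refine ⟨-(P 6), ?_⟩
    simp only [Pf5, B_s3, Matrix.cons_val]
    linear_combination (1) * hq.h5
  · refine ⟨P 0, ?_⟩
    simp only [Pf5, B_s3, Matrix.cons_val]
    linear_combination (-1) * hq.h9
  · refine ⟨-(P 1), ?_⟩
    simp only [Pf5, B_s3, Matrix.cons_val]
    linear_combination (1) * hq.h10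

private theorem bd_s3 (P : Sp) (i j : Fin 5) : B_s3 P i j = 0 ∨ ∃ c : Fin 12, |B_s3 P i j| = |P c| := by
  fin_cases i <;> fin_cases j
  · exact Or.inl rfl
  · exact Or.inr ⟨7, abs_neg _⟩
  · exact Or.inr ⟨8, rfl⟩
  · exact Or.inr ⟨4, rfl⟩
  · exact Or.inr ⟨3, abs_neg _⟩
  · exact Or.inr ⟨7, rfl⟩
  · exact Or.inl rfl
  · exact Or.inr ⟨10, abs_neg _⟩
  · exact Or.inr ⟨2, rfl⟩
  · exact Or.inr ⟨1, abs_neg _⟩
  · exact Or.inr ⟨8, abs_neg _⟩
  · exact Or.inr ⟨10, rfl⟩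
  · exact Or.inl rfl
  · exact Or.inr ⟨5, abs_neg _⟩
  · exact Or.inr ⟨4, rfl⟩
  · exact Or.inr ⟨4, abs_neg _⟩
  · exact Or.inr ⟨2, abs_neg _⟩
  · exact Or.inr ⟨5, rfl⟩
  · exact Or.inl rfl
  · exact Or.inr ⟨10, rfl⟩
  · exact Or.inr ⟨3, rfl⟩
  · exact Or.inr ⟨1, rfl⟩
  · exact Or.inr ⟨4, abs_neg _⟩
  · exact Or.inr ⟨10, abs_neg _⟩
  · exact Or.inl rfl

private theorem ne_s3 (P Q : Sp) (hP : Qd P) (_hQ : Qd Q) (hPQ : Qd (P + Q)) (ha : P 11 ≠ 0) (hb : Q 11 = 0)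
    (hB : ∀ i j, B_s3 Q i j = 0) : Q = 0 := by
  have q1 : Q 1 = 0 := hB 4 1
  have q2 : Q 2 = 0 := hB 1 3
  have q3 : Q 3 = 0 := hB 4 0
  have q4 : Q 4 = 0 := hB 0 3
  have q5 : Q 5 = 0 := hB 3 2
  have q7 : Q 7 = 0 := hB 1 0
  have q8 : Q 8 = 0 := hB 0 2
  have q10 : Q 10 = 0 := hB 2 1
  have q0 : Q 0 = 0 := by
    have h := hPQ.h9
    have h' := hP.h9
    simp only [Pi.add_apply, q1, q3, q4, q7, q8, q10, hb, add_zero] at h
    have e : P 11 * Q 0 = 0 := by linear_combination (h - h')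
    exact (mul_eq_zero.mp e).resolve_left ha
  have q6 : Q 6 = 0 := by
    have h := hPQ.h5
    have h' := hP.h5
    simp only [Pi.add_apply, q1, q2, q3, q4, q7, q10, hb, add_zero] at h
    have e : P 11 * Q 6 = 0 := by linear_combination (h - h')
    exact (mul_eq_zero.mp e).resolve_left ha
  have q9 : Q 9 = 0 := by
    have h := hPQ.h3
    have h' := hP.h3
    simp only [Pi.add_apply, q1, q2, q4, q5, q10, hb, add_zero] at h
    have e : P 11 * Q 9 = 0 := by linear_combination (h - h')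
    exact (mul_eq_zero.mp e).resolve_left ha
  funext i
  fin_cases i
  · exact q0
  · exact q1
  · exact q2
  · exact q3
  · exact q4
  · exact q5
  · exact q6
  · exact q7
  · exact q8
  · exact q9
  · exact q10
  · exact hb

private theorem ex_s3 (P : Sp) (hq : Qd P) (ha : P 11 ≠ 0) (w z : Fin 5 → ℤ) (h : ∀ k, act (B_s3 P) w k = P 11 * z k) :
    ∃ x : Fin 10 → ℤ, InE P x ∧ FF x = 0 ∧ (∀ k, ∃ j, x j = w k) ∧
      ∀ j, (∃ k, |x j| = |w k|) ∨ ∃ k, |x j| = |z k| := by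
  have h0 : -(P 3 * w 4) + P 4 * w 3 - P 7 * w 1 + P 8 * w 2 = P 11 * z 0 := by
    have := h 0
    simp only [act, B_s3, Fin.sum_univ_five, Matrix.cons_val] at this
    linear_combination this
  have h1 : -(P 1 * w 4) + P 2 * w 3 + P 7 * w 0 - P 10 * w 2 = P 11 * z 1 := by
    have := h 1
    simp only [act, B_s3, Fin.sum_univ_five, Matrix.cons_val] at this
    linear_combination this
  have h2 : P 4 * w 4 - P 5 * w 3 - P 8 * w 0 + P 10 * w 1 = P 11 * z 2 := by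
    have := h 2
    simp only [act, B_s3, Fin.sum_univ_five, Matrix.cons_val] at this
    linear_combination this
  have h3 : -(P 2 * w 1) - P 4 * w 0 + P 5 * w 2 + P 10 * w 4 = P 11 * z 3 := by
    have := h 3
    simp only [act, B_s3, Fin.sum_univ_five, Matrix.cons_val] at this
    linear_combination this
  have h4 : P 1 * w 1 + P 3 * w 0 - P 4 * w 2 - P 10 * w 3 = P 11 * z 4 := by
    have := h 4
    simp only [act, B_s3, Fin.sum_univ_five, Matrix.cons_val] at this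
    linear_combination this
  obtain ⟨e1, e2⟩ := e_s3 hq ha h0 h1 h2 h3 h4
  refine ⟨_, e1, e2, ?_, ?_⟩
  · intro k
    fin_cases k
    · exact ⟨2, rfl⟩
    · exact ⟨3, rfl⟩
    · exact ⟨4, rfl⟩
    · exact ⟨8, rfl⟩
    · exact ⟨9, rfl⟩
  · intro j
    fin_cases j
    · exact Or.inr ⟨0, rfl⟩
    · exact Or.inr ⟨1, abs_neg _⟩
    · exact Or.inl ⟨0, rfl⟩
    · exact Or.inl ⟨1, rfl⟩
    · exact Or.inl ⟨2, rfl⟩
    · exact Or.inr ⟨2, abs_neg _⟩
    · exact Or.inr ⟨4, abs_neg _⟩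
    · exact Or.inr ⟨3, rfl⟩
    · exact Or.inl ⟨3, rfl⟩
    · exact Or.inl ⟨4, rfl⟩

private theorem cht_s3 : Cht 11 B_s3 where
  skew := sk_s3
  add := by
    intro P Q i j
    fin_cases i <;> fin_cases j
    · exact (add_zero (0 : ℤ)).symm
    · exact neg_add (P 7) (Q 7)
    · exact (rfl : P 8 + Q 8 = P 8 + Q 8)
    · exact (rfl : P 4 + Q 4 = P 4 + Q 4)
    · exact neg_add (P 3) (Q 3)
    · exact (rfl : P 7 + Q 7 = P 7 + Q 7)
    · exact (add_zero (0 : ℤ)).symm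
    · exact neg_add (P 10) (Q 10)
    · exact (rfl : P 2 + Q 2 = P 2 + Q 2)
    · exact neg_add (P 1) (Q 1)
    · exact neg_add (P 8) (Q 8)
    · exact (rfl : P 10 + Q 10 = P 10 + Q 10)
    · exact (add_zero (0 : ℤ)).symm
    · exact neg_add (P 5) (Q 5)
    · exact (rfl : P 4 + Q 4 = P 4 + Q 4)
    · exact neg_add (P 4) (Q 4)
    · exact neg_add (P 2) (Q 2)
    · exact (rfl : P 5 + Q 5 = P 5 + Q 5)
    · exact (add_zero (0 : ℤ)).symm
    · exact (rfl : P 10 + Q 10 = P 10 + Q 10)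
    · exact (rfl : P 3 + Q 3 = P 3 + Q 3)
    · exact (rfl : P 1 + Q 1 = P 1 + Q 1)
    · exact neg_add (P 4) (Q 4)
    · exact neg_add (P 10) (Q 10)
    · exact (add_zero (0 : ℤ)).symm
  smul := by
    intro n P i j
    fin_cases i <;> fin_cases j
    · exact (mul_zero n).symm
    · exact (mul_neg n (P 7)).symm
    · exact (rfl : n * P 8 = n * P 8)
    · exact (rfl : n * P 4 = n * P 4)
    · exact (mul_neg n (P 3)).symm
    · exact (rfl : n * P 7 = n * P 7)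
    · exact (mul_zero n).symm
    · exact (mul_neg n (P 10)).symm
    · exact (rfl : n * P 2 = n * P 2)
    · exact (mul_neg n (P 1)).symm
    · exact (mul_neg n (P 8)).symm
    · exact (rfl : n * P 10 = n * P 10)
    · exact (mul_zero n).symm
    · exact (mul_neg n (P 5)).symm
    · exact (rfl : n * P 4 = n * P 4)
    · exact (mul_neg n (P 4)).symm
    · exact (mul_neg n (P 2)).symm
    · exact (rfl : n * P 5 = n * P 5)
    · exact (mul_zero n).symm
    · exact (rfl : n * P 10 = n * P 10)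
    · exact (rfl : n * P 3 = n * P 3)
    · exact (rfl : n * P 1 = n * P 1)
    · exact (mul_neg n (P 4)).symm
    · exact (mul_neg n (P 10)).symm
    · exact (mul_zero n).symm
  bd := bd_s3
  pf := fun _ hq => pf_s3 hq
  ne := ne_s3
  ex := ex_s3

/-- (size 4, mechanical: twelve charts `B_c, B_p2, ..., B_s3` of PP5.EC, see the private lemmas `sk_*, pf_*, many_*` of PP5/EF.lean)
`ne`: the coordinates of `Q` which do not occur in `Bm Q` (and are not `a`) come from the polarised quadrics, e.g. for `a = 0`: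
`P 0 * Q 2`, `P 0 * Q 5`, `P 0 * Q 11` are polar parts of `h2, h6, h9` (`Qd (P + Q)` minus `Qd P` minus `Qd Q`). -/
theorem skD (a : Fin 12) : ∃ Bm : Sp → Fin 5 → Fin 5 → ℤ, Cht a Bm := by
  fin_cases a
  · exact ⟨_, cht_c⟩
  · exact ⟨_, cht_p2⟩
  · exact ⟨_, cht_p3⟩
  · exact ⟨_, cht_q1⟩
  · exact ⟨_, cht_q2⟩
  · exact ⟨_, cht_q3⟩
  · exact ⟨_, cht_v⟩
  · exact ⟨_, cht_r2⟩
  · exact ⟨_, cht_r3⟩
  · exact ⟨_, cht_s1⟩
  · exact ⟨_, cht_s2⟩
  · exact ⟨_, cht_s3⟩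

end Pool.Agent.PP5G
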