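import Pool.Agent.PP5G.SkC
import Pool.Agent.PP5G.SkD

/-!
# PP5G/SkE: LEMMA LN
-/

set_option autoImplicit false

namespace Pool.Agent.PP5G

open Pool.Agent.PP5

/-- all combinations of `P`, `Q` satisfy the quadrics -/
theorem qd_comb {P Q : Sp} (hP : Qd P) (hQ : Qd Q) (hPQ : Qd (P + Q)) (u v : ℤ) : Qd (u • P + v • Q) := by
  obtain ⟨p1, p2, p3, p4, p5, p6, p7, p8, p9, p10⟩ := hP
  obtain ⟨q1, q2, q3, q4, q5, q6, q7, q8, q9, q10⟩ := hQ
  obtain ⟨s1, s2, s3, s4, s5, s6, s7, s8, s9, s10⟩ := hPQ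
  simp only [Pi.add_apply] at s1 s2 s3 s4 s5 s6 s7 s8 s9 s10
  constructor <;> simp only [Pi.add_apply, Pi.smul_apply, smul_eq_mul]
  · linear_combination (u ^ 2 - u * v) * p1 + (v ^ 2 - u * v) * q1 + u * v * s1
  · linear_combination (u ^ 2 - u * v) * p2 + (v ^ 2 - u * v) * q2 + u * v * s2
  · linear_combination (u ^ 2 - u * v) * p3 + (v ^ 2 - u * v) * q3 + u * v * s3
  · linear_combination (u ^ 2 - u * v) * p4 + (v ^ 2 - u * v) * q4 + u * v * s4
  · linear_combination (u ^ 2 - u * v) * p5 + (v ^ 2 - u * v) * q5 + u * v * s5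
  · linear_combination (u ^ 2 - u * v) * p6 + (v ^ 2 - u * v) * q6 + u * v * s6
  · linear_combination (u ^ 2 - u * v) * p7 + (v ^ 2 - u * v) * q7 + u * v * s7
  · linear_combination (u ^ 2 - u * v) * p8 + (v ^ 2 - u * v) * q8 + u * v * s8
  · linear_combination (u ^ 2 - u * v) * p9 + (v ^ 2 - u * v) * q9 + u * v * s9
  · linear_combination (u ^ 2 - u * v) * p10 + (v ^ 2 - u * v) * q10 + u * v * s10

private theorem act_comb {B B1 B2 : Fin 5 → Fin 5 → ℤ} {p v : ℤ}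
    (h : ∀ i j, B i j = p * B1 i j - v * B2 i j) (w : Fin 5 → ℤ) (k : Fin 5) :
    act B w k = p * act B1 w k - v * act B2 w k := by
  unfold act
  rw [Finset.mul_sum, Finset.mul_sum, ← Finset.sum_sub_distrib]
  exact Finset.sum_congr rfl fun j _ => by rw [h]; ring

/-- LEMMA LN (size 3).  Proof.  `P ≠ 0`; let `a` be the index with `|P a|` maximal (`≠ 0`), `Bm` the chart of `a` (`skD`),
`g = gcd (P a, Q a) > 0`, `u (P a) + v (Q a) = g`, `ψ1 = u P + v Q`, `ψ2 = (P a / g) Q - (Q a / g) P`.  Then `ψ1 a = g`, `ψ2 a = 0`, `P = (P a / g) ψ1 - v ψ2`,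
`g ψ2 j = P a Q j - P j Q a` (so `g |ψ2 j| ≤ H`), `ψ2 ≠ 0` (`P, Q` independent).  `B1 = Bm ψ1`, `B2 = Bm ψ2`: `Pf5 B2 = 0` (`0 ∣ ..`), `g ∣ Pf5 B1`,
`g ∣ Pp B1 B2` (`Pf_add`, chart of `ψ1 + ψ2`), `B2 ≠ 0` (`ne`).  `skC` gives `w, z`; `act (Bm P) w = (P a / g) act B1 w - v act B2 w = P a * z`; `ex` gives `x`;
`|P a| |z k| ≤ 5 |P a| max |w|`, so `|x j| ≤ 5 max |w| ≤ 15 H ^ (1/3)`. -/
theorem ln {P Q : Sp} (hP : Qd P) (hQ : Qd Q) (hPQ : Qd (P + Q)) (hi : ∃ i j, P i * Q j - P j * Q i ≠ 0)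
    {H : ℝ} (hH : ∀ i j, |((P i * Q j - P j * Q i : ℤ) : ℝ)| ≤ H) :
    ∃ x : Fin 10 → ℤ, x ≠ 0 ∧ InE P x ∧ FF x = 0 ∧ ∀ j, |(x j : ℝ)| ≤ 15 * H ^ (1 / 3 : ℝ) := by
  obtain ⟨i0, j0, hij⟩ := hi
  have hP0 : P ≠ 0 := by
    intro h
    apply hij
    simp [h]
  obtain ⟨a, ha⟩ := Finite.exists_max (fun c : Fin 12 => |P c|)
  have hPa : P a ≠ 0 := by
    intro h
    apply hP0
    funext c
    have h1 := ha c
    rw [h, abs_zero] at h1
    simpa using h1
  obtain ⟨Bm, hB⟩ := skD a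
  -- the gcd
  have hg0 : (0 : ℤ) < (Int.gcd (P a) (Q a) : ℤ) := by
    exact_mod_cast Int.gcd_pos_of_ne_zero_left _ hPa
  obtain ⟨p, hp⟩ : (Int.gcd (P a) (Q a) : ℤ) ∣ P a := Int.gcd_dvd_left ..
  obtain ⟨q, hq⟩ : (Int.gcd (P a) (Q a) : ℤ) ∣ Q a := Int.gcd_dvd_right ..
  have hbez : (Int.gcd (P a) (Q a) : ℤ) = P a * Int.gcdA (P a) (Q a) + Q a * Int.gcdB (P a) (Q a) :=
    Int.gcd_eq_gcd_ab _ _
  generalize (Int.gcd (P a) (Q a) : ℤ) = g at hg0 hp hq hbez
  generalize Int.gcdA (P a) (Q a) = u at hbez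
  generalize Int.gcdB (P a) (Q a) = v at hbez
  have hone : u * p + v * q = 1 := by
    have h1 : g * (u * p + v * q) = g * 1 := by
      rw [mul_one]
      nth_rewrite 2 [hbez]
      rw [hp, hq]
      ring
    exact mul_left_cancel₀ hg0.ne' h1
  have hd1 : Qd (u • P + v • Q) := qd_comb hP hQ hPQ u v
  have hd2 : Qd (p • Q + (-q) • P) := by
    have h1 := qd_comb hP hQ hPQ (-q) p
    rwa [add_comm] at h1
  have hd12 : Qd (u • P + v • Q + (p • Q + (-q) • P)) := by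
    have h1 := qd_comb hP hQ hPQ (u + -q) (v + p)
    have h2 : (u + -q) • P + (v + p) • Q = u • P + v • Q + (p • Q + (-q) • P) := by
      rw [add_smul, add_smul]
      abel
    rwa [h2] at h1
  set ψ1 : Sp := u • P + v • Q with hψ1
  set ψ2 : Sp := p • Q + (-q) • P with hψ2
  have e1 : ∀ c, ψ1 c = u * P c + v * Q c := fun c => by
    rw [hψ1]; simp [Pi.add_apply, Pi.smul_apply]
  have e2 : ∀ c, ψ2 c = p * Q c - q * P c := fun c => by
    rw [hψ2]; simp [Pi.add_apply, Pi.smul_apply]; ring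
  have e1a : ψ1 a = g := by
    rw [e1]
    linear_combination -hbez
  have e2a : ψ2 a = 0 := by
    rw [e2]
    rw [hp, hq]
    ring
  have hgψ : ∀ c, g * ψ2 c = P a * Q c - P c * Q a := fun c => by
    rw [e2, hp, hq]
    ring
  have hPψ : P = p • ψ1 + (-v) • ψ2 := by
    funext c
    simp only [Pi.add_apply, Pi.smul_apply, smul_eq_mul]
    rw [e1, e2]
    linear_combination -(P c) * hone
  have hψ2ne : ψ2 ≠ 0 := by
    intro h
    have h1 : ∀ c, P a * Q c = P c * Q a := fun c => by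
      have h2 := hgψ c
      rw [h] at h2
      simp at h2
      linarith
    apply hij
    have h3 : P a * (P i0 * Q j0 - P j0 * Q i0) = P a * 0 := by
      linear_combination (P i0) * h1 j0 - (P j0) * h1 i0
    exact mul_left_cancel₀ hPa h3
  -- the two matrices
  have hB12 : ∀ i j, Bm (ψ1 + ψ2) i j = Bm ψ1 i j + Bm ψ2 i j := hB.add ψ1 ψ2
  have hpf2 : ∀ i j k l, Pf5 (Bm ψ2) i j k l = 0 := fun i j k l => by
    have h1 := hB.pf ψ2 hd2 i j k l
    rw [e2a] at h1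
    exact zero_dvd_iff.1 h1
  have hpf1 : ∀ i j k l, g ∣ Pf5 (Bm ψ1) i j k l := fun i j k l => by
    have h1 := hB.pf ψ1 hd1 i j k l
    rwa [e1a] at h1
  have hpp : ∀ i j k l, g ∣ Pp (Bm ψ1) (Bm ψ2) i j k l := fun i j k l => by
    have h1 := hB.pf (ψ1 + ψ2) hd12 i j k l
    have h2 : (ψ1 + ψ2) a = g := by
      rw [Pi.add_apply, e1a, e2a, add_zero]
    rw [h2] at h1
    have h3 : Bm (ψ1 + ψ2) = fun i j => Bm ψ1 i j + Bm ψ2 i j := by
      funext i j
      exact hB12 i j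
    rw [h3, Pf_add, hpf2, add_zero] at h1
    exact (Int.dvd_add_right (hpf1 i j k l)).1 h1
  have hne2 : ∃ i j, Bm ψ2 i j ≠ 0 := by
    by_contra h
    push Not at h
    exact hψ2ne (hB.ne ψ1 ψ2 hd1 hd2 hd12 (by rw [e1a]; exact hg0.ne') e2a h)
  have hH0 : 0 ≤ H := (abs_nonneg _).trans (hH 0 0)
  have hHB : ∀ i j, |(g : ℝ)| * |(Bm ψ2 i j : ℝ)| ≤ H := by
    intro i j
    rcases hB.bd ψ2 i j with h | ⟨c, h⟩
    · rw [h]
      simpa using hH0
    · have h1 : |(g : ℝ)| * |(Bm ψ2 i j : ℝ)| = |((P a * Q c - P c * Q a : ℤ) : ℝ)| := by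
        rw [← hgψ c]
        have h2 : |(Bm ψ2 i j : ℝ)| = |(ψ2 c : ℝ)| := by exact_mod_cast h
        rw [h2]
        push_cast
        rw [abs_mul]
      rw [h1]
      exact hH a c
  obtain ⟨w, z, hw0, hw2, hw1, hwb⟩ := skC hg0.ne' (hB.skew ψ1) (hB.skew ψ2) hne2 hpf1 hpf2 hpp hHB
  have hBP : ∀ i j, Bm P i j = p * Bm ψ1 i j - v * Bm ψ2 i j := fun i j => by
    have h1 : Bm P i j = Bm (p • ψ1 + (-v) • ψ2) i j := by rw [← hPψ]
    rw [h1, hB.add, hB.smul, hB.smul]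
    ring
  have hact : ∀ k, act (Bm P) w k = P a * z k := fun k => by
    rw [act_comb hBP w k, hw1, hw2, hp]
    ring
  obtain ⟨x, hx1, hx2, hx3, hx4⟩ := hB.ex P hP hPa w z hact
  refine ⟨x, ?_, hx1, hx2, ?_⟩
  · intro h
    apply hw0
    funext k
    obtain ⟨j, hj⟩ := hx3 k
    rw [← hj, h]
    rfl
  · set T : ℝ := H ^ (1 / 3 : ℝ) with hT
    have hT0 : 0 ≤ T := Real.rpow_nonneg hH0 _
    have hT3 : T ^ 3 = H := by
      rw [hT, ← Real.rpow_natCast, ← Real.rpow_mul hH0]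
      norm_num
    have hw3 : ∀ i, |(w i : ℝ)| ≤ 3 * T := by
      intro i
      have h1 := hwb i
      have h2 : |(w i : ℝ)| ^ 3 ≤ (3 * T) ^ 3 := by
        rw [mul_pow, hT3]
        norm_num
        linarith
      exact le_of_pow_le_pow_left₀ (by norm_num) (by positivity) h2
    have hz3 : ∀ k, |(z k : ℝ)| ≤ 15 * T := by
      intro k
      have h1 : |((P a : ℤ) : ℝ)| * |(z k : ℝ)| ≤ |((P a : ℤ) : ℝ)| * (15 * T) := by
        have h2 : ((P a : ℤ) : ℝ) * (z k : ℝ) = ∑ j, (Bm P k j : ℝ) * (w j : ℝ) := by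
          have h3 := hact k
          unfold act at h3
          exact_mod_cast h3.symm
        rw [← abs_mul, h2]
        calc |∑ j, (Bm P k j : ℝ) * (w j : ℝ)| ≤ ∑ j, |(Bm P k j : ℝ) * (w j : ℝ)| :=
              Finset.abs_sum_le_sum_abs _ _
          _ ≤ ∑ _j : Fin 5, |((P a : ℤ) : ℝ)| * (3 * T) := by
              refine Finset.sum_le_sum fun j _ => ?_
              rw [abs_mul]
              refine mul_le_mul ?_ (hw3 j) (abs_nonneg _) (abs_nonneg _)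
              rcases hB.bd P k j with h | ⟨c, h⟩
              · rw [h]
                simp
              · have h4 : |Bm P k j| ≤ |P a| := h.le.trans (ha c)
                exact_mod_cast h4
          _ = |((P a : ℤ) : ℝ)| * (15 * T) := by
              rw [Finset.sum_const, Finset.card_univ, Fintype.card_fin]
              simp only [nsmul_eq_mul]
              push_cast
              ring
      have h5 : 0 < |((P a : ℤ) : ℝ)| := abs_pos.2 (by exact_mod_cast hPa)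
      exact le_of_mul_le_mul_left h1 h5
    intro j
    rcases hx4 j with ⟨k, hk⟩ | ⟨k, hk⟩
    · have h1 : |(x j : ℝ)| = |(w k : ℝ)| := by exact_mod_cast hk
      rw [h1]
      linarith [hw3 k]
    · have h1 : |(x j : ℝ)| = |(z k : ℝ)| := by exact_mod_cast hk
      rw [h1]
      exact hz3 k

end Pool.Agent.PP5G
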