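import Pool.Agent.PP5S.DPh
import Pool.Agent.PP5G.SkE

/-!
# PP5G/LnF: LEMMA LN for the data attached to `x`

If `x` is a shortest vector of `E_P`, `P = ∑ v i b i`, the planes of zeros of `G` through `v` have
covolume at least `T ^ 3`, up to a power of `t1 t2`.
-/

set_option autoImplicit false

namespace Pool.Agent.PP5G

open Matrix Finset Pool.Agent.PP5 Pool.Agent.PP5S

private theorem sg_le' {t1 t2 : ℝ} (h1 : 1 ≤ t1) (h2 : 1 ≤ t2) (i : Fin 12) :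
    sg t1 t2 i ≤ (t1 * t2) ^ 2 := by
  have h10 : (0 : ℝ) < t1 := by linarith
  have h20 : (0 : ℝ) < t2 := by linarith
  rw [sg_eq h10 h20, mul_pow]
  have ha : ∀ i, ea i ≤ 2 := by decide
  have hb : ∀ i, eb i ≤ 2 := by decide
  have e1 : t1 ^ (ea i) ≤ t1 ^ (2 : ℕ) := by
    have := zpow_le_zpow_right₀ h1 (ha i)
    exact_mod_cast this
  have e2 : t2 ^ (eb i) ≤ t2 ^ (2 : ℕ) := by
    have := zpow_le_zpow_right₀ h2 (hb i)
    exact_mod_cast this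
  exact mul_le_mul e1 e2 (by positivity) (by positivity)

private theorem tx_ge' {t1 t2 : ℝ} (h1 : 1 ≤ t1) (h2 : 1 ≤ t2) (j : Fin 10) :
    1 ≤ (t1 * t2) ^ 2 * tx t1 t2 j := by
  have h10 : (0 : ℝ) < t1 := by linarith
  have h20 : (0 : ℝ) < t2 := by linarith
  have ha : ∀ i, 0 ≤ 2 + xa i := by decide
  have hb : ∀ i, 0 ≤ 2 + xb i := by decide
  have e : (t1 * t2) ^ 2 * tx t1 t2 j = t1 ^ (2 + xa j) * t2 ^ (2 + xb j) := by
    rw [tx_eq h10 h20, zpow_add₀ h10.ne', zpow_add₀ h20.ne']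
    norm_cast
    ring
  rw [e]
  have e1 := one_le_zpow₀ h1 (ha j)
  have e2 := one_le_zpow₀ h2 (hb j)
  nlinarith

private theorem nw_att {N : ℕ} {w : Fin N → ℝ} (hw : ∀ i, 0 < w i) {v : Fin N → ℤ} (hv : v ≠ 0) :
    ∃ j, nw w v * w j ≤ |(v j : ℝ)| := by
  by_contra hc
  push Not at hc
  have hT := nw_pos hw hv
  have h3 : nw w v < nw w v := by
    conv_lhs => unfold nw
    rw [pi_norm_lt_iff hT]
    intro j
    rw [Real.norm_eq_abs, abs_div, abs_of_pos (hw j), div_lt_iff₀ (hw j)]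
    exact hc j
  exact lt_irrefl _ h3

/-- LEMMA LN for the data attached to `x` (`D(x) = 0` allowed) -/
theorem ln_xe {C t1 t2 T : ℝ} {x : Fin 10 → ℤ} {b : Fin 4 → Sp}
    {G : Matrix (Fin 4) (Fin 4) ℤ} {l : Fin 4 → ℝ} (h : XE C t1 t2 T x b G l)
    (h1 : 1 ≤ t1) (h2 : 1 ≤ t2) {P : Sp} {v w : Fin 4 → ℤ} (hP : ∀ a, P a = ∑ i, v i * b i a)
    (hv : v ⬝ᵥ (G *ᵥ v) = 0) (hw : w ⬝ᵥ (G *ᵥ w) = 0) (hvw : v ⬝ᵥ (G *ᵥ w) = 0)
    (hne : ∃ i j, v i * w j ≠ v j * w i)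
    (sh : ∀ x' : Fin 10 → ℤ, x' ≠ 0 → InE P x' → FF x' = 0 →
      ∃ j, T * tx t1 t2 j ≤ |(x' j : ℝ)|) :
    ∃ i j, T ^ 3 ≤ 10 ^ 5 * (t1 * t2) ^ 10 * |((v i * w j - v j * w i : ℤ) : ℝ)| * l i * l j := by
  classical
  have h10 : (0 : ℝ) < t1 := by linarith
  have h20 : (0 : ℝ) < t2 := by linarith
  obtain ⟨⟨i0, j0⟩, hmx⟩ := Finite.exists_max
    (fun p : Fin 4 × Fin 4 => |((v p.1 * w p.2 - v p.2 * w p.1 : ℤ) : ℝ)| * l p.1 * l p.2)
  refine ⟨i0, j0, ?_⟩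
  set M : ℝ := |((v i0 * w j0 - v j0 * w i0 : ℤ) : ℝ)| * l i0 * l j0 with hM
  have hmx' : ∀ i j, |((v i * w j - v j * w i : ℤ) : ℝ)| * l i * l j ≤ M := fun i j => hmx (i, j)
  have hM0 : 0 ≤ M := by
    have := h.lp i0
    have := h.lp j0
    positivity
  set Q : Sp := fun a => ∑ i, w i * b i a with hQ
  have hPf : P = fun a => ∑ i, v i * b i a := funext hP
  have qP : Qd P := by rw [hPf]; exact h.quad' v hv
  have qQ : Qd Q := h.quad' w hw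
  have qPQ : Qd (P + Q) := by
    have e : P + Q = fun a => ∑ i, (v + w) i * b i a := by
      funext a
      rw [Pi.add_apply, hP a, hQ, ← Finset.sum_add_distrib]
      exact Finset.sum_congr rfl fun i _ => by rw [Pi.add_apply]; ring
    rw [e]
    apply h.quad' (v + w)
    rw [mulVec_add, add_dotProduct, dotProduct_add, dotProduct_add, hv, hw, hvw]
    have e1 : w ⬝ᵥ (G *ᵥ v) = v ⬝ᵥ (G *ᵥ w) := by
      simp only [dotProduct, mulVec, Fin.sum_univ_four]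
      rw [h.sym 1 0, h.sym 2 0, h.sym 3 0, h.sym 2 1, h.sym 3 1, h.sym 3 2]
      ring
    rw [e1, hvw]
    norm_num
  -- independence
  have hind : ∃ a c, P a * Q c - P c * Q a ≠ 0 := by
    by_contra hc
    push Not at hc
    obtain ⟨i, j, hij⟩ := hne
    apply hij
    have hv0 : ∃ c, P c ≠ 0 := by
      by_contra hcc
      push Not at hcc
      have h3 : v = 0 := h.ind v fun a => by rw [← hP a]; exact hcc a
      apply hij
      rw [h3]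
      simp
    obtain ⟨c, hPc⟩ := hv0
    have h3 : (fun i => P c * w i - Q c * v i) = 0 := by
      apply h.ind
      intro a
      have h4 : ∑ i, (P c * w i - Q c * v i) * b i a = P c * Q a - Q c * P a := by
        rw [hP a, hQ, Finset.mul_sum, Finset.mul_sum, ← Finset.sum_sub_distrib]
        exact Finset.sum_congr rfl fun i _ => by ring
      rw [h4]
      have h5 := hc c a
      linarith
    have hi := congrFun h3 i
    have hj := congrFun h3 j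
    simp only [Pi.zero_apply] at hi hj
    have h6 : P c * (v i * w j) = P c * (v j * w i) := by
      linear_combination v i * hj - v j * hi
    exact mul_left_cancel₀ hPc h6
  -- the size of the minors
  have hbb : ∀ (i j : Fin 4) (a c : Fin 12),
      |((v i * w j - v j * w i : ℤ) : ℝ) * ((b i a : ℝ) * (b j c : ℝ) - (b i c : ℝ) * (b j a : ℝ))|
        ≤ 2 * M * (t1 * t2) ^ 4 := by
    intro i j a c
    have li := h.lp i
    have lj := h.lp j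
    have s1 := sg_le' h1 h2 a
    have s2 := sg_le' h1 h2 c
    have p1 := sg_pos h10 h20 a
    have p2 := sg_pos h10 h20 c
    have hss : sg t1 t2 a * sg t1 t2 c ≤ (t1 * t2) ^ 4 := by
      calc sg t1 t2 a * sg t1 t2 c ≤ (t1 * t2) ^ 2 * (t1 * t2) ^ 2 :=
            mul_le_mul s1 s2 p2.le (by positivity)
        _ = (t1 * t2) ^ 4 := by ring
    have q1 : |(b i a : ℝ)| * |(b j c : ℝ)| ≤ (l i * sg t1 t2 a) * (l j * sg t1 t2 c) :=
      mul_le_mul (h.bl i a) (h.bl j c) (abs_nonneg _) (by positivity)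
    have q2 : |(b i c : ℝ)| * |(b j a : ℝ)| ≤ (l i * sg t1 t2 c) * (l j * sg t1 t2 a) :=
      mul_le_mul (h.bl i c) (h.bl j a) (abs_nonneg _) (by positivity)
    have q3 : |(b i a : ℝ) * (b j c : ℝ) - (b i c : ℝ) * (b j a : ℝ)| ≤
        2 * (l i * l j) * (t1 * t2) ^ 4 := by
      have q4 := abs_sub (b i a * b j c : ℝ) (b i c * b j a)
      rw [abs_mul, abs_mul] at q4
      have q5 : (l i * sg t1 t2 a) * (l j * sg t1 t2 c) ≤ (l i * l j) * (t1 * t2) ^ 4 := by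
        have := mul_le_mul_of_nonneg_left hss (mul_pos li lj).le
        linarith
      have q6 : (l i * sg t1 t2 c) * (l j * sg t1 t2 a) ≤ (l i * l j) * (t1 * t2) ^ 4 := by
        have := mul_le_mul_of_nonneg_left hss (mul_pos li lj).le
        linarith
      linarith
    rw [abs_mul]
    have hmm := hmx' i j
    calc |((v i * w j - v j * w i : ℤ) : ℝ)| *
          |(b i a : ℝ) * (b j c : ℝ) - (b i c : ℝ) * (b j a : ℝ)|
        ≤ |((v i * w j - v j * w i : ℤ) : ℝ)| * (2 * (l i * l j) * (t1 * t2) ^ 4) :=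
          mul_le_mul_of_nonneg_left q3 (abs_nonneg _)
      _ = 2 * (|((v i * w j - v j * w i : ℤ) : ℝ)| * l i * l j) * (t1 * t2) ^ 4 := by ring
      _ ≤ 2 * M * (t1 * t2) ^ 4 := by
          apply mul_le_mul_of_nonneg_right _ (by positivity)
          linarith
  have hH : ∀ a c, |((P a * Q c - P c * Q a : ℤ) : ℝ)| ≤ 12 * M * (t1 * t2) ^ 4 := by
    intro a c
    have e : ((P a * Q c - P c * Q a : ℤ) : ℝ) =
        ((v 0 * w 1 - v 1 * w 0 : ℤ) : ℝ) * ((b 0 a : ℝ) * (b 1 c : ℝ) - (b 0 c : ℝ) * (b 1 a : ℝ)) +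
        ((v 0 * w 2 - v 2 * w 0 : ℤ) : ℝ) * ((b 0 a : ℝ) * (b 2 c : ℝ) - (b 0 c : ℝ) * (b 2 a : ℝ)) +
        ((v 0 * w 3 - v 3 * w 0 : ℤ) : ℝ) * ((b 0 a : ℝ) * (b 3 c : ℝ) - (b 0 c : ℝ) * (b 3 a : ℝ)) +
        ((v 1 * w 2 - v 2 * w 1 : ℤ) : ℝ) * ((b 1 a : ℝ) * (b 2 c : ℝ) - (b 1 c : ℝ) * (b 2 a : ℝ)) +
        ((v 1 * w 3 - v 3 * w 1 : ℤ) : ℝ) * ((b 1 a : ℝ) * (b 3 c : ℝ) - (b 1 c : ℝ) * (b 3 a : ℝ)) +
        ((v 2 * w 3 - v 3 * w 2 : ℤ) : ℝ) * ((b 2 a : ℝ) * (b 3 c : ℝ) - (b 2 c : ℝ) * (b 3 a : ℝ)) := by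
      rw [hP a, hP c, hQ]
      simp only [Fin.sum_univ_four]
      push_cast
      ring
    rw [e]
    have k1 := abs_le.1 (hbb 0 1 a c)
    have k2 := abs_le.1 (hbb 0 2 a c)
    have k3 := abs_le.1 (hbb 0 3 a c)
    have k4 := abs_le.1 (hbb 1 2 a c)
    have k5 := abs_le.1 (hbb 1 3 a c)
    have k6 := abs_le.1 (hbb 2 3 a c)
    rw [abs_le]
    constructor <;> linarith [k1.1, k1.2, k2.1, k2.2, k3.1, k3.2, k4.1, k4.2, k5.1, k5.2, k6.1, k6.2]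
  obtain ⟨x', hx0, hx1, hx2, hx3⟩ := ln qP qQ qPQ hind hH
  obtain ⟨j, hj⟩ := sh x' hx0 hx1 hx2
  set S : ℝ := (12 * M * (t1 * t2) ^ 4) ^ (1 / 3 : ℝ) with hS
  have hS0 : 0 ≤ S := Real.rpow_nonneg (by positivity) _
  have hS3 : S ^ 3 = 12 * M * (t1 * t2) ^ 4 := by
    rw [hS, ← Real.rpow_natCast, ← Real.rpow_mul (by positivity)]
    norm_num
  have hTS : T ≤ 15 * S * (t1 * t2) ^ 2 := by
    have e1 : T * tx t1 t2 j ≤ 15 * S := hj.trans (hx3 j)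
    have e2 := tx_ge' h1 h2 j
    calc T = T * 1 := by ring
      _ ≤ T * ((t1 * t2) ^ 2 * tx t1 t2 j) := mul_le_mul_of_nonneg_left e2 h.T0.le
      _ = (T * tx t1 t2 j) * (t1 * t2) ^ 2 := by ring
      _ ≤ 15 * S * (t1 * t2) ^ 2 := mul_le_mul_of_nonneg_right e1 (by positivity)
  calc T ^ 3 ≤ (15 * S * (t1 * t2) ^ 2) ^ 3 := pow_le_pow_left₀ h.T0.le hTS 3
    _ = 3375 * S ^ 3 * (t1 * t2) ^ 6 := by ring
    _ = 40500 * ((t1 * t2) ^ 10 * M) := by rw [hS3]; ring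
    _ ≤ 10 ^ 5 * ((t1 * t2) ^ 10 * M) := by
        apply mul_le_mul_of_nonneg_right _ (by positivity)
        norm_num
    _ = 10 ^ 5 * (t1 * t2) ^ 10 * |((v i0 * w j0 - v j0 * w i0 : ℤ) : ℝ)| * l i0 * l j0 := by
        rw [hM]; ring

/-- LEMMA LN for the data attached to `x`, in the form of the shortest vector -/
theorem hln (Cx : ℝ) : HLN Cx := by
  refine ⟨10, 10 ^ 5, by norm_num, by norm_num, ?_⟩
  intro t1 t2 T x b G l P v w h1 h2 h _ hP hsh hv hw hvw hne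
  have h10 : (0 : ℝ) < t1 := by linarith
  have h20 : (0 : ℝ) < t2 := by linarith
  have hwx : ∀ j, 0 < tx t1 t2 j := fun j => PP5.tx_pos h10 h20 j
  obtain ⟨i, j, hij⟩ := ln_xe h h1 h2 hP hv hw hvw hne (by
    intro x' hx' hE _
    obtain ⟨j, hj⟩ := nw_att hwx hx'
    refine ⟨j, le_trans ?_ hj⟩
    apply mul_le_mul_of_nonneg_right _ (hwx j).le
    refine le_trans ?_ (hsh.mn x' hE hx')
    obtain ⟨k, hk⟩ := h.Tge
    have h3 := le_nw hwx x k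
    exact le_of_mul_le_mul_right (hk.trans h3) (hwx k))
  refine ⟨i, j, ?_⟩
  have e : (t1 * t2) ^ (10 : ℝ) = (t1 * t2) ^ (10 : ℕ) := by
    rw [← Real.rpow_natCast]; norm_num
  rw [e]
  exact hij

/-- LEMMA LN for the data attached to `x`, `D(x) ≠ 0` -/
theorem ln_xd {C t1 t2 T : ℝ} {x : Fin 10 → ℤ} {b : Fin 4 → Sp}
    {G : Matrix (Fin 4) (Fin 4) ℤ} {l : Fin 4 → ℝ} {k : ℕ} (h : XD C t1 t2 T x b G l k)
    (h1 : 1 ≤ t1) (h2 : 1 ≤ t2) {v w : Fin 4 → ℤ}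
    (hv : v ⬝ᵥ (G *ᵥ v) = 0) (hw : w ⬝ᵥ (G *ᵥ w) = 0) (hvw : v ⬝ᵥ (G *ᵥ w) = 0)
    (hne : ∃ i j, v i * w j ≠ v j * w i)
    (sh : ∀ x' : Fin 10 → ℤ, x' ≠ 0 → InE (fun a => ∑ i, v i * b i a) x' → FF x' = 0 →
      ∃ j, T * tx t1 t2 j ≤ |(x' j : ℝ)|) :
    ∃ i j, T ^ 3 ≤ 10 ^ 5 * (t1 * t2) ^ 20 * |((v i * w j - v j * w i : ℤ) : ℝ)| * l i * l j := by
  obtain ⟨i, j, hij⟩ := ln_xe h.xe h1 h2 (fun a => rfl) hv hw hvw hne sh
  refine ⟨i, j, hij.trans ?_⟩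
  have e : (t1 * t2) ^ 10 ≤ (t1 * t2) ^ 20 :=
    pow_le_pow_right₀ (by nlinarith) (by norm_num)
  have li := h.lp i
  have lj := h.lp j
  have e2 : (0 : ℝ) ≤ |((v i * w j - v j * w i : ℤ) : ℝ)| * l i * l j := by positivity
  have e3 := mul_le_mul_of_nonneg_right e e2
  linarith

end Pool.Agent.PP5G
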