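import Pool.Agent.PP5.EC
import Pool.Agent.PP5.LDefs

/-!
# PP5 (R3): `x ∈ E_P` isotropic, `x ≠ 0`, `P` non-degenerate: the matrix `S(x)` has rank at least three
-/

set_option autoImplicit false

namespace Pool.Agent.PP5G

open Pool.Agent.PP5

/-- two vectors of the plane over `ℚ`: `u p + v q = 0` -/
theorem Rk3_par {u v p q : ℚ} (h : p ≠ 0 ∨ q ≠ 0) (h1 : u * p + v * q = 0) : ∃ a, u = a * q ∧ v = -(a * p) := by
  by_cases hq : q = 0
  · have hp : p ≠ 0 := by
      rcases h with h | h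
      · exact h
      · exact absurd hq h
    subst hq
    have hu : u = 0 := by
      have : u * p = 0 := by linarith
      rcases mul_eq_zero.1 this with h | h
      · exact h
      · exact absurd h hp
    refine ⟨-(v / p), by rw [hu]; ring, ?_⟩
    field_simp
    try ring
  · refine ⟨u / q, by field_simp, ?_⟩
    field_simp
    linarith

theorem Rk3_lam {x a z p q : ℚ} (h : p ≠ 0 ∨ q ≠ 0) (h1 : 2 * x * p + a * q = 0) (h2 : a * p + 2 * z * q = 0) :
    ∃ l, x = l * q ^ 2 ∧ a = -(2 * l * p * q) ∧ z = l * p ^ 2 := by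
  by_cases hq : q = 0
  · have hp : p ≠ 0 := by
      rcases h with h | h
      · exact h
      · exact absurd hq h
    subst hq
    have hx : x = 0 := by
      have : x * p = 0 := by linarith
      rcases mul_eq_zero.1 this with h | h
      · exact h
      · exact absurd h hp
    have ha : a = 0 := by
      have : a * p = 0 := by linarith
      rcases mul_eq_zero.1 this with h | h
      · exact h
      · exact absurd h hp
    refine ⟨z / p ^ 2, by rw [hx]; ring, by rw [ha]; ring, ?_⟩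
    field_simp
  · refine ⟨x / q ^ 2, by field_simp, ?_, ?_⟩
    · field_simp
      linear_combination h1
    · field_simp
      have e : 2 * (z * q ^ 2 - x * p ^ 2) = 0 := by linear_combination q * h2 - p * h1
      linarith

theorem Rk3_nu {a b c d p q r s : ℚ} (h : p ≠ 0 ∨ q ≠ 0) (h' : r ≠ 0 ∨ s ≠ 0) (h1 : a * p + b * q = 0)
    (h2 : c * p + d * q = 0) (h3 : a * r + c * s = 0) (h4 : b * r + d * s = 0) :
    ∃ n, a = n * q * s ∧ b = -(n * p * s) ∧ c = -(n * q * r) ∧ d = n * p * r := by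
  obtain ⟨u, hu1, hu2⟩ := Rk3_par h h1
  obtain ⟨v, hv1, hv2⟩ := Rk3_par h h2
  subst hu1 hu2 hv1 hv2
  have h5 : u * r + v * s = 0 := by
    rcases h with h | h
    · have : (u * r + v * s) * p = 0 := by linear_combination -h4
      rcases mul_eq_zero.1 this with h | h'
      · exact h
      · exact absurd h' h
    · have : (u * r + v * s) * q = 0 := by linear_combination h3
      rcases mul_eq_zero.1 this with h | h'
      · exact h
      · exact absurd h' h
  obtain ⟨n, hn1, hn2⟩ := Rk3_par h' h5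
  subst hn1 hn2
  exact ⟨n, by ring, by ring, by ring, by ring⟩

/-- the forms `P(v, v; w)`, `R(v; w, w)` over `ℚ` -/
theorem Rk3_core {P : Fin 12 → ℚ} {p q r s l m n : ℚ} (h : p ≠ 0 ∨ q ≠ 0) (h' : r ≠ 0 ∨ s ≠ 0)
    (hl : l ≠ 0 ∨ m ≠ 0 ∨ n ≠ 0) {x0 x1 x2 x3 x4 x5 x6 x7 x8 x9 : ℚ}
    (hx0 : x0 = l * q ^ 2) (hx1 : x1 = m * s ^ 2) (hx2 : x2 = l * p ^ 2) (hx3 : x3 = m * r ^ 2)
    (hx4 : x4 = -(l * p * q) - m * r * s) (hx5 : x5 = -(l * p * q) + m * r * s)
    (hx6 : x6 = n * q * s) (hx7 : x7 = -(n * p * s)) (hx8 : x8 = -(n * q * r)) (hx9 : x9 = n * p * r)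
    (e1 : P 4 * x9 - P 5 * x8 - P 8 * x2 + P 10 * x3 + P 11 * x5 = 0)
    (e2 : -(P 0 * x7) + P 1 * x6 + P 7 * x1 - P 9 * x0 + P 6 * x5 = 0)
    (e3 : P 0 * x3 + P 3 * x5 - P 4 * x0 - P 7 * x8 + P 8 * x6 = 0)
    (e4 : -(P 1 * x2) + P 2 * x5 + P 5 * x1 + P 9 * x9 - P 10 * x7 = 0)
    (e5 : P 4 * x7 - P 5 * x6 - P 7 * x2 + P 9 * x3 + P 10 * x5 = 0)
    (e6 : -(P 0 * x9) + P 1 * x8 + P 7 * x5 + P 8 * x1 - P 10 * x0 = 0)
    (e7 : P 1 * x3 + P 4 * x5 - P 5 * x0 - P 7 * x9 + P 8 * x7 = 0)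
    (e8 : -(P 0 * x2) + P 1 * x5 + P 4 * x1 + P 9 * x8 - P 10 * x6 = 0)
    (e9 : -(P 2 * x3) - P 4 * x2 + P 5 * x4 + P 10 * x9 - P 11 * x7 = 0)
    (e10 : P 0 * x4 - P 1 * x0 - P 3 * x1 + P 7 * x6 - P 6 * x8 = 0)
    (e11 : P 1 * x7 - P 2 * x6 + P 9 * x4 - P 10 * x1 - P 6 * x2 = 0)
    (e12 : -(P 3 * x9) + P 4 * x8 - P 7 * x3 + P 8 * x4 - P 11 * x0 = 0)
    (e13 : P 1 * x9 - P 2 * x8 - P 7 * x2 + P 10 * x4 - P 11 * x1 = 0)
    (e14 : -(P 3 * x7) + P 4 * x6 + P 7 * x4 - P 10 * x0 - P 6 * x3 = 0)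
    (e15 : -(P 1 * x3) - P 3 * x2 + P 4 * x4 + P 10 * x8 - P 11 * x6 = 0)
    (e16 : P 1 * x4 - P 2 * x0 - P 4 * x1 + P 7 * x7 - P 6 * x9 = 0) :
    r * (P 0 * p ^ 2 + 2 * P 1 * p * q + P 2 * q ^ 2) + s * (P 3 * p ^ 2 + 2 * P 4 * p * q + P 5 * q ^ 2) = 0 ∧
      p * (P 6 * r ^ 2 + 2 * P 7 * r * s + P 8 * s ^ 2) + q * (P 9 * r ^ 2 + 2 * P 10 * r * s + P 11 * s ^ 2) = 0 := by
  subst hx0 hx1 hx2 hx3 hx4 hx5 hx6 hx7 hx8 hx9
  constructor
  · rcases hl with hl | hl | hl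
    · rcases h with h | h
      · refine (mul_eq_zero.1 (?_ : l * p * _ = 0)).resolve_left (mul_ne_zero hl h)
        linear_combination -(q * r * e4) - p * r * e8 - q * s * e9 - p * s * e15
      · refine (mul_eq_zero.1 (?_ : l * q * _ = 0)).resolve_left (mul_ne_zero hl h)
        linear_combination -(p * s * e3) - q * s * e7 - p * r * e10 - q * r * e16
    · rcases h' with h | h
      · refine (mul_eq_zero.1 (?_ : m * r * _ = 0)).resolve_left (mul_ne_zero hl h)
        linear_combination p^2 * e3 + p * q * e7 - q^2 * e9 - p * q * e15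
      · refine (mul_eq_zero.1 (?_ : m * s * _ = 0)).resolve_left (mul_ne_zero hl h)
        linear_combination q^2 * e4 + p * q * e8 - p^2 * e10 - p * q * e16
    · rcases h' with h | h
      · refine (mul_eq_zero.1 (?_ : n * r * _ = 0)).resolve_left (mul_ne_zero hl h)
        linear_combination q * s * e1 - p * r * e6 - p * s * e12 + q * r * e13
      · refine (mul_eq_zero.1 (?_ : n * s * _ = 0)).resolve_left (mul_ne_zero hl h)
        linear_combination p * r * e2 - q * s * e5 - q * r * e11 + p * s * e14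
  · rcases hl with hl | hl | hl
    · rcases h with h | h
      · refine (mul_eq_zero.1 (?_ : l * p * _ = 0)).resolve_left (mul_ne_zero hl h)
        linear_combination -(s^2 * e1) - r * s * e5 - r^2 * e11 - r * s * e13
      · refine (mul_eq_zero.1 (?_ : l * q * _ = 0)).resolve_left (mul_ne_zero hl h)
        linear_combination -(r^2 * e2) - r * s * e6 - s^2 * e12 - r * s * e14
    · rcases h' with h | h
      · refine (mul_eq_zero.1 (?_ : m * r * _ = 0)).resolve_left (mul_ne_zero hl h)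
        linear_combination q * s * e1 + q * r * e5 - p * s * e12 - p * r * e14
      · refine (mul_eq_zero.1 (?_ : m * s * _ = 0)).resolve_left (mul_ne_zero hl h)
        linear_combination p * r * e2 + p * s * e6 - q * r * e11 - q * s * e13
    · rcases h with h | h
      · refine (mul_eq_zero.1 (?_ : n * p * _ = 0)).resolve_left (mul_ne_zero hl h)
        linear_combination q * r * e4 - p * s * e7 + q * s * e9 - p * r * e16
      · refine (mul_eq_zero.1 (?_ : n * q * _ = 0)).resolve_left (mul_ne_zero hl h)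
        linear_combination p * s * e3 - q * r * e8 + p * r * e10 - q * s * e15

/-- two proportional vectors of `Z^4` -/
theorem Rk3_dep (u w : Fin 4 → ℤ) (h : ∀ i j, u i * w j = u j * w i) :
    ∃ a b : ℤ, (a ≠ 0 ∨ b ≠ 0) ∧ ∀ i, a * u i + b * w i = 0 := by
  by_cases h0 : ∃ i, u i ≠ 0 ∨ w i ≠ 0
  · obtain ⟨i, hi⟩ := h0
    refine ⟨w i, -u i, ?_, fun j => ?_⟩
    · rcases hi with h | h
      · exact Or.inr (neg_ne_zero.2 h)
      · exact Or.inl h
    · linear_combination h j i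
  · push Not at h0
    exact ⟨1, 0, Or.inl one_ne_zero, fun i => by rw [(h0 i).1]; ring⟩

theorem Rk3_five {a b : ℤ} (h : a ^ 2 = 5 * b ^ 2) : b = 0 := by
  by_contra hb
  have h1 : Irrational (Real.sqrt 5) := by
    have := Nat.Prime.irrational_sqrt (p := 5) (by norm_num)
    exact_mod_cast this
  have hb' : (b : ℝ) ≠ 0 := by exact_mod_cast hb
  have h2 : ((a : ℝ) / b) ^ 2 = 5 := by
    have : (a : ℝ) ^ 2 = 5 * (b : ℝ) ^ 2 := by exact_mod_cast h
    rw [div_pow, this]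
    field_simp
  have h3 : Real.sqrt 5 = |(a : ℝ) / b| := by
    rw [← h2, Real.sqrt_sq_eq_abs]
  apply h1
  refine ⟨|(a : ℚ) / b|, ?_⟩
  rw [h3]
  push_cast
  rfl

/-- the symmetric matrix with zero `3 × 3` minors -/
theorem Rk3_minors {x : Fin 10 → ℤ} (h : (PP5L.SS x).adjugate = 0) (i j : Fin 4) :
    ((PP5L.SS x).submatrix i.succAbove j.succAbove).det = 0 := by
  have h1 : (PP5L.SS x).adjugate j i = 0 := by rw [h]; rfl
  rw [Matrix.adjugate_fin_succ_eq_det_submatrix] at h1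
  rcases mul_eq_zero.1 h1 with h2 | h2
  · exact absurd h2 (pow_ne_zero _ (by norm_num))
  · exact h2

/-- symmetric `4 × 4` matrices with zero `3 × 3` minors and `d1 - d2 = 4 β`: the rows `0, 1` and the rows `2, 3` are
dependent -/
theorem Rk3_sym {s00 s01 s02 s03 s11 s12 s13 s22 s23 s33 : ℤ}
    (m33 : s00 * (s11 * s22 - s12 * s12) - s01 * (s01 * s22 - s12 * s02) + s02 * (s01 * s12 - s11 * s02) = 0)
    (m22 : s00 * (s11 * s33 - s13 * s13) - s01 * (s01 * s33 - s13 * s03) + s03 * (s01 * s13 - s11 * s03) = 0)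
    (m11 : s00 * (s22 * s33 - s23 * s23) - s02 * (s02 * s33 - s23 * s03) + s03 * (s02 * s23 - s22 * s03) = 0)
    (m00 : s11 * (s22 * s33 - s23 * s23) - s12 * (s12 * s33 - s23 * s13) + s13 * (s12 * s23 - s22 * s13) = 0)
    (m32 : s00 * (s11 * s23 - s13 * s12) - s01 * (s01 * s23 - s13 * s02) + s03 * (s01 * s12 - s11 * s02) = 0)
    (m10 : s01 * (s22 * s33 - s23 * s23) - s02 * (s12 * s33 - s23 * s13) + s03 * (s12 * s23 - s22 * s13) = 0)
    (hF : (s00 * s11 - s01 ^ 2) - (s22 * s33 - s23 ^ 2) = 4 * (s02 * s13 - s03 * s12)) :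
    s00 * s11 - s01 ^ 2 = 0 ∧ s22 * s33 - s23 ^ 2 = 0 ∧ s02 * s13 - s03 * s12 = 0 := by
  set d1 := s00 * s11 - s01 ^ 2 with hd1
  set d2 := s22 * s33 - s23 ^ 2 with hd2
  set β := s02 * s13 - s03 * s12 with hβ
  have k1 : d1 * (d1 * d2 - β ^ 2) = 0 := by
    rw [hd1, hd2, hβ]
    linear_combination (s00 * s11 - s01 ^ 2) * s33 * m33 +
      (s11 * s02 ^ 2 - 2 * s01 * s02 * s12 + s00 * s12 ^ 2) * m22 -
      ((s00 * s11 - s01 ^ 2) * s23 + (s11 * s02 * s03 - s01 * (s02 * s13 + s12 * s03) + s00 * s12 * s13)) * m32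
  have k2 : d2 * (d1 * d2 - β ^ 2) = 0 := by
    rw [hd1, hd2, hβ]
    linear_combination (s22 * s33 - s23 ^ 2) * s11 * m11 +
      (s33 * s02 ^ 2 - 2 * s23 * s02 * s03 + s22 * s03 ^ 2) * m00 -
      ((s22 * s33 - s23 ^ 2) * s01 + (s33 * s02 * s12 - s23 * (s02 * s13 + s03 * s12) + s22 * s03 * s13)) * m10
  have k3 : d1 * d2 = β ^ 2 → d1 = 0 ∧ d2 = 0 ∧ β = 0 := by
    intro e
    have e1 : (d1 + d2) ^ 2 = 5 * (2 * β) ^ 2 := by
      have : (d1 + d2) ^ 2 = (d1 - d2) ^ 2 + 4 * (d1 * d2) := by ring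
      rw [this, hF, e]; ring
    have hb : β = 0 := by
      have := Rk3_five e1
      linarith
    have hd : d1 = d2 := by
      have : d1 - d2 = 0 := by rw [hF, hb]; ring
      linarith
    have h0 : d2 = 0 := by
      rw [hd, hb] at e
      have : d2 ^ 2 = 0 := by linarith
      exact pow_eq_zero_iff (two_ne_zero) |>.1 this
    exact ⟨by rw [hd, h0], h0, hb⟩
  by_cases h1 : d1 = 0
  · by_cases h2 : d2 = 0
    · refine ⟨h1, h2, ?_⟩
      rw [h1, h2] at hF
      linarith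
    · apply k3
      rcases mul_eq_zero.1 k2 with h | h
      · exact absurd h h2
      · linarith
  · apply k3
    rcases mul_eq_zero.1 k1 with h | h
    · exact absurd h h1
    · linarith

theorem Rk3_rows {s00 s01 s02 s03 s11 s12 s13 s22 s33 : ℤ} (d1 : s00 * s11 - s01 ^ 2 = 0)
    (hb : s02 * s13 - s03 * s12 = 0)
    (m33 : s00 * (s11 * s22 - s12 * s12) - s01 * (s01 * s22 - s12 * s02) + s02 * (s01 * s12 - s11 * s02) = 0)
    (m22 : s00 * (s11 * s33 - s13 * s13) - s01 * (s01 * s33 - s13 * s03) + s03 * (s01 * s13 - s11 * s03) = 0) :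
    ∃ a b : ℤ, (a ≠ 0 ∨ b ≠ 0) ∧ a * s00 + b * s01 = 0 ∧ a * s01 + b * s11 = 0 ∧ a * s02 + b * s12 = 0 ∧
      a * s03 + b * s13 = 0 := by
  have sq : ∀ t : ℤ, t ^ 2 = 0 → t = 0 := fun t ht => pow_eq_zero_iff (two_ne_zero) |>.1 ht
  have e02 : s00 * s12 - s01 * s02 = 0 := by
    apply sq; linear_combination (s00 * s22 - s02 ^ 2) * d1 - s00 * m33
  have e12 : s01 * s12 - s11 * s02 = 0 := by
    apply sq; linear_combination (s11 * s22 - s12 ^ 2) * d1 - s11 * m33
  have e03 : s00 * s13 - s01 * s03 = 0 := by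
    apply sq; linear_combination (s00 * s33 - s03 ^ 2) * d1 - s00 * m22
  have e13 : s01 * s13 - s11 * s03 = 0 := by
    apply sq; linear_combination (s11 * s33 - s13 ^ 2) * d1 - s11 * m22
  obtain ⟨a, b, hab, h⟩ := Rk3_dep ![s00, s01, s02, s03] ![s01, s11, s12, s13] (by
    intro i j
    fin_cases i <;> fin_cases j <;> simp <;>
      first
        | ring1
        | linear_combination d1
        | linear_combination -d1
        | linear_combination e02
        | linear_combination -e02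
        | linear_combination e12
        | linear_combination -e12
        | linear_combination e03
        | linear_combination -e03
        | linear_combination e13
        | linear_combination -e13
        | linear_combination hb
        | linear_combination -hb)
  have g0 := h 0
  have g1 := h 1
  have g2 := h 2
  have g3 := h 3
  simp at g0 g1 g2 g3
  exact ⟨a, b, hab, g0, g1, g2, g3⟩

/-- **(R3)**: the matrix of a non-zero isotropic vector of `E_P`, `P` non-degenerate, has rank at least three -/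
theorem rk3 {P : Sp} (nd : ∀ v1 v2 w1 w2 : ℤ, (v1 ≠ 0 ∨ v2 ≠ 0) → (w1 ≠ 0 ∨ w2 ≠ 0) → Pf P v1 v2 w1 w2 = 0 →
    Rf P v1 v2 w1 w2 ≠ 0) {x : Fin 10 → ℤ} (hx : x ≠ 0) (hE : InE P x) (hF : PP5L.FF x = 0) :
    (PP5L.SS x).adjugate ≠ 0 := by
  intro h
  have mn := Rk3_minors h
  have h30 : (3 : Fin 4).succAbove 0 = 0 := rfl
  have h31 : (3 : Fin 4).succAbove 1 = 1 := rfl
  have h32 : (3 : Fin 4).succAbove 2 = 2 := rfl
  have h20 : (2 : Fin 4).succAbove 0 = 0 := rfl
  have h21 : (2 : Fin 4).succAbove 1 = 1 := rfl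
  have h22 : (2 : Fin 4).succAbove 2 = 3 := rfl
  have h10 : (1 : Fin 4).succAbove 0 = 0 := rfl
  have h11 : (1 : Fin 4).succAbove 1 = 2 := rfl
  have h12 : (1 : Fin 4).succAbove 2 = 3 := rfl
  have h00 : (0 : Fin 4).succAbove 0 = 1 := rfl
  have h01 : (0 : Fin 4).succAbove 1 = 2 := rfl
  have h02 : (0 : Fin 4).succAbove 2 = 3 := rfl
  have m33 := mn 3 3
  have m22 := mn 2 2
  have m11 := mn 1 1
  have m00 := mn 0 0
  have m32 := mn 3 2
  have m10 := mn 1 0
  simp only [Matrix.det_fin_three, Matrix.submatrix_apply, h30, h31, h32, h20, h21, h22, h10, h11, h12, h00, h01, h02,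
    PP5L.SS, Matrix.of_apply, Matrix.cons_val', Matrix.cons_val_zero, Matrix.cons_val_one, Matrix.cons_val]
    at m33 m22 m11 m00 m32 m10
  have hF' : x 0 * x 2 - x 1 * x 3 - x 4 * x 5 - x 6 * x 9 + x 7 * x 8 = 0 := hF
  obtain ⟨d1, d2, hb⟩ := Rk3_sym (s00 := 2 * x 0) (s01 := -(x 4 + x 5)) (s02 := x 6) (s03 := -(x 8))
    (s11 := 2 * x 2) (s12 := -(x 7)) (s13 := x 9) (s22 := -(2 * x 1)) (s23 := x 4 - x 5) (s33 := -(2 * x 3))
    (by linear_combination m33) (by linear_combination m22) (by linear_combination m11)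
    (by linear_combination m00) (by linear_combination m32) (by linear_combination m10)
    (by linear_combination 4 * hF')
  obtain ⟨a, b, hab, a0, a1, a2, a3⟩ := Rk3_rows (s00 := 2 * x 0) (s01 := -(x 4 + x 5)) (s02 := x 6) (s03 := -(x 8))
    (s11 := 2 * x 2) (s12 := -(x 7)) (s13 := x 9) (s22 := -(2 * x 1)) (s33 := -(2 * x 3)) d1 hb
    (by linear_combination m33) (by linear_combination m22)
  obtain ⟨c, d, hcd, c0, c1, c2, c3⟩ := Rk3_rows (s00 := -(2 * x 1)) (s01 := x 4 - x 5) (s02 := x 6) (s03 := -(x 7))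
    (s11 := -(2 * x 3)) (s12 := -(x 8)) (s13 := x 9) (s22 := 2 * x 0) (s33 := 2 * x 2) d2
    (by linear_combination hb)
    (by linear_combination m11) (by linear_combination m00)
  have hpq : (a : ℚ) ≠ 0 ∨ ((-b : ℤ) : ℚ) ≠ 0 := by
    rcases hab with h | h
    · exact Or.inl (by exact_mod_cast h)
    · exact Or.inr (by exact_mod_cast neg_ne_zero.2 h)
  have hrs : (c : ℚ) ≠ 0 ∨ ((-d : ℤ) : ℚ) ≠ 0 := by
    rcases hcd with h | h
    · exact Or.inl (by exact_mod_cast h)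
    · exact Or.inr (by exact_mod_cast neg_ne_zero.2 h)
  obtain ⟨l, l0, la, l2⟩ := Rk3_lam (x := (x 0 : ℚ)) (a := ((x 4 + x 5 : ℤ) : ℚ)) (z := (x 2 : ℚ)) hpq
    (by have : ((a * (2 * x 0) + b * -(x 4 + x 5) : ℤ) : ℚ) = 0 := by rw [a0]; rfl
        push_cast at this ⊢; linarith)
    (by have : ((a * -(x 4 + x 5) + b * (2 * x 2) : ℤ) : ℚ) = 0 := by rw [a1]; rfl
        push_cast at this ⊢; linarith)
  obtain ⟨m, n1, nb, n3⟩ := Rk3_lam (x := (x 1 : ℚ)) (a := ((x 4 - x 5 : ℤ) : ℚ)) (z := (x 3 : ℚ)) hrs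
    (by have : ((c * -(2 * x 1) + d * (x 4 - x 5) : ℤ) : ℚ) = 0 := by rw [c0]; rfl
        push_cast at this ⊢; linarith)
    (by have : ((c * (x 4 - x 5) + d * -(2 * x 3) : ℤ) : ℚ) = 0 := by rw [c1]; rfl
        push_cast at this ⊢; linarith)
  obtain ⟨n, q6, q7, q8, q9⟩ := Rk3_nu (a := (x 6 : ℚ)) (b := (x 7 : ℚ)) (c := (x 8 : ℚ)) (d := (x 9 : ℚ)) hpq hrs
    (by have : ((a * x 6 + b * -(x 7) : ℤ) : ℚ) = 0 := by rw [a2]; rfl
        push_cast at this ⊢; linarith)
    (by have : ((a * -(x 8) + b * x 9 : ℤ) : ℚ) = 0 := by rw [a3]; rfl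
        push_cast at this ⊢; linarith)
    (by have : ((c * x 6 + d * -(x 8) : ℤ) : ℚ) = 0 := by rw [c2]; rfl
        push_cast at this ⊢; linarith)
    (by have : ((c * -(x 7) + d * x 9 : ℤ) : ℚ) = 0 := by rw [c3]; rfl
        push_cast at this ⊢; linarith)
  have x4 : (x 4 : ℚ) = -(l * a * ((-b : ℤ) : ℚ)) - m * c * ((-d : ℤ) : ℚ) := by
    push_cast at la nb ⊢; linarith
  have x5 : (x 5 : ℚ) = -(l * a * ((-b : ℤ) : ℚ)) + m * c * ((-d : ℤ) : ℚ) := by
    push_cast at la nb ⊢; linarith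
  have hlmn : l ≠ 0 ∨ m ≠ 0 ∨ n ≠ 0 := by
    by_contra hc
    push Not at hc
    obtain ⟨hl, hm, hn⟩ := hc
    subst hl hm hn
    apply hx
    have z : ∀ t : ℤ, (t : ℚ) = 0 → t = 0 := fun t ht => by exact_mod_cast ht
    funext j
    fin_cases j
    · exact z (x 0) (by rw [l0]; ring)
    · exact z (x 1) (by rw [n1]; ring)
    · exact z (x 2) (by rw [l2]; ring)
    · exact z (x 3) (by rw [n3]; ring)
    · exact z (x 4) (by rw [x4]; ring)
    · exact z (x 5) (by rw [x5]; ring)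
    · exact z (x 6) (by rw [q6]; ring)
    · exact z (x 7) (by rw [q7]; ring)
    · exact z (x 8) (by rw [q8]; ring)
    · exact z (x 9) (by rw [q9]; ring)
  obtain ⟨hP, hR⟩ := Rk3_core (P := fun i => (P i : ℚ)) hpq hrs hlmn l0 n1 l2 n3 x4 x5 q6 q7 q8 q9
    (by exact_mod_cast hE.e1) (by exact_mod_cast hE.e2) (by exact_mod_cast hE.e3) (by exact_mod_cast hE.e4)
    (by exact_mod_cast hE.e5) (by exact_mod_cast hE.e6) (by exact_mod_cast hE.e7) (by exact_mod_cast hE.e8)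
    (by exact_mod_cast hE.e9) (by exact_mod_cast hE.e10) (by exact_mod_cast hE.e11) (by exact_mod_cast hE.e12)
    (by exact_mod_cast hE.e13) (by exact_mod_cast hE.e14) (by exact_mod_cast hE.e15) (by exact_mod_cast hE.e16)
  refine nd a (-b) c (-d) ?_ ?_ ?_ ?_
  · rcases hab with h | h
    · exact Or.inl h
    · exact Or.inr (neg_ne_zero.2 h)
  · rcases hcd with h | h
    · exact Or.inl h
    · exact Or.inr (neg_ne_zero.2 h)
  · have : ((Pf P a (-b) c (-d) : ℤ) : ℚ) = 0 := by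
      unfold Pf; push_cast at hP ⊢; linarith
    exact_mod_cast this
  · have : ((Rf P a (-b) c (-d) : ℤ) : ℚ) = 0 := by
      unfold Rf; push_cast at hR ⊢; linarith
    exact_mod_cast this

end Pool.Agent.PP5G
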