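import Pool.Agent.PP5.EF

/-!
# PP5 (D'): Lemma LN (short vectors of `E_P` when `P` lies in an isotropic plane).  Definitions

`W B2 i` (`i : Fin 5`) are the five coordinates, as linear forms in `t : Fin 3 → ℚ`, of the vectors of the kernel of
the skew rank two matrix `B2` (pivot `B2 3 4 ≠ 0`); `Lr g B1 B2` are these five forms and the five forms `B1 w / g`.
-/

set_option autoImplicit false

namespace Pool.Agent.PP5G

open Pool.Agent.PP5

/-- the coordinates of the kernel of `B2` as linear forms in the first three coordinates -/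
def Wr (B2 : Fin 5 → Fin 5 → ℤ) : Fin 5 → Fin 3 → ℚ :=
  ![![1, 0, 0], ![0, 1, 0], ![0, 0, 1],
    ![(B2 4 0 : ℚ) / B2 3 4, (B2 4 1 : ℚ) / B2 3 4, (B2 4 2 : ℚ) / B2 3 4],
    ![-(B2 3 0 : ℚ) / B2 3 4, -(B2 3 1 : ℚ) / B2 3 4, -(B2 3 2 : ℚ) / B2 3 4]]

/-- the ten linear forms `w i`, `(B1 w) m / g` -/
def Lr (g : ℤ) (B1 B2 : Fin 5 → Fin 5 → ℤ) : Fin 5 ⊕ Fin 5 → Fin 3 → ℚ :=
  Sum.elim (Wr B2) (fun m k => (∑ j, (B1 m j : ℚ) * Wr B2 j k) / g)

/-- the polarised Pfaffian -/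
def Pp (B C : Fin 5 → Fin 5 → ℤ) (i j k l : Fin 5) : ℤ :=
  B i j * C k l + C i j * B k l - B i k * C j l - C i k * B j l + B i l * C j k + C i l * B j k

theorem Pf_add (B C : Fin 5 → Fin 5 → ℤ) (i j k l : Fin 5) :
    Pf5 (fun a b => B a b + C a b) i j k l = Pf5 B i j k l + Pf5 C i j k l + Pp B C i j k l := by
  unfold Pf5 Pp; ring

end Pool.Agent.PP5G
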