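import Pool.Agent.PP5G.Defs

/-!
# PP5G/SkA: the 3 x 3 minors of the ten linear forms have denominator dividing `g * B2 3 4`
-/

set_option autoImplicit false

namespace Pool.Agent.PP5G

open Pool.Agent.PP5

/-- the trilinear form `det` -/
private def skA_T (x y z : Fin 3 → ℚ) : ℚ :=
  x 0 * y 1 * z 2 - x 0 * y 2 * z 1 - x 1 * y 0 * z 2 + x 1 * y 2 * z 0 + x 2 * y 0 * z 1 - x 2 * y 1 * z 0

/-- the table of the `3 x 3` minors -/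
private def skA_dd (B : Fin 5 → Fin 5 → ℤ) : Fin 5 → Fin 5 → Fin 5 → ℤ :=
  ![![![0, 0, 0, 0, 0],
      ![0, 0, B 3 4, -B 2 4, B 2 3],
      ![0, -B 3 4, 0, B 1 4, -B 1 3],
      ![0, B 2 4, -B 1 4, 0, B 1 2],
      ![0, -B 2 3, B 1 3, -B 1 2, 0]],
    ![![0, 0, -B 3 4, B 2 4, -B 2 3],
      ![0, 0, 0, 0, 0],
      ![B 3 4, 0, 0, -B 0 4, B 0 3],
      ![-B 2 4, 0, B 0 4, 0, -B 0 2],
      ![B 2 3, 0, -B 0 3, B 0 2, 0]],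
    ![![0, B 3 4, 0, -B 1 4, B 1 3],
      ![-B 3 4, 0, 0, B 0 4, -B 0 3],
      ![0, 0, 0, 0, 0],
      ![B 1 4, -B 0 4, 0, 0, B 0 1],
      ![-B 1 3, B 0 3, 0, -B 0 1, 0]],
    ![![0, -B 2 4, B 1 4, 0, -B 1 2],
      ![B 2 4, 0, -B 0 4, 0, B 0 2],
      ![-B 1 4, B 0 4, 0, 0, -B 0 1],
      ![0, 0, 0, 0, 0],
      ![B 1 2, -B 0 2, B 0 1, 0, 0]],
    ![![0, B 2 3, -B 1 3, B 1 2, 0],
      ![-B 2 3, 0, B 0 3, -B 0 2, 0],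
      ![B 1 3, -B 0 3, 0, B 0 1, 0],
      ![-B 1 2, B 0 2, -B 0 1, 0, 0],
      ![0, 0, 0, 0, 0]]]

private theorem skA_cyc (B : Fin 5 → Fin 5 → ℤ) (i j k : Fin 5) : skA_dd B i j k = skA_dd B j k i := by
  fin_cases i <;> fin_cases j <;> fin_cases k
  · exact (rfl : (0 : ℤ) = 0)
  · exact (rfl : (0 : ℤ) = 0)
  · exact (rfl : (0 : ℤ) = 0)
  · exact (rfl : (0 : ℤ) = 0)
  · exact (rfl : (0 : ℤ) = 0)
  · exact (rfl : (0 : ℤ) = 0)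
  · exact (rfl : (0 : ℤ) = 0)
  · exact (rfl : (B 3 4 : ℤ) = B 3 4)
  · exact (rfl : (-B 2 4 : ℤ) = -B 2 4)
  · exact (rfl : (B 2 3 : ℤ) = B 2 3)
  · exact (rfl : (0 : ℤ) = 0)
  · exact (rfl : (-B 3 4 : ℤ) = -B 3 4)
  · exact (rfl : (0 : ℤ) = 0)
  · exact (rfl : (B 1 4 : ℤ) = B 1 4)
  · exact (rfl : (-B 1 3 : ℤ) = -B 1 3)
  · exact (rfl : (0 : ℤ) = 0)
  · exact (rfl : (B 2 4 : ℤ) = B 2 4)
  · exact (rfl : (-B 1 4 : ℤ) = -B 1 4)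
  · exact (rfl : (0 : ℤ) = 0)
  · exact (rfl : (B 1 2 : ℤ) = B 1 2)
  · exact (rfl : (0 : ℤ) = 0)
  · exact (rfl : (-B 2 3 : ℤ) = -B 2 3)
  · exact (rfl : (B 1 3 : ℤ) = B 1 3)
  · exact (rfl : (-B 1 2 : ℤ) = -B 1 2)
  · exact (rfl : (0 : ℤ) = 0)
  · exact (rfl : (0 : ℤ) = 0)
  · exact (rfl : (0 : ℤ) = 0)
  · exact (rfl : (-B 3 4 : ℤ) = -B 3 4)
  · exact (rfl : (B 2 4 : ℤ) = B 2 4)
  · exact (rfl : (-B 2 3 : ℤ) = -B 2 3)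
  · exact (rfl : (0 : ℤ) = 0)
  · exact (rfl : (0 : ℤ) = 0)
  · exact (rfl : (0 : ℤ) = 0)
  · exact (rfl : (0 : ℤ) = 0)
  · exact (rfl : (0 : ℤ) = 0)
  · exact (rfl : (B 3 4 : ℤ) = B 3 4)
  · exact (rfl : (0 : ℤ) = 0)
  · exact (rfl : (0 : ℤ) = 0)
  · exact (rfl : (-B 0 4 : ℤ) = -B 0 4)
  · exact (rfl : (B 0 3 : ℤ) = B 0 3)
  · exact (rfl : (-B 2 4 : ℤ) = -B 2 4)
  · exact (rfl : (0 : ℤ) = 0)
  · exact (rfl : (B 0 4 : ℤ) = B 0 4)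
  · exact (rfl : (0 : ℤ) = 0)
  · exact (rfl : (-B 0 2 : ℤ) = -B 0 2)
  · exact (rfl : (B 2 3 : ℤ) = B 2 3)
  · exact (rfl : (0 : ℤ) = 0)
  · exact (rfl : (-B 0 3 : ℤ) = -B 0 3)
  · exact (rfl : (B 0 2 : ℤ) = B 0 2)
  · exact (rfl : (0 : ℤ) = 0)
  · exact (rfl : (0 : ℤ) = 0)
  · exact (rfl : (B 3 4 : ℤ) = B 3 4)
  · exact (rfl : (0 : ℤ) = 0)
  · exact (rfl : (-B 1 4 : ℤ) = -B 1 4)
  · exact (rfl : (B 1 3 : ℤ) = B 1 3)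
  · exact (rfl : (-B 3 4 : ℤ) = -B 3 4)
  · exact (rfl : (0 : ℤ) = 0)
  · exact (rfl : (0 : ℤ) = 0)
  · exact (rfl : (B 0 4 : ℤ) = B 0 4)
  · exact (rfl : (-B 0 3 : ℤ) = -B 0 3)
  · exact (rfl : (0 : ℤ) = 0)
  · exact (rfl : (0 : ℤ) = 0)
  · exact (rfl : (0 : ℤ) = 0)
  · exact (rfl : (0 : ℤ) = 0)
  · exact (rfl : (0 : ℤ) = 0)
  · exact (rfl : (B 1 4 : ℤ) = B 1 4)
  · exact (rfl : (-B 0 4 : ℤ) = -B 0 4)
  · exact (rfl : (0 : ℤ) = 0)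
  · exact (rfl : (0 : ℤ) = 0)
  · exact (rfl : (B 0 1 : ℤ) = B 0 1)
  · exact (rfl : (-B 1 3 : ℤ) = -B 1 3)
  · exact (rfl : (B 0 3 : ℤ) = B 0 3)
  · exact (rfl : (0 : ℤ) = 0)
  · exact (rfl : (-B 0 1 : ℤ) = -B 0 1)
  · exact (rfl : (0 : ℤ) = 0)
  · exact (rfl : (0 : ℤ) = 0)
  · exact (rfl : (-B 2 4 : ℤ) = -B 2 4)
  · exact (rfl : (B 1 4 : ℤ) = B 1 4)
  · exact (rfl : (0 : ℤ) = 0)
  · exact (rfl : (-B 1 2 : ℤ) = -B 1 2)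
  · exact (rfl : (B 2 4 : ℤ) = B 2 4)
  · exact (rfl : (0 : ℤ) = 0)
  · exact (rfl : (-B 0 4 : ℤ) = -B 0 4)
  · exact (rfl : (0 : ℤ) = 0)
  · exact (rfl : (B 0 2 : ℤ) = B 0 2)
  · exact (rfl : (-B 1 4 : ℤ) = -B 1 4)
  · exact (rfl : (B 0 4 : ℤ) = B 0 4)
  · exact (rfl : (0 : ℤ) = 0)
  · exact (rfl : (0 : ℤ) = 0)
  · exact (rfl : (-B 0 1 : ℤ) = -B 0 1)
  · exact (rfl : (0 : ℤ) = 0)
  · exact (rfl : (0 : ℤ) = 0)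
  · exact (rfl : (0 : ℤ) = 0)
  · exact (rfl : (0 : ℤ) = 0)
  · exact (rfl : (0 : ℤ) = 0)
  · exact (rfl : (B 1 2 : ℤ) = B 1 2)
  · exact (rfl : (-B 0 2 : ℤ) = -B 0 2)
  · exact (rfl : (B 0 1 : ℤ) = B 0 1)
  · exact (rfl : (0 : ℤ) = 0)
  · exact (rfl : (0 : ℤ) = 0)
  · exact (rfl : (0 : ℤ) = 0)
  · exact (rfl : (B 2 3 : ℤ) = B 2 3)
  · exact (rfl : (-B 1 3 : ℤ) = -B 1 3)
  · exact (rfl : (B 1 2 : ℤ) = B 1 2)
  · exact (rfl : (0 : ℤ) = 0)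
  · exact (rfl : (-B 2 3 : ℤ) = -B 2 3)
  · exact (rfl : (0 : ℤ) = 0)
  · exact (rfl : (B 0 3 : ℤ) = B 0 3)
  · exact (rfl : (-B 0 2 : ℤ) = -B 0 2)
  · exact (rfl : (0 : ℤ) = 0)
  · exact (rfl : (B 1 3 : ℤ) = B 1 3)
  · exact (rfl : (-B 0 3 : ℤ) = -B 0 3)
  · exact (rfl : (0 : ℤ) = 0)
  · exact (rfl : (B 0 1 : ℤ) = B 0 1)
  · exact (rfl : (0 : ℤ) = 0)
  · exact (rfl : (-B 1 2 : ℤ) = -B 1 2)
  · exact (rfl : (B 0 2 : ℤ) = B 0 2)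
  · exact (rfl : (-B 0 1 : ℤ) = -B 0 1)
  · exact (rfl : (0 : ℤ) = 0)
  · exact (rfl : (0 : ℤ) = 0)
  · exact (rfl : (0 : ℤ) = 0)
  · exact (rfl : (0 : ℤ) = 0)
  · exact (rfl : (0 : ℤ) = 0)
  · exact (rfl : (0 : ℤ) = 0)
  · exact (rfl : (0 : ℤ) = 0)


private theorem skA_T213 (x y z : Fin 3 → ℚ) : skA_T y x z = -skA_T x y z := by
  unfold skA_T; ring

private theorem skA_T132 (x y z : Fin 3 → ℚ) : skA_T x z y = -skA_T x y z := by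
  unfold skA_T; ring

private theorem skA_T321 (x y z : Fin 3 → ℚ) : skA_T z y x = -skA_T x y z := by
  unfold skA_T; ring

private theorem skA_T231 (x y z : Fin 3 → ℚ) : skA_T y z x = skA_T x y z := by
  unfold skA_T; ring

private theorem skA_T312 (x y z : Fin 3 → ℚ) : skA_T z x y = skA_T x y z := by
  unfold skA_T; ring

private theorem skA_Txxz (x z : Fin 3 → ℚ) : skA_T x x z = 0 := by
  unfold skA_T; ring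

private theorem skA_Txzx (x z : Fin 3 → ℚ) : skA_T x z x = 0 := by
  unfold skA_T; ring

private theorem skA_Tzxx (x z : Fin 3 → ℚ) : skA_T z x x = 0 := by
  unfold skA_T; ring

private theorem skA_one {B : Fin 5 → Fin 5 → ℤ} (h : Skew B) (hb : B 3 4 ≠ 0) (hp : ∀ i j k l, Pf5 B i j k l = 0)
    (i j k : Fin 5) : (B 3 4 : ℚ) * skA_T (Wr B i) (Wr B j) (Wr B k) = skA_dd B i j k := by
  have hb' : (B 3 4 : ℚ) ≠ 0 := by exact_mod_cast hb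
  have p01 : (B 3 4 : ℚ) * B 0 1 - B 3 0 * B 4 1 + B 3 1 * B 4 0 = 0 := by
    have := hp 3 4 0 1; unfold Pf5 at this; exact_mod_cast this
  have p02 : (B 3 4 : ℚ) * B 0 2 - B 3 0 * B 4 2 + B 3 2 * B 4 0 = 0 := by
    have := hp 3 4 0 2; unfold Pf5 at this; exact_mod_cast this
  have p12 : (B 3 4 : ℚ) * B 1 2 - B 3 1 * B 4 2 + B 3 2 * B 4 1 = 0 := by
    have := hp 3 4 1 2; unfold Pf5 at this; exact_mod_cast this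
  have s30 : B 3 0 = - B 0 3 := h 3 0
  have s31 : B 3 1 = - B 1 3 := h 3 1
  have s32 : B 3 2 = - B 2 3 := h 3 2
  have s40 : B 4 0 = - B 0 4 := h 4 0
  have s41 : B 4 1 = - B 1 4 := h 4 1
  have s42 : B 4 2 = - B 2 4 := h 4 2
  rw [s30, s31, s40, s41] at p01
  rw [s30, s32, s40, s42] at p02
  rw [s31, s32, s41, s42] at p12
  push_cast at p01 p02 p12
  have e012 : (B 3 4 : ℚ) * skA_T (Wr B 0) (Wr B 1) (Wr B 2) = ((B 3 4 : ℤ) : ℚ) := by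
    simp [skA_T, Wr, s30, s31, s32, s40, s41, s42, -mul_eq_zero]
    try field_simp
    try first | done | ring1 | linear_combination p01 | linear_combination -p01 | linear_combination p02 | linear_combination -p02 | linear_combination p12 | linear_combination -p12
  have e013 : (B 3 4 : ℚ) * skA_T (Wr B 0) (Wr B 1) (Wr B 3) = ((-B 2 4 : ℤ) : ℚ) := by
    simp [skA_T, Wr, s30, s31, s32, s40, s41, s42, -mul_eq_zero]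
    try field_simp
    try first | done | ring1 | linear_combination p01 | linear_combination -p01 | linear_combination p02 | linear_combination -p02 | linear_combination p12 | linear_combination -p12
  have e014 : (B 3 4 : ℚ) * skA_T (Wr B 0) (Wr B 1) (Wr B 4) = ((B 2 3 : ℤ) : ℚ) := by
    simp [skA_T, Wr, s30, s31, s32, s40, s41, s42, -mul_eq_zero]
    try field_simp
    try first | done | ring1 | linear_combination p01 | linear_combination -p01 | linear_combination p02 | linear_combination -p02 | linear_combination p12 | linear_combination -p12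
  have e023 : (B 3 4 : ℚ) * skA_T (Wr B 0) (Wr B 2) (Wr B 3) = ((B 1 4 : ℤ) : ℚ) := by
    simp [skA_T, Wr, s30, s31, s32, s40, s41, s42, -mul_eq_zero]
    try field_simp
    try first | done | ring1 | linear_combination p01 | linear_combination -p01 | linear_combination p02 | linear_combination -p02 | linear_combination p12 | linear_combination -p12
  have e024 : (B 3 4 : ℚ) * skA_T (Wr B 0) (Wr B 2) (Wr B 4) = ((-B 1 3 : ℤ) : ℚ) := by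
    simp [skA_T, Wr, s30, s31, s32, s40, s41, s42, -mul_eq_zero]
    try field_simp
    try first | done | ring1 | linear_combination p01 | linear_combination -p01 | linear_combination p02 | linear_combination -p02 | linear_combination p12 | linear_combination -p12
  have e034 : (B 3 4 : ℚ) * skA_T (Wr B 0) (Wr B 3) (Wr B 4) = ((B 1 2 : ℤ) : ℚ) := by
    simp [skA_T, Wr, s30, s31, s32, s40, s41, s42, -mul_eq_zero]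
    try field_simp
    try first | done | ring1 | linear_combination p01 | linear_combination -p01 | linear_combination p02 | linear_combination -p02 | linear_combination p12 | linear_combination -p12
  have e123 : (B 3 4 : ℚ) * skA_T (Wr B 1) (Wr B 2) (Wr B 3) = ((-B 0 4 : ℤ) : ℚ) := by
    simp [skA_T, Wr, s30, s31, s32, s40, s41, s42, -mul_eq_zero]
    try field_simp
    try first | done | ring1 | linear_combination p01 | linear_combination -p01 | linear_combination p02 | linear_combination -p02 | linear_combination p12 | linear_combination -p12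
  have e124 : (B 3 4 : ℚ) * skA_T (Wr B 1) (Wr B 2) (Wr B 4) = ((B 0 3 : ℤ) : ℚ) := by
    simp [skA_T, Wr, s30, s31, s32, s40, s41, s42, -mul_eq_zero]
    try field_simp
    try first | done | ring1 | linear_combination p01 | linear_combination -p01 | linear_combination p02 | linear_combination -p02 | linear_combination p12 | linear_combination -p12
  have e134 : (B 3 4 : ℚ) * skA_T (Wr B 1) (Wr B 3) (Wr B 4) = ((-B 0 2 : ℤ) : ℚ) := by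
    simp [skA_T, Wr, s30, s31, s32, s40, s41, s42, -mul_eq_zero]
    try field_simp
    try first | done | ring1 | linear_combination p01 | linear_combination -p01 | linear_combination p02 | linear_combination -p02 | linear_combination p12 | linear_combination -p12
  have e234 : (B 3 4 : ℚ) * skA_T (Wr B 2) (Wr B 3) (Wr B 4) = ((B 0 1 : ℤ) : ℚ) := by
    simp [skA_T, Wr, s30, s31, s32, s40, s41, s42, -mul_eq_zero]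
    try field_simp
    try first | done | ring1 | linear_combination p01 | linear_combination -p01 | linear_combination p02 | linear_combination -p02 | linear_combination p12 | linear_combination -p12
  fin_cases i <;> fin_cases j <;> fin_cases k
  · show (B 3 4 : ℚ) * skA_T (Wr B 0) (Wr B 0) (Wr B 0) = ((0 : ℤ) : ℚ)
    rw [skA_Txxz, mul_zero, Int.cast_zero]
  · show (B 3 4 : ℚ) * skA_T (Wr B 0) (Wr B 0) (Wr B 1) = ((0 : ℤ) : ℚ)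
    rw [skA_Txxz, mul_zero, Int.cast_zero]
  · show (B 3 4 : ℚ) * skA_T (Wr B 0) (Wr B 0) (Wr B 2) = ((0 : ℤ) : ℚ)
    rw [skA_Txxz, mul_zero, Int.cast_zero]
  · show (B 3 4 : ℚ) * skA_T (Wr B 0) (Wr B 0) (Wr B 3) = ((0 : ℤ) : ℚ)
    rw [skA_Txxz, mul_zero, Int.cast_zero]
  · show (B 3 4 : ℚ) * skA_T (Wr B 0) (Wr B 0) (Wr B 4) = ((0 : ℤ) : ℚ)
    rw [skA_Txxz, mul_zero, Int.cast_zero]
  · show (B 3 4 : ℚ) * skA_T (Wr B 0) (Wr B 1) (Wr B 0) = ((0 : ℤ) : ℚ)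
    rw [skA_Txzx, mul_zero, Int.cast_zero]
  · show (B 3 4 : ℚ) * skA_T (Wr B 0) (Wr B 1) (Wr B 1) = ((0 : ℤ) : ℚ)
    rw [skA_Tzxx, mul_zero, Int.cast_zero]
  · show (B 3 4 : ℚ) * skA_T (Wr B 0) (Wr B 1) (Wr B 2) = ((B 3 4 : ℤ) : ℚ)
    exact e012
  · show (B 3 4 : ℚ) * skA_T (Wr B 0) (Wr B 1) (Wr B 3) = ((-B 2 4 : ℤ) : ℚ)
    exact e013
  · show (B 3 4 : ℚ) * skA_T (Wr B 0) (Wr B 1) (Wr B 4) = ((B 2 3 : ℤ) : ℚ)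
    exact e014
  · show (B 3 4 : ℚ) * skA_T (Wr B 0) (Wr B 2) (Wr B 0) = ((0 : ℤ) : ℚ)
    rw [skA_Txzx, mul_zero, Int.cast_zero]
  · show (B 3 4 : ℚ) * skA_T (Wr B 0) (Wr B 2) (Wr B 1) = ((-B 3 4 : ℤ) : ℚ)
    rw [skA_T132, mul_neg, e012, Int.cast_neg]
  · show (B 3 4 : ℚ) * skA_T (Wr B 0) (Wr B 2) (Wr B 2) = ((0 : ℤ) : ℚ)
    rw [skA_Tzxx, mul_zero, Int.cast_zero]
  · show (B 3 4 : ℚ) * skA_T (Wr B 0) (Wr B 2) (Wr B 3) = ((B 1 4 : ℤ) : ℚ)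
    exact e023
  · show (B 3 4 : ℚ) * skA_T (Wr B 0) (Wr B 2) (Wr B 4) = ((-B 1 3 : ℤ) : ℚ)
    exact e024
  · show (B 3 4 : ℚ) * skA_T (Wr B 0) (Wr B 3) (Wr B 0) = ((0 : ℤ) : ℚ)
    rw [skA_Txzx, mul_zero, Int.cast_zero]
  · show (B 3 4 : ℚ) * skA_T (Wr B 0) (Wr B 3) (Wr B 1) = ((B 2 4 : ℤ) : ℚ)
    rw [skA_T132, mul_neg, e013, Int.cast_neg, neg_neg]
  · show (B 3 4 : ℚ) * skA_T (Wr B 0) (Wr B 3) (Wr B 2) = ((-B 1 4 : ℤ) : ℚ)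
    rw [skA_T132, mul_neg, e023, Int.cast_neg]
  · show (B 3 4 : ℚ) * skA_T (Wr B 0) (Wr B 3) (Wr B 3) = ((0 : ℤ) : ℚ)
    rw [skA_Tzxx, mul_zero, Int.cast_zero]
  · show (B 3 4 : ℚ) * skA_T (Wr B 0) (Wr B 3) (Wr B 4) = ((B 1 2 : ℤ) : ℚ)
    exact e034
  · show (B 3 4 : ℚ) * skA_T (Wr B 0) (Wr B 4) (Wr B 0) = ((0 : ℤ) : ℚ)
    rw [skA_Txzx, mul_zero, Int.cast_zero]
  · show (B 3 4 : ℚ) * skA_T (Wr B 0) (Wr B 4) (Wr B 1) = ((-B 2 3 : ℤ) : ℚ)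
    rw [skA_T132, mul_neg, e014, Int.cast_neg]
  · show (B 3 4 : ℚ) * skA_T (Wr B 0) (Wr B 4) (Wr B 2) = ((B 1 3 : ℤ) : ℚ)
    rw [skA_T132, mul_neg, e024, Int.cast_neg, neg_neg]
  · show (B 3 4 : ℚ) * skA_T (Wr B 0) (Wr B 4) (Wr B 3) = ((-B 1 2 : ℤ) : ℚ)
    rw [skA_T132, mul_neg, e034, Int.cast_neg]
  · show (B 3 4 : ℚ) * skA_T (Wr B 0) (Wr B 4) (Wr B 4) = ((0 : ℤ) : ℚ)
    rw [skA_Tzxx, mul_zero, Int.cast_zero]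
  · show (B 3 4 : ℚ) * skA_T (Wr B 1) (Wr B 0) (Wr B 0) = ((0 : ℤ) : ℚ)
    rw [skA_Tzxx, mul_zero, Int.cast_zero]
  · show (B 3 4 : ℚ) * skA_T (Wr B 1) (Wr B 0) (Wr B 1) = ((0 : ℤ) : ℚ)
    rw [skA_Txzx, mul_zero, Int.cast_zero]
  · show (B 3 4 : ℚ) * skA_T (Wr B 1) (Wr B 0) (Wr B 2) = ((-B 3 4 : ℤ) : ℚ)
    rw [skA_T213, mul_neg, e012, Int.cast_neg]
  · show (B 3 4 : ℚ) * skA_T (Wr B 1) (Wr B 0) (Wr B 3) = ((B 2 4 : ℤ) : ℚ)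
    rw [skA_T213, mul_neg, e013, Int.cast_neg, neg_neg]
  · show (B 3 4 : ℚ) * skA_T (Wr B 1) (Wr B 0) (Wr B 4) = ((-B 2 3 : ℤ) : ℚ)
    rw [skA_T213, mul_neg, e014, Int.cast_neg]
  · show (B 3 4 : ℚ) * skA_T (Wr B 1) (Wr B 1) (Wr B 0) = ((0 : ℤ) : ℚ)
    rw [skA_Txxz, mul_zero, Int.cast_zero]
  · show (B 3 4 : ℚ) * skA_T (Wr B 1) (Wr B 1) (Wr B 1) = ((0 : ℤ) : ℚ)
    rw [skA_Txxz, mul_zero, Int.cast_zero]
  · show (B 3 4 : ℚ) * skA_T (Wr B 1) (Wr B 1) (Wr B 2) = ((0 : ℤ) : ℚ)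
    rw [skA_Txxz, mul_zero, Int.cast_zero]
  · show (B 3 4 : ℚ) * skA_T (Wr B 1) (Wr B 1) (Wr B 3) = ((0 : ℤ) : ℚ)
    rw [skA_Txxz, mul_zero, Int.cast_zero]
  · show (B 3 4 : ℚ) * skA_T (Wr B 1) (Wr B 1) (Wr B 4) = ((0 : ℤ) : ℚ)
    rw [skA_Txxz, mul_zero, Int.cast_zero]
  · show (B 3 4 : ℚ) * skA_T (Wr B 1) (Wr B 2) (Wr B 0) = ((B 3 4 : ℤ) : ℚ)
    rw [skA_T231]; exact e012
  · show (B 3 4 : ℚ) * skA_T (Wr B 1) (Wr B 2) (Wr B 1) = ((0 : ℤ) : ℚ)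
    rw [skA_Txzx, mul_zero, Int.cast_zero]
  · show (B 3 4 : ℚ) * skA_T (Wr B 1) (Wr B 2) (Wr B 2) = ((0 : ℤ) : ℚ)
    rw [skA_Tzxx, mul_zero, Int.cast_zero]
  · show (B 3 4 : ℚ) * skA_T (Wr B 1) (Wr B 2) (Wr B 3) = ((-B 0 4 : ℤ) : ℚ)
    exact e123
  · show (B 3 4 : ℚ) * skA_T (Wr B 1) (Wr B 2) (Wr B 4) = ((B 0 3 : ℤ) : ℚ)
    exact e124
  · show (B 3 4 : ℚ) * skA_T (Wr B 1) (Wr B 3) (Wr B 0) = ((-B 2 4 : ℤ) : ℚ)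
    rw [skA_T231]; exact e013
  · show (B 3 4 : ℚ) * skA_T (Wr B 1) (Wr B 3) (Wr B 1) = ((0 : ℤ) : ℚ)
    rw [skA_Txzx, mul_zero, Int.cast_zero]
  · show (B 3 4 : ℚ) * skA_T (Wr B 1) (Wr B 3) (Wr B 2) = ((B 0 4 : ℤ) : ℚ)
    rw [skA_T132, mul_neg, e123, Int.cast_neg, neg_neg]
  · show (B 3 4 : ℚ) * skA_T (Wr B 1) (Wr B 3) (Wr B 3) = ((0 : ℤ) : ℚ)
    rw [skA_Tzxx, mul_zero, Int.cast_zero]
  · show (B 3 4 : ℚ) * skA_T (Wr B 1) (Wr B 3) (Wr B 4) = ((-B 0 2 : ℤ) : ℚ)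
    exact e134
  · show (B 3 4 : ℚ) * skA_T (Wr B 1) (Wr B 4) (Wr B 0) = ((B 2 3 : ℤ) : ℚ)
    rw [skA_T231]; exact e014
  · show (B 3 4 : ℚ) * skA_T (Wr B 1) (Wr B 4) (Wr B 1) = ((0 : ℤ) : ℚ)
    rw [skA_Txzx, mul_zero, Int.cast_zero]
  · show (B 3 4 : ℚ) * skA_T (Wr B 1) (Wr B 4) (Wr B 2) = ((-B 0 3 : ℤ) : ℚ)
    rw [skA_T132, mul_neg, e124, Int.cast_neg]
  · show (B 3 4 : ℚ) * skA_T (Wr B 1) (Wr B 4) (Wr B 3) = ((B 0 2 : ℤ) : ℚ)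
    rw [skA_T132, mul_neg, e134, Int.cast_neg, neg_neg]
  · show (B 3 4 : ℚ) * skA_T (Wr B 1) (Wr B 4) (Wr B 4) = ((0 : ℤ) : ℚ)
    rw [skA_Tzxx, mul_zero, Int.cast_zero]
  · show (B 3 4 : ℚ) * skA_T (Wr B 2) (Wr B 0) (Wr B 0) = ((0 : ℤ) : ℚ)
    rw [skA_Tzxx, mul_zero, Int.cast_zero]
  · show (B 3 4 : ℚ) * skA_T (Wr B 2) (Wr B 0) (Wr B 1) = ((B 3 4 : ℤ) : ℚ)
    rw [skA_T312]; exact e012
  · show (B 3 4 : ℚ) * skA_T (Wr B 2) (Wr B 0) (Wr B 2) = ((0 : ℤ) : ℚ)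
    rw [skA_Txzx, mul_zero, Int.cast_zero]
  · show (B 3 4 : ℚ) * skA_T (Wr B 2) (Wr B 0) (Wr B 3) = ((-B 1 4 : ℤ) : ℚ)
    rw [skA_T213, mul_neg, e023, Int.cast_neg]
  · show (B 3 4 : ℚ) * skA_T (Wr B 2) (Wr B 0) (Wr B 4) = ((B 1 3 : ℤ) : ℚ)
    rw [skA_T213, mul_neg, e024, Int.cast_neg, neg_neg]
  · show (B 3 4 : ℚ) * skA_T (Wr B 2) (Wr B 1) (Wr B 0) = ((-B 3 4 : ℤ) : ℚ)
    rw [skA_T321, mul_neg, e012, Int.cast_neg]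
  · show (B 3 4 : ℚ) * skA_T (Wr B 2) (Wr B 1) (Wr B 1) = ((0 : ℤ) : ℚ)
    rw [skA_Tzxx, mul_zero, Int.cast_zero]
  · show (B 3 4 : ℚ) * skA_T (Wr B 2) (Wr B 1) (Wr B 2) = ((0 : ℤ) : ℚ)
    rw [skA_Txzx, mul_zero, Int.cast_zero]
  · show (B 3 4 : ℚ) * skA_T (Wr B 2) (Wr B 1) (Wr B 3) = ((B 0 4 : ℤ) : ℚ)
    rw [skA_T213, mul_neg, e123, Int.cast_neg, neg_neg]
  · show (B 3 4 : ℚ) * skA_T (Wr B 2) (Wr B 1) (Wr B 4) = ((-B 0 3 : ℤ) : ℚ)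
    rw [skA_T213, mul_neg, e124, Int.cast_neg]
  · show (B 3 4 : ℚ) * skA_T (Wr B 2) (Wr B 2) (Wr B 0) = ((0 : ℤ) : ℚ)
    rw [skA_Txxz, mul_zero, Int.cast_zero]
  · show (B 3 4 : ℚ) * skA_T (Wr B 2) (Wr B 2) (Wr B 1) = ((0 : ℤ) : ℚ)
    rw [skA_Txxz, mul_zero, Int.cast_zero]
  · show (B 3 4 : ℚ) * skA_T (Wr B 2) (Wr B 2) (Wr B 2) = ((0 : ℤ) : ℚ)
    rw [skA_Txxz, mul_zero, Int.cast_zero]
  · show (B 3 4 : ℚ) * skA_T (Wr B 2) (Wr B 2) (Wr B 3) = ((0 : ℤ) : ℚ)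
    rw [skA_Txxz, mul_zero, Int.cast_zero]
  · show (B 3 4 : ℚ) * skA_T (Wr B 2) (Wr B 2) (Wr B 4) = ((0 : ℤ) : ℚ)
    rw [skA_Txxz, mul_zero, Int.cast_zero]
  · show (B 3 4 : ℚ) * skA_T (Wr B 2) (Wr B 3) (Wr B 0) = ((B 1 4 : ℤ) : ℚ)
    rw [skA_T231]; exact e023
  · show (B 3 4 : ℚ) * skA_T (Wr B 2) (Wr B 3) (Wr B 1) = ((-B 0 4 : ℤ) : ℚ)
    rw [skA_T231]; exact e123
  · show (B 3 4 : ℚ) * skA_T (Wr B 2) (Wr B 3) (Wr B 2) = ((0 : ℤ) : ℚ)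
    rw [skA_Txzx, mul_zero, Int.cast_zero]
  · show (B 3 4 : ℚ) * skA_T (Wr B 2) (Wr B 3) (Wr B 3) = ((0 : ℤ) : ℚ)
    rw [skA_Tzxx, mul_zero, Int.cast_zero]
  · show (B 3 4 : ℚ) * skA_T (Wr B 2) (Wr B 3) (Wr B 4) = ((B 0 1 : ℤ) : ℚ)
    exact e234
  · show (B 3 4 : ℚ) * skA_T (Wr B 2) (Wr B 4) (Wr B 0) = ((-B 1 3 : ℤ) : ℚ)
    rw [skA_T231]; exact e024
  · show (B 3 4 : ℚ) * skA_T (Wr B 2) (Wr B 4) (Wr B 1) = ((B 0 3 : ℤ) : ℚ)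
    rw [skA_T231]; exact e124
  · show (B 3 4 : ℚ) * skA_T (Wr B 2) (Wr B 4) (Wr B 2) = ((0 : ℤ) : ℚ)
    rw [skA_Txzx, mul_zero, Int.cast_zero]
  · show (B 3 4 : ℚ) * skA_T (Wr B 2) (Wr B 4) (Wr B 3) = ((-B 0 1 : ℤ) : ℚ)
    rw [skA_T132, mul_neg, e234, Int.cast_neg]
  · show (B 3 4 : ℚ) * skA_T (Wr B 2) (Wr B 4) (Wr B 4) = ((0 : ℤ) : ℚ)
    rw [skA_Tzxx, mul_zero, Int.cast_zero]
  · show (B 3 4 : ℚ) * skA_T (Wr B 3) (Wr B 0) (Wr B 0) = ((0 : ℤ) : ℚ)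
    rw [skA_Tzxx, mul_zero, Int.cast_zero]
  · show (B 3 4 : ℚ) * skA_T (Wr B 3) (Wr B 0) (Wr B 1) = ((-B 2 4 : ℤ) : ℚ)
    rw [skA_T312]; exact e013
  · show (B 3 4 : ℚ) * skA_T (Wr B 3) (Wr B 0) (Wr B 2) = ((B 1 4 : ℤ) : ℚ)
    rw [skA_T312]; exact e023
  · show (B 3 4 : ℚ) * skA_T (Wr B 3) (Wr B 0) (Wr B 3) = ((0 : ℤ) : ℚ)
    rw [skA_Txzx, mul_zero, Int.cast_zero]
  · show (B 3 4 : ℚ) * skA_T (Wr B 3) (Wr B 0) (Wr B 4) = ((-B 1 2 : ℤ) : ℚ)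
    rw [skA_T213, mul_neg, e034, Int.cast_neg]
  · show (B 3 4 : ℚ) * skA_T (Wr B 3) (Wr B 1) (Wr B 0) = ((B 2 4 : ℤ) : ℚ)
    rw [skA_T321, mul_neg, e013, Int.cast_neg, neg_neg]
  · show (B 3 4 : ℚ) * skA_T (Wr B 3) (Wr B 1) (Wr B 1) = ((0 : ℤ) : ℚ)
    rw [skA_Tzxx, mul_zero, Int.cast_zero]
  · show (B 3 4 : ℚ) * skA_T (Wr B 3) (Wr B 1) (Wr B 2) = ((-B 0 4 : ℤ) : ℚ)
    rw [skA_T312]; exact e123
  · show (B 3 4 : ℚ) * skA_T (Wr B 3) (Wr B 1) (Wr B 3) = ((0 : ℤ) : ℚ)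
    rw [skA_Txzx, mul_zero, Int.cast_zero]
  · show (B 3 4 : ℚ) * skA_T (Wr B 3) (Wr B 1) (Wr B 4) = ((B 0 2 : ℤ) : ℚ)
    rw [skA_T213, mul_neg, e134, Int.cast_neg, neg_neg]
  · show (B 3 4 : ℚ) * skA_T (Wr B 3) (Wr B 2) (Wr B 0) = ((-B 1 4 : ℤ) : ℚ)
    rw [skA_T321, mul_neg, e023, Int.cast_neg]
  · show (B 3 4 : ℚ) * skA_T (Wr B 3) (Wr B 2) (Wr B 1) = ((B 0 4 : ℤ) : ℚ)
    rw [skA_T321, mul_neg, e123, Int.cast_neg, neg_neg]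
  · show (B 3 4 : ℚ) * skA_T (Wr B 3) (Wr B 2) (Wr B 2) = ((0 : ℤ) : ℚ)
    rw [skA_Tzxx, mul_zero, Int.cast_zero]
  · show (B 3 4 : ℚ) * skA_T (Wr B 3) (Wr B 2) (Wr B 3) = ((0 : ℤ) : ℚ)
    rw [skA_Txzx, mul_zero, Int.cast_zero]
  · show (B 3 4 : ℚ) * skA_T (Wr B 3) (Wr B 2) (Wr B 4) = ((-B 0 1 : ℤ) : ℚ)
    rw [skA_T213, mul_neg, e234, Int.cast_neg]
  · show (B 3 4 : ℚ) * skA_T (Wr B 3) (Wr B 3) (Wr B 0) = ((0 : ℤ) : ℚ)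
    rw [skA_Txxz, mul_zero, Int.cast_zero]
  · show (B 3 4 : ℚ) * skA_T (Wr B 3) (Wr B 3) (Wr B 1) = ((0 : ℤ) : ℚ)
    rw [skA_Txxz, mul_zero, Int.cast_zero]
  · show (B 3 4 : ℚ) * skA_T (Wr B 3) (Wr B 3) (Wr B 2) = ((0 : ℤ) : ℚ)
    rw [skA_Txxz, mul_zero, Int.cast_zero]
  · show (B 3 4 : ℚ) * skA_T (Wr B 3) (Wr B 3) (Wr B 3) = ((0 : ℤ) : ℚ)
    rw [skA_Txxz, mul_zero, Int.cast_zero]
  · show (B 3 4 : ℚ) * skA_T (Wr B 3) (Wr B 3) (Wr B 4) = ((0 : ℤ) : ℚ)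
    rw [skA_Txxz, mul_zero, Int.cast_zero]
  · show (B 3 4 : ℚ) * skA_T (Wr B 3) (Wr B 4) (Wr B 0) = ((B 1 2 : ℤ) : ℚ)
    rw [skA_T231]; exact e034
  · show (B 3 4 : ℚ) * skA_T (Wr B 3) (Wr B 4) (Wr B 1) = ((-B 0 2 : ℤ) : ℚ)
    rw [skA_T231]; exact e134
  · show (B 3 4 : ℚ) * skA_T (Wr B 3) (Wr B 4) (Wr B 2) = ((B 0 1 : ℤ) : ℚ)
    rw [skA_T231]; exact e234
  · show (B 3 4 : ℚ) * skA_T (Wr B 3) (Wr B 4) (Wr B 3) = ((0 : ℤ) : ℚ)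
    rw [skA_Txzx, mul_zero, Int.cast_zero]
  · show (B 3 4 : ℚ) * skA_T (Wr B 3) (Wr B 4) (Wr B 4) = ((0 : ℤ) : ℚ)
    rw [skA_Tzxx, mul_zero, Int.cast_zero]
  · show (B 3 4 : ℚ) * skA_T (Wr B 4) (Wr B 0) (Wr B 0) = ((0 : ℤ) : ℚ)
    rw [skA_Tzxx, mul_zero, Int.cast_zero]
  · show (B 3 4 : ℚ) * skA_T (Wr B 4) (Wr B 0) (Wr B 1) = ((B 2 3 : ℤ) : ℚ)
    rw [skA_T312]; exact e014
  · show (B 3 4 : ℚ) * skA_T (Wr B 4) (Wr B 0) (Wr B 2) = ((-B 1 3 : ℤ) : ℚ)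
    rw [skA_T312]; exact e024
  · show (B 3 4 : ℚ) * skA_T (Wr B 4) (Wr B 0) (Wr B 3) = ((B 1 2 : ℤ) : ℚ)
    rw [skA_T312]; exact e034
  · show (B 3 4 : ℚ) * skA_T (Wr B 4) (Wr B 0) (Wr B 4) = ((0 : ℤ) : ℚ)
    rw [skA_Txzx, mul_zero, Int.cast_zero]
  · show (B 3 4 : ℚ) * skA_T (Wr B 4) (Wr B 1) (Wr B 0) = ((-B 2 3 : ℤ) : ℚ)
    rw [skA_T321, mul_neg, e014, Int.cast_neg]
  · show (B 3 4 : ℚ) * skA_T (Wr B 4) (Wr B 1) (Wr B 1) = ((0 : ℤ) : ℚ)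
    rw [skA_Tzxx, mul_zero, Int.cast_zero]
  · show (B 3 4 : ℚ) * skA_T (Wr B 4) (Wr B 1) (Wr B 2) = ((B 0 3 : ℤ) : ℚ)
    rw [skA_T312]; exact e124
  · show (B 3 4 : ℚ) * skA_T (Wr B 4) (Wr B 1) (Wr B 3) = ((-B 0 2 : ℤ) : ℚ)
    rw [skA_T312]; exact e134
  · show (B 3 4 : ℚ) * skA_T (Wr B 4) (Wr B 1) (Wr B 4) = ((0 : ℤ) : ℚ)
    rw [skA_Txzx, mul_zero, Int.cast_zero]
  · show (B 3 4 : ℚ) * skA_T (Wr B 4) (Wr B 2) (Wr B 0) = ((B 1 3 : ℤ) : ℚ)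
    rw [skA_T321, mul_neg, e024, Int.cast_neg, neg_neg]
  · show (B 3 4 : ℚ) * skA_T (Wr B 4) (Wr B 2) (Wr B 1) = ((-B 0 3 : ℤ) : ℚ)
    rw [skA_T321, mul_neg, e124, Int.cast_neg]
  · show (B 3 4 : ℚ) * skA_T (Wr B 4) (Wr B 2) (Wr B 2) = ((0 : ℤ) : ℚ)
    rw [skA_Tzxx, mul_zero, Int.cast_zero]
  · show (B 3 4 : ℚ) * skA_T (Wr B 4) (Wr B 2) (Wr B 3) = ((B 0 1 : ℤ) : ℚ)
    rw [skA_T312]; exact e234
  · show (B 3 4 : ℚ) * skA_T (Wr B 4) (Wr B 2) (Wr B 4) = ((0 : ℤ) : ℚ)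
    rw [skA_Txzx, mul_zero, Int.cast_zero]
  · show (B 3 4 : ℚ) * skA_T (Wr B 4) (Wr B 3) (Wr B 0) = ((-B 1 2 : ℤ) : ℚ)
    rw [skA_T321, mul_neg, e034, Int.cast_neg]
  · show (B 3 4 : ℚ) * skA_T (Wr B 4) (Wr B 3) (Wr B 1) = ((B 0 2 : ℤ) : ℚ)
    rw [skA_T321, mul_neg, e134, Int.cast_neg, neg_neg]
  · show (B 3 4 : ℚ) * skA_T (Wr B 4) (Wr B 3) (Wr B 2) = ((-B 0 1 : ℤ) : ℚ)
    rw [skA_T321, mul_neg, e234, Int.cast_neg]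
  · show (B 3 4 : ℚ) * skA_T (Wr B 4) (Wr B 3) (Wr B 3) = ((0 : ℤ) : ℚ)
    rw [skA_Tzxx, mul_zero, Int.cast_zero]
  · show (B 3 4 : ℚ) * skA_T (Wr B 4) (Wr B 3) (Wr B 4) = ((0 : ℤ) : ℚ)
    rw [skA_Txzx, mul_zero, Int.cast_zero]
  · show (B 3 4 : ℚ) * skA_T (Wr B 4) (Wr B 4) (Wr B 0) = ((0 : ℤ) : ℚ)
    rw [skA_Txxz, mul_zero, Int.cast_zero]
  · show (B 3 4 : ℚ) * skA_T (Wr B 4) (Wr B 4) (Wr B 1) = ((0 : ℤ) : ℚ)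
    rw [skA_Txxz, mul_zero, Int.cast_zero]
  · show (B 3 4 : ℚ) * skA_T (Wr B 4) (Wr B 4) (Wr B 2) = ((0 : ℤ) : ℚ)
    rw [skA_Txxz, mul_zero, Int.cast_zero]
  · show (B 3 4 : ℚ) * skA_T (Wr B 4) (Wr B 4) (Wr B 3) = ((0 : ℤ) : ℚ)
    rw [skA_Txxz, mul_zero, Int.cast_zero]
  · show (B 3 4 : ℚ) * skA_T (Wr B 4) (Wr B 4) (Wr B 4) = ((0 : ℤ) : ℚ)
    rw [skA_Txxz, mul_zero, Int.cast_zero]

/-- `DD x y z` on integral coordinate vectors -/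
private def skA_DD (B : Fin 5 → Fin 5 → ℤ) (x y z : Fin 5 → ℤ) : ℤ :=
  ∑ l, ∑ l', ∑ l'', x l * y l' * z l'' * skA_dd B l l' l''

private theorem skA_DD_cyc (B : Fin 5 → Fin 5 → ℤ) (x y z : Fin 5 → ℤ) :
    skA_DD B x y z = skA_DD B y z x := by
  unfold skA_DD
  rw [Finset.sum_comm]
  refine Finset.sum_congr rfl (fun l' _ => ?_)
  rw [Finset.sum_comm]
  refine Finset.sum_congr rfl (fun l'' _ => Finset.sum_congr rfl (fun l _ => ?_))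
  rw [skA_cyc B l l' l'']
  ring

/-- `rho` -/
private def skA_rho (B1 B2 : Fin 5 → Fin 5 → ℤ) : Fin 5 → ℤ :=
  ![Pp B1 B2 1 2 3 4, -Pp B1 B2 0 2 3 4, Pp B1 B2 0 1 3 4, -Pp B1 B2 0 1 2 4, Pp B1 B2 0 1 2 3]

/-- `pi` -/
private def skA_pi (B : Fin 5 → Fin 5 → ℤ) : Fin 5 → ℤ :=
  ![Pf5 B 1 2 3 4, -Pf5 B 0 2 3 4, Pf5 B 0 1 3 4, -Pf5 B 0 1 2 4, Pf5 B 0 1 2 3]

/-- the vector `∑_{l l'} B1 m l B1 n l' D l l' i` -/
private def skA_X (B1 B2 : Fin 5 → Fin 5 → ℤ) (m n i : Fin 5) : ℤ :=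
  ∑ l, ∑ l', B1 m l * B1 n l' * skA_dd B2 l l' i

/-- the values of a skew matrix -/
private theorem skA_vals {B : Fin 5 → Fin 5 → ℤ} (h : Skew B) :
    B 0 0 = 0 ∧ B 1 1 = 0 ∧ B 2 2 = 0 ∧ B 3 3 = 0 ∧ B 4 4 = 0 ∧
    B 1 0 = -B 0 1 ∧ B 2 0 = -B 0 2 ∧ B 3 0 = -B 0 3 ∧ B 4 0 = -B 0 4 ∧ B 2 1 = -B 1 2 ∧
    B 3 1 = -B 1 3 ∧ B 4 1 = -B 1 4 ∧ B 3 2 = -B 2 3 ∧ B 4 2 = -B 2 4 ∧ B 4 3 = -B 3 4 :=
  ⟨skew_self h 0, skew_self h 1, skew_self h 2, skew_self h 3, skew_self h 4, h 1 0, h 2 0, h 3 0, h 4 0, h 2 1,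
    h 3 1, h 4 1, h 3 2, h 4 2, h 4 3⟩

private theorem skA_Xi0 (B1 B2 : Fin 5 → Fin 5 → ℤ) (m n : Fin 5) : skA_X B1 B2 m n 0 =
      (B1 m 0 * B1 n 0 * 0 + B1 m 0 * B1 n 1 * 0 + B1 m 0 * B1 n 2 * 0 + B1 m 0 * B1 n 3 * 0 + B1 m 0 * B1 n 4 * 0) +
      (B1 m 1 * B1 n 0 * 0 + B1 m 1 * B1 n 1 * 0 + B1 m 1 * B1 n 2 * B2 3 4 + B1 m 1 * B1 n 3 * (-B2 2 4) + B1 m 1 * B1 n 4 * B2 2 3) +
      (B1 m 2 * B1 n 0 * 0 + B1 m 2 * B1 n 1 * (-B2 3 4) + B1 m 2 * B1 n 2 * 0 + B1 m 2 * B1 n 3 * B2 1 4 + B1 m 2 * B1 n 4 * (-B2 1 3)) +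
      (B1 m 3 * B1 n 0 * 0 + B1 m 3 * B1 n 1 * B2 2 4 + B1 m 3 * B1 n 2 * (-B2 1 4) + B1 m 3 * B1 n 3 * 0 + B1 m 3 * B1 n 4 * B2 1 2) +
      (B1 m 4 * B1 n 0 * 0 + B1 m 4 * B1 n 1 * (-B2 2 3) + B1 m 4 * B1 n 2 * B2 1 3 + B1 m 4 * B1 n 3 * (-B2 1 2) + B1 m 4 * B1 n 4 * 0) := by
  unfold skA_X
  simp only [Fin.sum_univ_five]
  rfl

private theorem skA_Xi1 (B1 B2 : Fin 5 → Fin 5 → ℤ) (m n : Fin 5) : skA_X B1 B2 m n 1 =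
      (B1 m 0 * B1 n 0 * 0 + B1 m 0 * B1 n 1 * 0 + B1 m 0 * B1 n 2 * (-B2 3 4) + B1 m 0 * B1 n 3 * B2 2 4 + B1 m 0 * B1 n 4 * (-B2 2 3)) +
      (B1 m 1 * B1 n 0 * 0 + B1 m 1 * B1 n 1 * 0 + B1 m 1 * B1 n 2 * 0 + B1 m 1 * B1 n 3 * 0 + B1 m 1 * B1 n 4 * 0) +
      (B1 m 2 * B1 n 0 * B2 3 4 + B1 m 2 * B1 n 1 * 0 + B1 m 2 * B1 n 2 * 0 + B1 m 2 * B1 n 3 * (-B2 0 4) + B1 m 2 * B1 n 4 * B2 0 3) +
      (B1 m 3 * B1 n 0 * (-B2 2 4) + B1 m 3 * B1 n 1 * 0 + B1 m 3 * B1 n 2 * B2 0 4 + B1 m 3 * B1 n 3 * 0 + B1 m 3 * B1 n 4 * (-B2 0 2)) +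
      (B1 m 4 * B1 n 0 * B2 2 3 + B1 m 4 * B1 n 1 * 0 + B1 m 4 * B1 n 2 * (-B2 0 3) + B1 m 4 * B1 n 3 * B2 0 2 + B1 m 4 * B1 n 4 * 0) := by
  unfold skA_X
  simp only [Fin.sum_univ_five]
  rfl

private theorem skA_Xi2 (B1 B2 : Fin 5 → Fin 5 → ℤ) (m n : Fin 5) : skA_X B1 B2 m n 2 =
      (B1 m 0 * B1 n 0 * 0 + B1 m 0 * B1 n 1 * B2 3 4 + B1 m 0 * B1 n 2 * 0 + B1 m 0 * B1 n 3 * (-B2 1 4) + B1 m 0 * B1 n 4 * B2 1 3) +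
      (B1 m 1 * B1 n 0 * (-B2 3 4) + B1 m 1 * B1 n 1 * 0 + B1 m 1 * B1 n 2 * 0 + B1 m 1 * B1 n 3 * B2 0 4 + B1 m 1 * B1 n 4 * (-B2 0 3)) +
      (B1 m 2 * B1 n 0 * 0 + B1 m 2 * B1 n 1 * 0 + B1 m 2 * B1 n 2 * 0 + B1 m 2 * B1 n 3 * 0 + B1 m 2 * B1 n 4 * 0) +
      (B1 m 3 * B1 n 0 * B2 1 4 + B1 m 3 * B1 n 1 * (-B2 0 4) + B1 m 3 * B1 n 2 * 0 + B1 m 3 * B1 n 3 * 0 + B1 m 3 * B1 n 4 * B2 0 1) +
      (B1 m 4 * B1 n 0 * (-B2 1 3) + B1 m 4 * B1 n 1 * B2 0 3 + B1 m 4 * B1 n 2 * 0 + B1 m 4 * B1 n 3 * (-B2 0 1) + B1 m 4 * B1 n 4 * 0) := by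
  unfold skA_X
  simp only [Fin.sum_univ_five]
  rfl

private theorem skA_Xi3 (B1 B2 : Fin 5 → Fin 5 → ℤ) (m n : Fin 5) : skA_X B1 B2 m n 3 =
      (B1 m 0 * B1 n 0 * 0 + B1 m 0 * B1 n 1 * (-B2 2 4) + B1 m 0 * B1 n 2 * B2 1 4 + B1 m 0 * B1 n 3 * 0 + B1 m 0 * B1 n 4 * (-B2 1 2)) +
      (B1 m 1 * B1 n 0 * B2 2 4 + B1 m 1 * B1 n 1 * 0 + B1 m 1 * B1 n 2 * (-B2 0 4) + B1 m 1 * B1 n 3 * 0 + B1 m 1 * B1 n 4 * B2 0 2) +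
      (B1 m 2 * B1 n 0 * (-B2 1 4) + B1 m 2 * B1 n 1 * B2 0 4 + B1 m 2 * B1 n 2 * 0 + B1 m 2 * B1 n 3 * 0 + B1 m 2 * B1 n 4 * (-B2 0 1)) +
      (B1 m 3 * B1 n 0 * 0 + B1 m 3 * B1 n 1 * 0 + B1 m 3 * B1 n 2 * 0 + B1 m 3 * B1 n 3 * 0 + B1 m 3 * B1 n 4 * 0) +
      (B1 m 4 * B1 n 0 * B2 1 2 + B1 m 4 * B1 n 1 * (-B2 0 2) + B1 m 4 * B1 n 2 * B2 0 1 + B1 m 4 * B1 n 3 * 0 + B1 m 4 * B1 n 4 * 0) := by
  unfold skA_X
  simp only [Fin.sum_univ_five]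
  rfl

private theorem skA_Xi4 (B1 B2 : Fin 5 → Fin 5 → ℤ) (m n : Fin 5) : skA_X B1 B2 m n 4 =
      (B1 m 0 * B1 n 0 * 0 + B1 m 0 * B1 n 1 * B2 2 3 + B1 m 0 * B1 n 2 * (-B2 1 3) + B1 m 0 * B1 n 3 * B2 1 2 + B1 m 0 * B1 n 4 * 0) +
      (B1 m 1 * B1 n 0 * (-B2 2 3) + B1 m 1 * B1 n 1 * 0 + B1 m 1 * B1 n 2 * B2 0 3 + B1 m 1 * B1 n 3 * (-B2 0 2) + B1 m 1 * B1 n 4 * 0) +
      (B1 m 2 * B1 n 0 * B2 1 3 + B1 m 2 * B1 n 1 * (-B2 0 3) + B1 m 2 * B1 n 2 * 0 + B1 m 2 * B1 n 3 * B2 0 1 + B1 m 2 * B1 n 4 * 0) +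
      (B1 m 3 * B1 n 0 * (-B2 1 2) + B1 m 3 * B1 n 1 * B2 0 2 + B1 m 3 * B1 n 2 * (-B2 0 1) + B1 m 3 * B1 n 3 * 0 + B1 m 3 * B1 n 4 * 0) +
      (B1 m 4 * B1 n 0 * 0 + B1 m 4 * B1 n 1 * 0 + B1 m 4 * B1 n 2 * 0 + B1 m 4 * B1 n 3 * 0 + B1 m 4 * B1 n 4 * 0) := by
  unfold skA_X
  simp only [Fin.sum_univ_five]
  rfl

private theorem skA_dd_anti (B : Fin 5 → Fin 5 → ℤ) (i j k : Fin 5) :
    skA_dd B i j k = -skA_dd B j i k := by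
  fin_cases i <;> fin_cases j <;> fin_cases k <;>
    first | exact neg_zero.symm | exact (neg_neg _).symm | rfl

private theorem skA_X_anti (B1 B2 : Fin 5 → Fin 5 → ℤ) (m n i : Fin 5) :
    skA_X B1 B2 n m i = -skA_X B1 B2 m n i := by
  unfold skA_X
  rw [Finset.sum_comm, ← Finset.sum_neg_distrib]
  refine Finset.sum_congr rfl fun l _ => ?_
  rw [← Finset.sum_neg_distrib]
  refine Finset.sum_congr rfl fun l' _ => ?_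
  rw [skA_dd_anti B2 l' l i]; ring

/-- the right side -/
private def skA_R (B1 B2 : Fin 5 → Fin 5 → ℤ) (m n i : Fin 5) : ℤ :=
  B1 m n * skA_rho B1 B2 i - B2 m n * skA_pi B1 i
      + (if m = i then ∑ l, B1 n l * skA_rho B1 B2 l else 0)
      - (if n = i then ∑ l, B1 m l * skA_rho B1 B2 l else 0)

private theorem skA_R_anti {B1 B2 : Fin 5 → Fin 5 → ℤ} (h1 : Skew B1) (h2 : Skew B2) (m n i : Fin 5) :
    skA_R B1 B2 n m i = -skA_R B1 B2 m n i := by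
  unfold skA_R
  rw [h1 n m, h2 n m]; ring

private theorem skA_rho_sum (B1 B2 : Fin 5 → Fin 5 → ℤ) (n : Fin 5) :
    ∑ l, B1 n l * skA_rho B1 B2 l = B1 n 0 * Pp B1 B2 1 2 3 4 + B1 n 1 * -Pp B1 B2 0 2 3 4 +
      B1 n 2 * Pp B1 B2 0 1 3 4 + B1 n 3 * -Pp B1 B2 0 1 2 4 + B1 n 4 * Pp B1 B2 0 1 2 3 := by
  rw [Fin.sum_univ_five]; rfl

private theorem skA_X01 {B1 B2 : Fin 5 → Fin 5 → ℤ} (h1 : Skew B1) (h2 : Skew B2) (i : Fin 5) :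
    skA_X B1 B2 0 1 i = skA_R B1 B2 0 1 i := by
  obtain ⟨a0, a1, a2, a3, a4, a10, a20, a30, a40, a21, a31, a41, a32, a42, a43⟩ := skA_vals h1
  obtain ⟨b0, b1, b2, b3, b4, b10, b20, b30, b40, b21, b31, b41, b32, b42, b43⟩ := skA_vals h2
  unfold skA_R
  rw [skA_rho_sum, skA_rho_sum]
  fin_cases i
  · show skA_X B1 B2 0 1 0 = B1 0 1 * Pp B1 B2 1 2 3 4 - B2 0 1 * Pf5 B1 1 2 3 4 +
      (B1 1 0 * Pp B1 B2 1 2 3 4 + B1 1 1 * -Pp B1 B2 0 2 3 4 + B1 1 2 * Pp B1 B2 0 1 3 4 +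
      B1 1 3 * -Pp B1 B2 0 1 2 4 + B1 1 4 * Pp B1 B2 0 1 2 3) - 0
    rw [skA_Xi0]
    unfold Pp Pf5
    simp only [a0, a1, a2, a3, a4, a10, a20, a30, a40, a21, a31, a41, a32, a42, a43,
      b10, b20, b30, b40, b21, b31, b41, b32, b42, b43]
    ring
  · show skA_X B1 B2 0 1 1 = B1 0 1 * (-Pp B1 B2 0 2 3 4) - B2 0 1 * (-Pf5 B1 0 2 3 4) +
      0 - (B1 0 0 * Pp B1 B2 1 2 3 4 + B1 0 1 * -Pp B1 B2 0 2 3 4 + B1 0 2 * Pp B1 B2 0 1 3 4 +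
      B1 0 3 * -Pp B1 B2 0 1 2 4 + B1 0 4 * Pp B1 B2 0 1 2 3)
    rw [skA_Xi1]
    unfold Pp Pf5
    simp only [a0, a1, a2, a3, a4, a10, a20, a30, a40, a21, a31, a41, a32, a42, a43,
      b10, b20, b30, b40, b21, b31, b41, b32, b42, b43]
    ring
  · show skA_X B1 B2 0 1 2 = B1 0 1 * Pp B1 B2 0 1 3 4 - B2 0 1 * Pf5 B1 0 1 3 4 +
      0 - 0
    rw [skA_Xi2]
    unfold Pp Pf5
    simp only [a0, a1, a2, a3, a4, a10, a20, a30, a40, a21, a31, a41, a32, a42, a43,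
      b10, b20, b30, b40, b21, b31, b41, b32, b42, b43]
    ring
  · show skA_X B1 B2 0 1 3 = B1 0 1 * (-Pp B1 B2 0 1 2 4) - B2 0 1 * (-Pf5 B1 0 1 2 4) +
      0 - 0
    rw [skA_Xi3]
    unfold Pp Pf5
    simp only [a0, a1, a2, a3, a4, a10, a20, a30, a40, a21, a31, a41, a32, a42, a43,
      b10, b20, b30, b40, b21, b31, b41, b32, b42, b43]
    ring
  · show skA_X B1 B2 0 1 4 = B1 0 1 * Pp B1 B2 0 1 2 3 - B2 0 1 * Pf5 B1 0 1 2 3 +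
      0 - 0
    rw [skA_Xi4]
    unfold Pp Pf5
    simp only [a0, a1, a2, a3, a4, a10, a20, a30, a40, a21, a31, a41, a32, a42, a43,
      b10, b20, b30, b40, b21, b31, b41, b32, b42, b43]
    ring

private theorem skA_X02 {B1 B2 : Fin 5 → Fin 5 → ℤ} (h1 : Skew B1) (h2 : Skew B2) (i : Fin 5) :
    skA_X B1 B2 0 2 i = skA_R B1 B2 0 2 i := by
  obtain ⟨a0, a1, a2, a3, a4, a10, a20, a30, a40, a21, a31, a41, a32, a42, a43⟩ := skA_vals h1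
  obtain ⟨b0, b1, b2, b3, b4, b10, b20, b30, b40, b21, b31, b41, b32, b42, b43⟩ := skA_vals h2
  unfold skA_R
  rw [skA_rho_sum, skA_rho_sum]
  fin_cases i
  · show skA_X B1 B2 0 2 0 = B1 0 2 * Pp B1 B2 1 2 3 4 - B2 0 2 * Pf5 B1 1 2 3 4 +
      (B1 2 0 * Pp B1 B2 1 2 3 4 + B1 2 1 * -Pp B1 B2 0 2 3 4 + B1 2 2 * Pp B1 B2 0 1 3 4 +
      B1 2 3 * -Pp B1 B2 0 1 2 4 + B1 2 4 * Pp B1 B2 0 1 2 3) - 0
    rw [skA_Xi0]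
    unfold Pp Pf5
    simp only [a0, a1, a2, a3, a4, a10, a20, a30, a40, a21, a31, a41, a32, a42, a43,
      b10, b20, b30, b40, b21, b31, b41, b32, b42, b43]
    ring
  · show skA_X B1 B2 0 2 1 = B1 0 2 * (-Pp B1 B2 0 2 3 4) - B2 0 2 * (-Pf5 B1 0 2 3 4) +
      0 - 0
    rw [skA_Xi1]
    unfold Pp Pf5
    simp only [a0, a1, a2, a3, a4, a10, a20, a30, a40, a21, a31, a41, a32, a42, a43,
      b10, b20, b30, b40, b21, b31, b41, b32, b42, b43]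
    ring
  · show skA_X B1 B2 0 2 2 = B1 0 2 * Pp B1 B2 0 1 3 4 - B2 0 2 * Pf5 B1 0 1 3 4 +
      0 - (B1 0 0 * Pp B1 B2 1 2 3 4 + B1 0 1 * -Pp B1 B2 0 2 3 4 + B1 0 2 * Pp B1 B2 0 1 3 4 +
      B1 0 3 * -Pp B1 B2 0 1 2 4 + B1 0 4 * Pp B1 B2 0 1 2 3)
    rw [skA_Xi2]
    unfold Pp Pf5
    simp only [a0, a1, a2, a3, a4, a10, a20, a30, a40, a21, a31, a41, a32, a42, a43,
      b10, b20, b30, b40, b21, b31, b41, b32, b42, b43]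
    ring
  · show skA_X B1 B2 0 2 3 = B1 0 2 * (-Pp B1 B2 0 1 2 4) - B2 0 2 * (-Pf5 B1 0 1 2 4) +
      0 - 0
    rw [skA_Xi3]
    unfold Pp Pf5
    simp only [a0, a1, a2, a3, a4, a10, a20, a30, a40, a21, a31, a41, a32, a42, a43,
      b10, b20, b30, b40, b21, b31, b41, b32, b42, b43]
    ring
  · show skA_X B1 B2 0 2 4 = B1 0 2 * Pp B1 B2 0 1 2 3 - B2 0 2 * Pf5 B1 0 1 2 3 +
      0 - 0
    rw [skA_Xi4]
    unfold Pp Pf5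
    simp only [a0, a1, a2, a3, a4, a10, a20, a30, a40, a21, a31, a41, a32, a42, a43,
      b10, b20, b30, b40, b21, b31, b41, b32, b42, b43]
    ring

private theorem skA_X03 {B1 B2 : Fin 5 → Fin 5 → ℤ} (h1 : Skew B1) (h2 : Skew B2) (i : Fin 5) :
    skA_X B1 B2 0 3 i = skA_R B1 B2 0 3 i := by
  obtain ⟨a0, a1, a2, a3, a4, a10, a20, a30, a40, a21, a31, a41, a32, a42, a43⟩ := skA_vals h1
  obtain ⟨b0, b1, b2, b3, b4, b10, b20, b30, b40, b21, b31, b41, b32, b42, b43⟩ := skA_vals h2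
  unfold skA_R
  rw [skA_rho_sum, skA_rho_sum]
  fin_cases i
  · show skA_X B1 B2 0 3 0 = B1 0 3 * Pp B1 B2 1 2 3 4 - B2 0 3 * Pf5 B1 1 2 3 4 +
      (B1 3 0 * Pp B1 B2 1 2 3 4 + B1 3 1 * -Pp B1 B2 0 2 3 4 + B1 3 2 * Pp B1 B2 0 1 3 4 +
      B1 3 3 * -Pp B1 B2 0 1 2 4 + B1 3 4 * Pp B1 B2 0 1 2 3) - 0
    rw [skA_Xi0]
    unfold Pp Pf5
    simp only [a0, a1, a2, a3, a4, a10, a20, a30, a40, a21, a31, a41, a32, a42, a43,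
      b10, b20, b30, b40, b21, b31, b41, b32, b42, b43]
    ring
  · show skA_X B1 B2 0 3 1 = B1 0 3 * (-Pp B1 B2 0 2 3 4) - B2 0 3 * (-Pf5 B1 0 2 3 4) +
      0 - 0
    rw [skA_Xi1]
    unfold Pp Pf5
    simp only [a0, a1, a2, a3, a4, a10, a20, a30, a40, a21, a31, a41, a32, a42, a43,
      b10, b20, b30, b40, b21, b31, b41, b32, b42, b43]
    ring
  · show skA_X B1 B2 0 3 2 = B1 0 3 * Pp B1 B2 0 1 3 4 - B2 0 3 * Pf5 B1 0 1 3 4 +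
      0 - 0
    rw [skA_Xi2]
    unfold Pp Pf5
    simp only [a0, a1, a2, a3, a4, a10, a20, a30, a40, a21, a31, a41, a32, a42, a43,
      b10, b20, b30, b40, b21, b31, b41, b32, b42, b43]
    ring
  · show skA_X B1 B2 0 3 3 = B1 0 3 * (-Pp B1 B2 0 1 2 4) - B2 0 3 * (-Pf5 B1 0 1 2 4) +
      0 - (B1 0 0 * Pp B1 B2 1 2 3 4 + B1 0 1 * -Pp B1 B2 0 2 3 4 + B1 0 2 * Pp B1 B2 0 1 3 4 +
      B1 0 3 * -Pp B1 B2 0 1 2 4 + B1 0 4 * Pp B1 B2 0 1 2 3)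
    rw [skA_Xi3]
    unfold Pp Pf5
    simp only [a0, a1, a2, a3, a4, a10, a20, a30, a40, a21, a31, a41, a32, a42, a43,
      b10, b20, b30, b40, b21, b31, b41, b32, b42, b43]
    ring
  · show skA_X B1 B2 0 3 4 = B1 0 3 * Pp B1 B2 0 1 2 3 - B2 0 3 * Pf5 B1 0 1 2 3 +
      0 - 0
    rw [skA_Xi4]
    unfold Pp Pf5
    simp only [a0, a1, a2, a3, a4, a10, a20, a30, a40, a21, a31, a41, a32, a42, a43,
      b10, b20, b30, b40, b21, b31, b41, b32, b42, b43]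
    ring

private theorem skA_X04 {B1 B2 : Fin 5 → Fin 5 → ℤ} (h1 : Skew B1) (h2 : Skew B2) (i : Fin 5) :
    skA_X B1 B2 0 4 i = skA_R B1 B2 0 4 i := by
  obtain ⟨a0, a1, a2, a3, a4, a10, a20, a30, a40, a21, a31, a41, a32, a42, a43⟩ := skA_vals h1
  obtain ⟨b0, b1, b2, b3, b4, b10, b20, b30, b40, b21, b31, b41, b32, b42, b43⟩ := skA_vals h2
  unfold skA_R
  rw [skA_rho_sum, skA_rho_sum]
  fin_cases i
  · show skA_X B1 B2 0 4 0 = B1 0 4 * Pp B1 B2 1 2 3 4 - B2 0 4 * Pf5 B1 1 2 3 4 +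
      (B1 4 0 * Pp B1 B2 1 2 3 4 + B1 4 1 * -Pp B1 B2 0 2 3 4 + B1 4 2 * Pp B1 B2 0 1 3 4 +
      B1 4 3 * -Pp B1 B2 0 1 2 4 + B1 4 4 * Pp B1 B2 0 1 2 3) - 0
    rw [skA_Xi0]
    unfold Pp Pf5
    simp only [a0, a1, a2, a3, a4, a10, a20, a30, a40, a21, a31, a41, a32, a42, a43,
      b10, b20, b30, b40, b21, b31, b41, b32, b42, b43]
    ring
  · show skA_X B1 B2 0 4 1 = B1 0 4 * (-Pp B1 B2 0 2 3 4) - B2 0 4 * (-Pf5 B1 0 2 3 4) +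
      0 - 0
    rw [skA_Xi1]
    unfold Pp Pf5
    simp only [a0, a1, a2, a3, a4, a10, a20, a30, a40, a21, a31, a41, a32, a42, a43,
      b10, b20, b30, b40, b21, b31, b41, b32, b42, b43]
    ring
  · show skA_X B1 B2 0 4 2 = B1 0 4 * Pp B1 B2 0 1 3 4 - B2 0 4 * Pf5 B1 0 1 3 4 +
      0 - 0
    rw [skA_Xi2]
    unfold Pp Pf5
    simp only [a0, a1, a2, a3, a4, a10, a20, a30, a40, a21, a31, a41, a32, a42, a43,
      b10, b20, b30, b40, b21, b31, b41, b32, b42, b43]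
    ring
  · show skA_X B1 B2 0 4 3 = B1 0 4 * (-Pp B1 B2 0 1 2 4) - B2 0 4 * (-Pf5 B1 0 1 2 4) +
      0 - 0
    rw [skA_Xi3]
    unfold Pp Pf5
    simp only [a0, a1, a2, a3, a4, a10, a20, a30, a40, a21, a31, a41, a32, a42, a43,
      b10, b20, b30, b40, b21, b31, b41, b32, b42, b43]
    ring
  · show skA_X B1 B2 0 4 4 = B1 0 4 * Pp B1 B2 0 1 2 3 - B2 0 4 * Pf5 B1 0 1 2 3 +
      0 - (B1 0 0 * Pp B1 B2 1 2 3 4 + B1 0 1 * -Pp B1 B2 0 2 3 4 + B1 0 2 * Pp B1 B2 0 1 3 4 +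
      B1 0 3 * -Pp B1 B2 0 1 2 4 + B1 0 4 * Pp B1 B2 0 1 2 3)
    rw [skA_Xi4]
    unfold Pp Pf5
    simp only [a0, a1, a2, a3, a4, a10, a20, a30, a40, a21, a31, a41, a32, a42, a43,
      b10, b20, b30, b40, b21, b31, b41, b32, b42, b43]
    ring

private theorem skA_X12 {B1 B2 : Fin 5 → Fin 5 → ℤ} (h1 : Skew B1) (h2 : Skew B2) (i : Fin 5) :
    skA_X B1 B2 1 2 i = skA_R B1 B2 1 2 i := by
  obtain ⟨a0, a1, a2, a3, a4, a10, a20, a30, a40, a21, a31, a41, a32, a42, a43⟩ := skA_vals h1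
  obtain ⟨b0, b1, b2, b3, b4, b10, b20, b30, b40, b21, b31, b41, b32, b42, b43⟩ := skA_vals h2
  unfold skA_R
  rw [skA_rho_sum, skA_rho_sum]
  fin_cases i
  · show skA_X B1 B2 1 2 0 = B1 1 2 * Pp B1 B2 1 2 3 4 - B2 1 2 * Pf5 B1 1 2 3 4 +
      0 - 0
    rw [skA_Xi0]
    unfold Pp Pf5
    simp only [a0, a1, a2, a3, a4, a10, a20, a30, a40, a21, a31, a41, a32, a42, a43,
      b10, b20, b30, b40, b21, b31, b41, b32, b42, b43]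
    ring
  · show skA_X B1 B2 1 2 1 = B1 1 2 * (-Pp B1 B2 0 2 3 4) - B2 1 2 * (-Pf5 B1 0 2 3 4) +
      (B1 2 0 * Pp B1 B2 1 2 3 4 + B1 2 1 * -Pp B1 B2 0 2 3 4 + B1 2 2 * Pp B1 B2 0 1 3 4 +
      B1 2 3 * -Pp B1 B2 0 1 2 4 + B1 2 4 * Pp B1 B2 0 1 2 3) - 0
    rw [skA_Xi1]
    unfold Pp Pf5
    simp only [a0, a1, a2, a3, a4, a10, a20, a30, a40, a21, a31, a41, a32, a42, a43,
      b10, b20, b30, b40, b21, b31, b41, b32, b42, b43]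
    ring
  · show skA_X B1 B2 1 2 2 = B1 1 2 * Pp B1 B2 0 1 3 4 - B2 1 2 * Pf5 B1 0 1 3 4 +
      0 - (B1 1 0 * Pp B1 B2 1 2 3 4 + B1 1 1 * -Pp B1 B2 0 2 3 4 + B1 1 2 * Pp B1 B2 0 1 3 4 +
      B1 1 3 * -Pp B1 B2 0 1 2 4 + B1 1 4 * Pp B1 B2 0 1 2 3)
    rw [skA_Xi2]
    unfold Pp Pf5
    simp only [a0, a1, a2, a3, a4, a10, a20, a30, a40, a21, a31, a41, a32, a42, a43,
      b10, b20, b30, b40, b21, b31, b41, b32, b42, b43]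
    ring
  · show skA_X B1 B2 1 2 3 = B1 1 2 * (-Pp B1 B2 0 1 2 4) - B2 1 2 * (-Pf5 B1 0 1 2 4) +
      0 - 0
    rw [skA_Xi3]
    unfold Pp Pf5
    simp only [a0, a1, a2, a3, a4, a10, a20, a30, a40, a21, a31, a41, a32, a42, a43,
      b10, b20, b30, b40, b21, b31, b41, b32, b42, b43]
    ring
  · show skA_X B1 B2 1 2 4 = B1 1 2 * Pp B1 B2 0 1 2 3 - B2 1 2 * Pf5 B1 0 1 2 3 +
      0 - 0
    rw [skA_Xi4]
    unfold Pp Pf5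
    simp only [a0, a1, a2, a3, a4, a10, a20, a30, a40, a21, a31, a41, a32, a42, a43,
      b10, b20, b30, b40, b21, b31, b41, b32, b42, b43]
    ring

private theorem skA_X13 {B1 B2 : Fin 5 → Fin 5 → ℤ} (h1 : Skew B1) (h2 : Skew B2) (i : Fin 5) :
    skA_X B1 B2 1 3 i = skA_R B1 B2 1 3 i := by
  obtain ⟨a0, a1, a2, a3, a4, a10, a20, a30, a40, a21, a31, a41, a32, a42, a43⟩ := skA_vals h1
  obtain ⟨b0, b1, b2, b3, b4, b10, b20, b30, b40, b21, b31, b41, b32, b42, b43⟩ := skA_vals h2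
  unfold skA_R
  rw [skA_rho_sum, skA_rho_sum]
  fin_cases i
  · show skA_X B1 B2 1 3 0 = B1 1 3 * Pp B1 B2 1 2 3 4 - B2 1 3 * Pf5 B1 1 2 3 4 +
      0 - 0
    rw [skA_Xi0]
    unfold Pp Pf5
    simp only [a0, a1, a2, a3, a4, a10, a20, a30, a40, a21, a31, a41, a32, a42, a43,
      b10, b20, b30, b40, b21, b31, b41, b32, b42, b43]
    ring
  · show skA_X B1 B2 1 3 1 = B1 1 3 * (-Pp B1 B2 0 2 3 4) - B2 1 3 * (-Pf5 B1 0 2 3 4) +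
      (B1 3 0 * Pp B1 B2 1 2 3 4 + B1 3 1 * -Pp B1 B2 0 2 3 4 + B1 3 2 * Pp B1 B2 0 1 3 4 +
      B1 3 3 * -Pp B1 B2 0 1 2 4 + B1 3 4 * Pp B1 B2 0 1 2 3) - 0
    rw [skA_Xi1]
    unfold Pp Pf5
    simp only [a0, a1, a2, a3, a4, a10, a20, a30, a40, a21, a31, a41, a32, a42, a43,
      b10, b20, b30, b40, b21, b31, b41, b32, b42, b43]
    ring
  · show skA_X B1 B2 1 3 2 = B1 1 3 * Pp B1 B2 0 1 3 4 - B2 1 3 * Pf5 B1 0 1 3 4 +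
      0 - 0
    rw [skA_Xi2]
    unfold Pp Pf5
    simp only [a0, a1, a2, a3, a4, a10, a20, a30, a40, a21, a31, a41, a32, a42, a43,
      b10, b20, b30, b40, b21, b31, b41, b32, b42, b43]
    ring
  · show skA_X B1 B2 1 3 3 = B1 1 3 * (-Pp B1 B2 0 1 2 4) - B2 1 3 * (-Pf5 B1 0 1 2 4) +
      0 - (B1 1 0 * Pp B1 B2 1 2 3 4 + B1 1 1 * -Pp B1 B2 0 2 3 4 + B1 1 2 * Pp B1 B2 0 1 3 4 +
      B1 1 3 * -Pp B1 B2 0 1 2 4 + B1 1 4 * Pp B1 B2 0 1 2 3)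
    rw [skA_Xi3]
    unfold Pp Pf5
    simp only [a0, a1, a2, a3, a4, a10, a20, a30, a40, a21, a31, a41, a32, a42, a43,
      b10, b20, b30, b40, b21, b31, b41, b32, b42, b43]
    ring
  · show skA_X B1 B2 1 3 4 = B1 1 3 * Pp B1 B2 0 1 2 3 - B2 1 3 * Pf5 B1 0 1 2 3 +
      0 - 0
    rw [skA_Xi4]
    unfold Pp Pf5
    simp only [a0, a1, a2, a3, a4, a10, a20, a30, a40, a21, a31, a41, a32, a42, a43,
      b10, b20, b30, b40, b21, b31, b41, b32, b42, b43]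
    ring

private theorem skA_X14 {B1 B2 : Fin 5 → Fin 5 → ℤ} (h1 : Skew B1) (h2 : Skew B2) (i : Fin 5) :
    skA_X B1 B2 1 4 i = skA_R B1 B2 1 4 i := by
  obtain ⟨a0, a1, a2, a3, a4, a10, a20, a30, a40, a21, a31, a41, a32, a42, a43⟩ := skA_vals h1
  obtain ⟨b0, b1, b2, b3, b4, b10, b20, b30, b40, b21, b31, b41, b32, b42, b43⟩ := skA_vals h2
  unfold skA_R
  rw [skA_rho_sum, skA_rho_sum]
  fin_cases i
  · show skA_X B1 B2 1 4 0 = B1 1 4 * Pp B1 B2 1 2 3 4 - B2 1 4 * Pf5 B1 1 2 3 4 +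
      0 - 0
    rw [skA_Xi0]
    unfold Pp Pf5
    simp only [a0, a1, a2, a3, a4, a10, a20, a30, a40, a21, a31, a41, a32, a42, a43,
      b10, b20, b30, b40, b21, b31, b41, b32, b42, b43]
    ring
  · show skA_X B1 B2 1 4 1 = B1 1 4 * (-Pp B1 B2 0 2 3 4) - B2 1 4 * (-Pf5 B1 0 2 3 4) +
      (B1 4 0 * Pp B1 B2 1 2 3 4 + B1 4 1 * -Pp B1 B2 0 2 3 4 + B1 4 2 * Pp B1 B2 0 1 3 4 +
      B1 4 3 * -Pp B1 B2 0 1 2 4 + B1 4 4 * Pp B1 B2 0 1 2 3) - 0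
    rw [skA_Xi1]
    unfold Pp Pf5
    simp only [a0, a1, a2, a3, a4, a10, a20, a30, a40, a21, a31, a41, a32, a42, a43,
      b10, b20, b30, b40, b21, b31, b41, b32, b42, b43]
    ring
  · show skA_X B1 B2 1 4 2 = B1 1 4 * Pp B1 B2 0 1 3 4 - B2 1 4 * Pf5 B1 0 1 3 4 +
      0 - 0
    rw [skA_Xi2]
    unfold Pp Pf5
    simp only [a0, a1, a2, a3, a4, a10, a20, a30, a40, a21, a31, a41, a32, a42, a43,
      b10, b20, b30, b40, b21, b31, b41, b32, b42, b43]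
    ring
  · show skA_X B1 B2 1 4 3 = B1 1 4 * (-Pp B1 B2 0 1 2 4) - B2 1 4 * (-Pf5 B1 0 1 2 4) +
      0 - 0
    rw [skA_Xi3]
    unfold Pp Pf5
    simp only [a0, a1, a2, a3, a4, a10, a20, a30, a40, a21, a31, a41, a32, a42, a43,
      b10, b20, b30, b40, b21, b31, b41, b32, b42, b43]
    ring
  · show skA_X B1 B2 1 4 4 = B1 1 4 * Pp B1 B2 0 1 2 3 - B2 1 4 * Pf5 B1 0 1 2 3 +
      0 - (B1 1 0 * Pp B1 B2 1 2 3 4 + B1 1 1 * -Pp B1 B2 0 2 3 4 + B1 1 2 * Pp B1 B2 0 1 3 4 +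
      B1 1 3 * -Pp B1 B2 0 1 2 4 + B1 1 4 * Pp B1 B2 0 1 2 3)
    rw [skA_Xi4]
    unfold Pp Pf5
    simp only [a0, a1, a2, a3, a4, a10, a20, a30, a40, a21, a31, a41, a32, a42, a43,
      b10, b20, b30, b40, b21, b31, b41, b32, b42, b43]
    ring

private theorem skA_X23 {B1 B2 : Fin 5 → Fin 5 → ℤ} (h1 : Skew B1) (h2 : Skew B2) (i : Fin 5) :
    skA_X B1 B2 2 3 i = skA_R B1 B2 2 3 i := by
  obtain ⟨a0, a1, a2, a3, a4, a10, a20, a30, a40, a21, a31, a41, a32, a42, a43⟩ := skA_vals h1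
  obtain ⟨b0, b1, b2, b3, b4, b10, b20, b30, b40, b21, b31, b41, b32, b42, b43⟩ := skA_vals h2
  unfold skA_R
  rw [skA_rho_sum, skA_rho_sum]
  fin_cases i
  · show skA_X B1 B2 2 3 0 = B1 2 3 * Pp B1 B2 1 2 3 4 - B2 2 3 * Pf5 B1 1 2 3 4 +
      0 - 0
    rw [skA_Xi0]
    unfold Pp Pf5
    simp only [a0, a1, a2, a3, a4, a10, a20, a30, a40, a21, a31, a41, a32, a42, a43,
      b10, b20, b30, b40, b21, b31, b41, b32, b42, b43]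
    ring
  · show skA_X B1 B2 2 3 1 = B1 2 3 * (-Pp B1 B2 0 2 3 4) - B2 2 3 * (-Pf5 B1 0 2 3 4) +
      0 - 0
    rw [skA_Xi1]
    unfold Pp Pf5
    simp only [a0, a1, a2, a3, a4, a10, a20, a30, a40, a21, a31, a41, a32, a42, a43,
      b10, b20, b30, b40, b21, b31, b41, b32, b42, b43]
    ring
  · show skA_X B1 B2 2 3 2 = B1 2 3 * Pp B1 B2 0 1 3 4 - B2 2 3 * Pf5 B1 0 1 3 4 +
      (B1 3 0 * Pp B1 B2 1 2 3 4 + B1 3 1 * -Pp B1 B2 0 2 3 4 + B1 3 2 * Pp B1 B2 0 1 3 4 +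
      B1 3 3 * -Pp B1 B2 0 1 2 4 + B1 3 4 * Pp B1 B2 0 1 2 3) - 0
    rw [skA_Xi2]
    unfold Pp Pf5
    simp only [a0, a1, a2, a3, a4, a10, a20, a30, a40, a21, a31, a41, a32, a42, a43,
      b10, b20, b30, b40, b21, b31, b41, b32, b42, b43]
    ring
  · show skA_X B1 B2 2 3 3 = B1 2 3 * (-Pp B1 B2 0 1 2 4) - B2 2 3 * (-Pf5 B1 0 1 2 4) +
      0 - (B1 2 0 * Pp B1 B2 1 2 3 4 + B1 2 1 * -Pp B1 B2 0 2 3 4 + B1 2 2 * Pp B1 B2 0 1 3 4 +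
      B1 2 3 * -Pp B1 B2 0 1 2 4 + B1 2 4 * Pp B1 B2 0 1 2 3)
    rw [skA_Xi3]
    unfold Pp Pf5
    simp only [a0, a1, a2, a3, a4, a10, a20, a30, a40, a21, a31, a41, a32, a42, a43,
      b10, b20, b30, b40, b21, b31, b41, b32, b42, b43]
    ring
  · show skA_X B1 B2 2 3 4 = B1 2 3 * Pp B1 B2 0 1 2 3 - B2 2 3 * Pf5 B1 0 1 2 3 +
      0 - 0
    rw [skA_Xi4]
    unfold Pp Pf5
    simp only [a0, a1, a2, a3, a4, a10, a20, a30, a40, a21, a31, a41, a32, a42, a43,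
      b10, b20, b30, b40, b21, b31, b41, b32, b42, b43]
    ring

private theorem skA_X24 {B1 B2 : Fin 5 → Fin 5 → ℤ} (h1 : Skew B1) (h2 : Skew B2) (i : Fin 5) :
    skA_X B1 B2 2 4 i = skA_R B1 B2 2 4 i := by
  obtain ⟨a0, a1, a2, a3, a4, a10, a20, a30, a40, a21, a31, a41, a32, a42, a43⟩ := skA_vals h1
  obtain ⟨b0, b1, b2, b3, b4, b10, b20, b30, b40, b21, b31, b41, b32, b42, b43⟩ := skA_vals h2
  unfold skA_R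
  rw [skA_rho_sum, skA_rho_sum]
  fin_cases i
  · show skA_X B1 B2 2 4 0 = B1 2 4 * Pp B1 B2 1 2 3 4 - B2 2 4 * Pf5 B1 1 2 3 4 +
      0 - 0
    rw [skA_Xi0]
    unfold Pp Pf5
    simp only [a0, a1, a2, a3, a4, a10, a20, a30, a40, a21, a31, a41, a32, a42, a43,
      b10, b20, b30, b40, b21, b31, b41, b32, b42, b43]
    ring
  · show skA_X B1 B2 2 4 1 = B1 2 4 * (-Pp B1 B2 0 2 3 4) - B2 2 4 * (-Pf5 B1 0 2 3 4) +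
      0 - 0
    rw [skA_Xi1]
    unfold Pp Pf5
    simp only [a0, a1, a2, a3, a4, a10, a20, a30, a40, a21, a31, a41, a32, a42, a43,
      b10, b20, b30, b40, b21, b31, b41, b32, b42, b43]
    ring
  · show skA_X B1 B2 2 4 2 = B1 2 4 * Pp B1 B2 0 1 3 4 - B2 2 4 * Pf5 B1 0 1 3 4 +
      (B1 4 0 * Pp B1 B2 1 2 3 4 + B1 4 1 * -Pp B1 B2 0 2 3 4 + B1 4 2 * Pp B1 B2 0 1 3 4 +
      B1 4 3 * -Pp B1 B2 0 1 2 4 + B1 4 4 * Pp B1 B2 0 1 2 3) - 0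
    rw [skA_Xi2]
    unfold Pp Pf5
    simp only [a0, a1, a2, a3, a4, a10, a20, a30, a40, a21, a31, a41, a32, a42, a43,
      b10, b20, b30, b40, b21, b31, b41, b32, b42, b43]
    ring
  · show skA_X B1 B2 2 4 3 = B1 2 4 * (-Pp B1 B2 0 1 2 4) - B2 2 4 * (-Pf5 B1 0 1 2 4) +
      0 - 0
    rw [skA_Xi3]
    unfold Pp Pf5
    simp only [a0, a1, a2, a3, a4, a10, a20, a30, a40, a21, a31, a41, a32, a42, a43,
      b10, b20, b30, b40, b21, b31, b41, b32, b42, b43]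
    ring
  · show skA_X B1 B2 2 4 4 = B1 2 4 * Pp B1 B2 0 1 2 3 - B2 2 4 * Pf5 B1 0 1 2 3 +
      0 - (B1 2 0 * Pp B1 B2 1 2 3 4 + B1 2 1 * -Pp B1 B2 0 2 3 4 + B1 2 2 * Pp B1 B2 0 1 3 4 +
      B1 2 3 * -Pp B1 B2 0 1 2 4 + B1 2 4 * Pp B1 B2 0 1 2 3)
    rw [skA_Xi4]
    unfold Pp Pf5
    simp only [a0, a1, a2, a3, a4, a10, a20, a30, a40, a21, a31, a41, a32, a42, a43,
      b10, b20, b30, b40, b21, b31, b41, b32, b42, b43]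
    ring

private theorem skA_X34 {B1 B2 : Fin 5 → Fin 5 → ℤ} (h1 : Skew B1) (h2 : Skew B2) (i : Fin 5) :
    skA_X B1 B2 3 4 i = skA_R B1 B2 3 4 i := by
  obtain ⟨a0, a1, a2, a3, a4, a10, a20, a30, a40, a21, a31, a41, a32, a42, a43⟩ := skA_vals h1
  obtain ⟨b0, b1, b2, b3, b4, b10, b20, b30, b40, b21, b31, b41, b32, b42, b43⟩ := skA_vals h2
  unfold skA_R
  rw [skA_rho_sum, skA_rho_sum]
  fin_cases i
  · show skA_X B1 B2 3 4 0 = B1 3 4 * Pp B1 B2 1 2 3 4 - B2 3 4 * Pf5 B1 1 2 3 4 +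
      0 - 0
    rw [skA_Xi0]
    unfold Pp Pf5
    simp only [a0, a1, a2, a3, a4, a10, a20, a30, a40, a21, a31, a41, a32, a42, a43,
      b10, b20, b30, b40, b21, b31, b41, b32, b42, b43]
    ring
  · show skA_X B1 B2 3 4 1 = B1 3 4 * (-Pp B1 B2 0 2 3 4) - B2 3 4 * (-Pf5 B1 0 2 3 4) +
      0 - 0
    rw [skA_Xi1]
    unfold Pp Pf5
    simp only [a0, a1, a2, a3, a4, a10, a20, a30, a40, a21, a31, a41, a32, a42, a43,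
      b10, b20, b30, b40, b21, b31, b41, b32, b42, b43]
    ring
  · show skA_X B1 B2 3 4 2 = B1 3 4 * Pp B1 B2 0 1 3 4 - B2 3 4 * Pf5 B1 0 1 3 4 +
      0 - 0
    rw [skA_Xi2]
    unfold Pp Pf5
    simp only [a0, a1, a2, a3, a4, a10, a20, a30, a40, a21, a31, a41, a32, a42, a43,
      b10, b20, b30, b40, b21, b31, b41, b32, b42, b43]
    ring
  · show skA_X B1 B2 3 4 3 = B1 3 4 * (-Pp B1 B2 0 1 2 4) - B2 3 4 * (-Pf5 B1 0 1 2 4) +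
      (B1 4 0 * Pp B1 B2 1 2 3 4 + B1 4 1 * -Pp B1 B2 0 2 3 4 + B1 4 2 * Pp B1 B2 0 1 3 4 +
      B1 4 3 * -Pp B1 B2 0 1 2 4 + B1 4 4 * Pp B1 B2 0 1 2 3) - 0
    rw [skA_Xi3]
    unfold Pp Pf5
    simp only [a0, a1, a2, a3, a4, a10, a20, a30, a40, a21, a31, a41, a32, a42, a43,
      b10, b20, b30, b40, b21, b31, b41, b32, b42, b43]
    ring
  · show skA_X B1 B2 3 4 4 = B1 3 4 * Pp B1 B2 0 1 2 3 - B2 3 4 * Pf5 B1 0 1 2 3 +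
      0 - (B1 3 0 * Pp B1 B2 1 2 3 4 + B1 3 1 * -Pp B1 B2 0 2 3 4 + B1 3 2 * Pp B1 B2 0 1 3 4 +
      B1 3 3 * -Pp B1 B2 0 1 2 4 + B1 3 4 * Pp B1 B2 0 1 2 3)
    rw [skA_Xi4]
    unfold Pp Pf5
    simp only [a0, a1, a2, a3, a4, a10, a20, a30, a40, a21, a31, a41, a32, a42, a43,
      b10, b20, b30, b40, b21, b31, b41, b32, b42, b43]
    ring

private theorem skA_X_eq {B1 B2 : Fin 5 → Fin 5 → ℤ} (h1 : Skew B1) (h2 : Skew B2) (m n i : Fin 5) :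
    skA_X B1 B2 m n i = B1 m n * skA_rho B1 B2 i - B2 m n * skA_pi B1 i
      + (if m = i then ∑ l, B1 n l * skA_rho B1 B2 l else 0)
      - (if n = i then ∑ l, B1 m l * skA_rho B1 B2 l else 0) := by
  change skA_X B1 B2 m n i = skA_R B1 B2 m n i
  have hd : ∀ m, skA_X B1 B2 m m i = skA_R B1 B2 m m i := by
    intro m
    have e1 := skA_X_anti B1 B2 m m i
    have e2 := skA_R_anti h1 h2 m m i
    omega
  have hs : ∀ m n, skA_X B1 B2 m n i = skA_R B1 B2 m n i → skA_X B1 B2 n m i = skA_R B1 B2 n m i := by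
    intro m n e
    rw [skA_X_anti, skA_R_anti h1 h2, e]
  fin_cases m <;> fin_cases n
  · exact hd 0
  · exact skA_X01 h1 h2 i
  · exact skA_X02 h1 h2 i
  · exact skA_X03 h1 h2 i
  · exact skA_X04 h1 h2 i
  · exact hs 0 1 (skA_X01 h1 h2 i)
  · exact hd 1
  · exact skA_X12 h1 h2 i
  · exact skA_X13 h1 h2 i
  · exact skA_X14 h1 h2 i
  · exact hs 0 2 (skA_X02 h1 h2 i)
  · exact hs 1 2 (skA_X12 h1 h2 i)
  · exact hd 2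
  · exact skA_X23 h1 h2 i
  · exact skA_X24 h1 h2 i
  · exact hs 0 3 (skA_X03 h1 h2 i)
  · exact hs 1 3 (skA_X13 h1 h2 i)
  · exact hs 2 3 (skA_X23 h1 h2 i)
  · exact hd 3
  · exact skA_X34 h1 h2 i
  · exact hs 0 4 (skA_X04 h1 h2 i)
  · exact hs 1 4 (skA_X14 h1 h2 i)
  · exact hs 2 4 (skA_X24 h1 h2 i)
  · exact hs 3 4 (skA_X34 h1 h2 i)
  · exact hd 4

private theorem skA_pi_ker {B : Fin 5 → Fin 5 → ℤ} (h : Skew B) (p : Fin 5) :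
    ∑ i, B p i * skA_pi B i = 0 := by
  obtain ⟨a0, a1, a2, a3, a4, a10, a20, a30, a40, a21, a31, a41, a32, a42, a43⟩ := skA_vals h
  fin_cases p <;>
    simp [skA_pi, Pf5, Fin.sum_univ_five, a0, a1, a2, a3, a4, a10, a20, a30, a40, a21,
      a31, a41, a32, a42, a43, -mul_eq_zero] <;>
    ring

private theorem skA_rho_dvd {g : ℤ} {B1 B2 : Fin 5 → Fin 5 → ℤ} (hp : ∀ i j k l, g ∣ Pp B1 B2 i j k l) (i : Fin 5) :
    g ∣ skA_rho B1 B2 i := by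
  fin_cases i
  · exact hp 1 2 3 4
  · exact (dvd_neg).mpr (hp 0 2 3 4)
  · exact hp 0 1 3 4
  · exact (dvd_neg).mpr (hp 0 1 2 4)
  · exact hp 0 1 2 3

private theorem skA_pi_dvd {g : ℤ} {B1 : Fin 5 → Fin 5 → ℤ} (hp : ∀ i j k l, g ∣ Pf5 B1 i j k l) (i : Fin 5) :
    g ∣ skA_pi B1 i := by
  fin_cases i
  · exact hp 1 2 3 4
  · exact (dvd_neg).mpr (hp 0 2 3 4)
  · exact hp 0 1 3 4
  · exact (dvd_neg).mpr (hp 0 1 2 4)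
  · exact hp 0 1 2 3

private theorem skA_X_dvd {g : ℤ} {B1 B2 : Fin 5 → Fin 5 → ℤ} (h1 : Skew B1) (h2 : Skew B2)
    (hp1 : ∀ i j k l, g ∣ Pf5 B1 i j k l) (hp : ∀ i j k l, g ∣ Pp B1 B2 i j k l) (m n i : Fin 5) :
    g ∣ skA_X B1 B2 m n i := by
  rw [skA_X_eq h1 h2]
  have hR : ∀ n, g ∣ ∑ l, B1 n l * skA_rho B1 B2 l := fun n =>
    Finset.dvd_sum (fun l _ => Dvd.dvd.mul_left (skA_rho_dvd hp l) _)
  have hI : ∀ (P : Prop) [Decidable P] (n : Fin 5), g ∣ (if P then ∑ l, B1 n l * skA_rho B1 B2 l else 0) := by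
    intro P _ n
    split_ifs
    · exact hR n
    · exact dvd_zero g
  exact dvd_sub (dvd_add (dvd_sub (Dvd.dvd.mul_left (skA_rho_dvd hp i) _) (Dvd.dvd.mul_left (skA_pi_dvd hp1 i) _))
    (hI _ n)) (hI _ m)

private theorem skA_Y_eq {B1 B2 : Fin 5 → Fin 5 → ℤ} (h1 : Skew B1) (h2 : Skew B2) (m n p : Fin 5) :
    ∑ i, B1 p i * skA_X B1 B2 m n i = ∑ e, skA_rho B1 B2 e * Pf5 B1 m n p e := by
  have hk := skA_pi_ker h1 p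
  simp only [skA_X_eq h1 h2]
  simp only [mul_sub, mul_add, Finset.sum_sub_distrib, Finset.sum_add_distrib, mul_ite, mul_zero,
    Finset.sum_ite_eq, Finset.mem_univ, if_true]
  unfold Pf5
  simp only [Fin.sum_univ_five] at hk ⊢
  linear_combination (-B2 m n) * hk
    + (B1 n 0 * skA_rho B1 B2 0 + B1 n 1 * skA_rho B1 B2 1 + B1 n 2 * skA_rho B1 B2 2
      + B1 n 3 * skA_rho B1 B2 3 + B1 n 4 * skA_rho B1 B2 4) * h1 p m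
    - (B1 m 0 * skA_rho B1 B2 0 + B1 m 1 * skA_rho B1 B2 1 + B1 m 2 * skA_rho B1 B2 2
      + B1 m 3 * skA_rho B1 B2 3 + B1 m 4 * skA_rho B1 B2 4) * h1 p n

private theorem skA_DD_eq (B1 B2 : Fin 5 → Fin 5 → ℤ) (m n : Fin 5) (z : Fin 5 → ℤ) :
    skA_DD B2 (B1 m) (B1 n) z = ∑ i, z i * skA_X B1 B2 m n i := by
  unfold skA_DD skA_X
  simp only [Finset.mul_sum]
  symm
  rw [Finset.sum_comm]
  refine Finset.sum_congr rfl (fun l _ => ?_)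
  rw [Finset.sum_comm]
  refine Finset.sum_congr rfl (fun l' _ => Finset.sum_congr rfl (fun i _ => ?_))
  ring

/-- the integral coefficients of the ten forms -/
private def skA_c (B1 : Fin 5 → Fin 5 → ℤ) : Fin 5 ⊕ Fin 5 → Fin 5 → ℤ :=
  Sum.elim (fun i l => if i = l then 1 else 0) (fun m => B1 m)

/-- the denominators of the ten forms -/
private def skA_n (g : ℤ) : Fin 5 ⊕ Fin 5 → ℤ := Sum.elim (fun _ => 1) (fun _ => g)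

private theorem skA_Lr (g : ℤ) (B1 B2 : Fin 5 → Fin 5 → ℤ) (r : Fin 5 ⊕ Fin 5) :
    Lr g B1 B2 r = fun k => (∑ l, (skA_c B1 r l : ℚ) * Wr B2 l k) / (skA_n g r : ℚ) := by
  funext k
  rcases r with i | m
  · simp [Lr, skA_c, skA_n]
  · simp [Lr, skA_c, skA_n]

private theorem skA_lin1 (W : Fin 5 → Fin 3 → ℚ) (a : Fin 5 → ℚ) (s : ℚ) (y z : Fin 3 → ℚ) :
    skA_T (fun k => (∑ l, a l * W l k) / s) y z = (∑ l, a l * skA_T (W l) y z) / s := by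
  unfold skA_T
  simp only [Fin.sum_univ_five]
  ring

private theorem skA_lin2 (W : Fin 5 → Fin 3 → ℚ) (a : Fin 5 → ℚ) (s : ℚ) (x z : Fin 3 → ℚ) :
    skA_T x (fun k => (∑ l, a l * W l k) / s) z = (∑ l, a l * skA_T x (W l) z) / s := by
  unfold skA_T
  simp only [Fin.sum_univ_five]
  ring

private theorem skA_lin3 (W : Fin 5 → Fin 3 → ℚ) (a : Fin 5 → ℚ) (s : ℚ) (x y : Fin 3 → ℚ) :
    skA_T x y (fun k => (∑ l, a l * W l k) / s) = (∑ l, a l * skA_T x y (W l)) / s := by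
  unfold skA_T
  simp only [Fin.sum_univ_five]
  ring

private theorem skA_main {g : ℤ} {B1 B2 : Fin 5 → Fin 5 → ℤ} (h2 : Skew B2)
    (hb : B2 3 4 ≠ 0) (hp2 : ∀ i j k l, Pf5 B2 i j k l = 0) (r0 r1 r2 : Fin 5 ⊕ Fin 5) :
    (B2 3 4 : ℚ) * skA_T (Lr g B1 B2 r0) (Lr g B1 B2 r1) (Lr g B1 B2 r2) =
      (skA_DD B2 (skA_c B1 r0) (skA_c B1 r1) (skA_c B1 r2) : ℚ) /
        ((skA_n g r0 : ℚ) * (skA_n g r1 : ℚ) * (skA_n g r2 : ℚ)) := by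
  rw [skA_Lr g B1 B2 r0, skA_Lr g B1 B2 r1, skA_Lr g B1 B2 r2]
  rw [skA_lin1]
  simp only [skA_lin2]
  simp only [skA_lin3]
  unfold skA_DD
  push_cast
  simp only [← skA_one h2 hb hp2]
  have key : ∀ (c0 c1 c2 : Fin 5 → ℚ) (s0 s1 s2 b : ℚ) (T : Fin 5 → Fin 5 → Fin 5 → ℚ),
      b * ((∑ l, c0 l * ((∑ l', c1 l' * ((∑ l'', c2 l'' * T l l' l'') / s2)) / s1)) / s0) =
        (∑ l, ∑ l', ∑ l'', c0 l * c1 l' * c2 l'' * (b * T l l' l'')) / (s0 * s1 * s2) := by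
    intro c0 c1 c2 s0 s1 s2 b T
    have e1 : ∀ l l', c1 l' * ((∑ l'', c2 l'' * T l l' l'') / s2) = (∑ l'', c1 l' * c2 l'' * T l l' l'') / s2 := by
      intro l l'
      rw [← mul_div_assoc, Finset.mul_sum]
      simp only [mul_assoc]
    simp only [e1]
    have e2 : ∀ l, c0 l * ((∑ l', (∑ l'', c1 l' * c2 l'' * T l l' l'') / s2) / s1) =
        (∑ l', ∑ l'', c0 l * c1 l' * c2 l'' * T l l' l'') / (s1 * s2) := by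
      intro l
      rw [← Finset.sum_div, div_div, ← mul_div_assoc, Finset.mul_sum, mul_comm s2 s1]
      simp only [Finset.mul_sum, mul_assoc]
    simp only [e2]
    rw [← Finset.sum_div, div_div, ← mul_div_assoc, mul_comm (s1 * s2) s0, ← mul_assoc s0]
    congr 1
    rw [Finset.mul_sum]
    refine Finset.sum_congr rfl (fun l _ => ?_)
    rw [Finset.mul_sum]
    refine Finset.sum_congr rfl (fun l' _ => ?_)
    rw [Finset.mul_sum]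
    refine Finset.sum_congr rfl (fun l'' _ => ?_)
    ring
  exact key _ _ _ _ _ _ _ _

private theorem skA_dvd {g : ℤ} {B1 B2 : Fin 5 → Fin 5 → ℤ} (h1 : Skew B1) (h2 : Skew B2)
    (hp1 : ∀ i j k l, g ∣ Pf5 B1 i j k l)
    (hp : ∀ i j k l, g ∣ Pp B1 B2 i j k l) (r0 r1 r2 : Fin 5 ⊕ Fin 5) :
    skA_n g r0 * skA_n g r1 * skA_n g r2 ∣ g * skA_DD B2 (skA_c B1 r0) (skA_c B1 r1) (skA_c B1 r2) := by
  have two : ∀ m n (z : Fin 5 → ℤ), g ∣ skA_DD B2 (B1 m) (B1 n) z := by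
    intro m n z
    rw [skA_DD_eq]
    exact Finset.dvd_sum (fun i _ => Dvd.dvd.mul_left (skA_X_dvd h1 h2 hp1 hp m n i) _)
  have three : ∀ m n p, g * g ∣ skA_DD B2 (B1 m) (B1 n) (B1 p) := by
    intro m n p
    rw [skA_DD_eq, skA_Y_eq h1 h2]
    exact Finset.dvd_sum (fun e _ => mul_dvd_mul (skA_rho_dvd hp e) (hp1 m n p e))
  rcases r0 with i | m <;> rcases r1 with j | n <;> rcases r2 with k | p
  · simp [skA_n]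
  · simp [skA_n]
  · simp [skA_n]
  · have h := two n p (skA_c B1 (Sum.inl i))
    rw [← skA_DD_cyc] at h
    simpa [skA_n, skA_c] using mul_dvd_mul_left g h
  · simp [skA_n]
  · have h := two p m (skA_c B1 (Sum.inl j))
    rw [skA_DD_cyc] at h
    simpa [skA_n, skA_c] using mul_dvd_mul_left g h
  · have h := two m n (skA_c B1 (Sum.inl k))
    simpa [skA_n, skA_c] using mul_dvd_mul_left g h
  · have h := three m n p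
    have := mul_dvd_mul_left g h
    rw [← mul_assoc] at this
    simpa [skA_n, skA_c] using this

/-- (size 4, identities) Proof.  Write `b = B2 3 4`, `W = Wr B2`, `D i j k = b * det (W i, W j, W k)`.
(1) `D i j k` is an integer: it is alternating and (using `Pf5 B2 = 0` for the three cases with both `3` and `4`)
 `D 0 1 2 = B2 3 4, D 0 1 3 = B2 4 2, D 0 1 4 = B2 2 3, D 0 2 3 = B2 1 4, D 0 2 4 = B2 3 1, D 0 3 4 = B2 1 2,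
  D 1 2 3 = B2 4 0, D 1 2 4 = B2 0 3, D 1 3 4 = B2 2 0, D 2 3 4 = B2 0 1` (i.e. `D i j k = B2 l m`, `(i j k l m)` even).
(2) rows `W i, W j, W k`: `g * D i j k`.  Rows `Z m, W i, W j` (`Z m = ∑ B1 m l W l / g`): `∑_l B1 m l D l i j`.
(3) rows `Z m, Z n, W i`: `g b det = X / g`, `X = ∑_{l,l'} B1 m l B1 n l' D l l' i`.  With the vectors (`e = 0..4`, sign so that
 `(e a b c d)` is even) `π e = Pf5 B1 a b c d`, `ρ e = Pp B1 B2 a b c d`: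
 `X = B1 n m * ρ i - δ_{mi} ∑_l B1 n l * ρ l + B2 m n * π i - δ_{ni} ∑_l B2 m l * π l`, divisible by `g`.
 [from `∑_l B1 m l (*C) l i j + ∑_l C m l (*B1) l i j = δ_{mi} ρ j - δ_{mj} ρ i`, `*C i j k = C l m`, `(i j k l m)` even.]
(4) rows `Z m, Z n, Z p`: `g b det = Y / g ^ 2`, `Y = ∑ B1 m l B1 n l' B1 p l'' D l l' l'' = ± ∑_e ρ e * Pf5 B1 m n p e`, divisible by `g ^ 2`
 [`∑_i B1 p i X_{mn}^i` with `∑_i B1 p i π i = 0` and `∑_i B1 p i ρ i + ∑_i B2 p i π i = 0`].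
All of these are polynomial identities: check them case by case (`fin_cases`, `ring`/`linear_combination`) or in general.
The determinant is alternating in the rows, so it is enough to treat the four types in one order. -/
theorem skA {g : ℤ} (hg : g ≠ 0) {B1 B2 : Fin 5 → Fin 5 → ℤ} (h1 : Skew B1) (h2 : Skew B2)
    (hb : B2 3 4 ≠ 0) (hp1 : ∀ i j k l, g ∣ Pf5 B1 i j k l) (hp2 : ∀ i j k l, Pf5 B2 i j k l = 0)
    (hp : ∀ i j k l, g ∣ Pp B1 B2 i j k l) (r : Fin 3 → Fin 5 ⊕ Fin 5) :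
    ∃ ν : ℤ, (g : ℚ) * (B2 3 4 : ℚ) * (Matrix.of (fun a => Lr g B1 B2 (r a))).det = ν := by
  have hgQ : (g : ℚ) ≠ 0 := by exact_mod_cast hg
  have hdet : (Matrix.of (fun a => Lr g B1 B2 (r a))).det =
      skA_T (Lr g B1 B2 (r 0)) (Lr g B1 B2 (r 1)) (Lr g B1 B2 (r 2)) := by
    rw [Matrix.det_fin_three]
    simp only [Matrix.of_apply, skA_T]
  obtain ⟨ν, hν⟩ := skA_dvd h1 h2 hp1 hp (r 0) (r 1) (r 2)
  refine ⟨ν, ?_⟩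
  rw [hdet, mul_assoc, skA_main h2 hb hp2]
  have hn : ∀ s, (skA_n g s : ℚ) ≠ 0 := by
    intro s
    rcases s with i | i
    · simp [skA_n]
    · simpa [skA_n] using hg
  have hν' : (g : ℚ) * (skA_DD B2 (skA_c B1 (r 0)) (skA_c B1 (r 1)) (skA_c B1 (r 2)) : ℚ) =
      (skA_n g (r 0) : ℚ) * (skA_n g (r 1) : ℚ) * (skA_n g (r 2) : ℚ) * ν := by exact_mod_cast hν
  rw [← mul_div_assoc, hν', mul_div_assoc, mul_comm]
  rw [div_mul_cancel₀ _ (mul_ne_zero (mul_ne_zero (hn _) (hn _)) (hn _))]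

end Pool.Agent.PP5G
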