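import Mathlib

/-!
# PP5G/SkB: a lattice of `ℤ ^ 3` given by rational linear forms whose 3 x 3 minors have a common denominator `N`
has index at most `N`
-/

set_option autoImplicit false

namespace Pool.Agent.PP5G

open Matrix in
private theorem skB_basis (Λ : Submodule ℤ (Fin 3 → ℚ)) (hfg : Λ.FG)
    (hu : ∀ k : Fin 3, (Pi.single k 1 : Fin 3 → ℚ) ∈ Λ) :
    Nonempty (Module.Basis (Fin 3) ℤ Λ) := by
  have hL : Submodule.IsLattice ℚ Λ := ⟨hfg, by
    rw [eq_top_iff]
    intro x _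
    have hx : x = ∑ k, x k • (Pi.single k (1 : ℚ) : Fin 3 → ℚ) := by
      funext j
      simp [Finset.sum_apply, Pi.single_apply]
    rw [hx]
    exact Submodule.sum_mem _ fun k _ =>
      Submodule.smul_mem _ _ (Submodule.subset_span (hu k))⟩
  have hr : Module.finrank ℤ Λ = 3 := by
    have := Submodule.IsLattice.finrank_of_pi ℚ Λ
    simpa using this
  exact ⟨Module.finBasisOfFinrankEq ℤ Λ hr⟩

private theorem skB_det {ι : Type} [Fintype ι] [DecidableEq ι] (L : ι → Fin 3 → ℚ) (N : ℤ)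
    (hm : ∀ r : Fin 3 → ι, ∃ ν : ℤ, (N : ℚ) * (Matrix.of (fun a => L (r a))).det = ν)
    (x : Fin 3 → Fin 3 → ℚ) (hx : ∀ a, x a ∈ Submodule.span ℤ (Set.range L)) :
    ∃ ν : ℤ, (N : ℚ) * (Matrix.of x).det = ν := by
  choose c hc using fun a => (Submodule.mem_span_range_iff_exists_fun ℤ).1 (hx a)
  choose ν hν using hm
  have h2 : x = fun a => ∑ i, (c a i : ℚ) • L i := by
    funext a
    rw [← hc a]
    refine Finset.sum_congr rfl fun i _ => ?_
    funext k
    simp
  have h3 := (Matrix.detRowAlternating (R := ℚ) (n := Fin 3)).toMultilinearMap.map_sum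
    (fun a i => (c a i : ℚ) • L i)
  have h4 : (Matrix.of x).det
      = ∑ r : Fin 3 → ι, (∏ a, (c a (r a) : ℚ)) * (Matrix.of fun a => L (r a)).det := by
    have h5 : (Matrix.of x).det = (Matrix.detRowAlternating (R := ℚ) (n := Fin 3)) x := rfl
    rw [h5, h2]
    refine h3.trans ?_
    refine Finset.sum_congr rfl fun r _ => ?_
    exact (Matrix.detRowAlternating (R := ℚ) (n := Fin 3)).toMultilinearMap.map_smul_univ
      (fun a => (c a (r a) : ℚ)) (fun a => L (r a))
  refine ⟨∑ r : Fin 3 → ι, (∏ a, c a (r a)) * ν r, ?_⟩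
  rw [h4, Finset.mul_sum]
  push_cast
  refine Finset.sum_congr rfl fun r _ => ?_
  rw [← hν r]
  ring

/-- pigeonhole modulo `M ℤ ^ 3` -/
private theorem skB_pigeon (M : Matrix (Fin 3) (Fin 3) ℤ) (hM : M.det ≠ 0) :
    ∃ v : Fin 3 → ℤ, M.mulVec v ≠ 0 ∧ ∀ k, |((M.mulVec v) k : ℝ)| ^ 3 ≤ |(M.det : ℝ)| := by
  have hinj : Function.Injective M.mulVecLin := by
    rw [← LinearMap.ker_eq_bot, LinearMap.ker_eq_bot']
    intro v hv
    have h1 : M.mulVec v = 0 := hv
    exact Matrix.eq_zero_of_mulVec_eq_zero hM h1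
  let e : (Fin 3 → ℤ) ≃ₗ[ℤ] (LinearMap.range M.mulVecLin) := LinearEquiv.ofInjective _ hinj
  have hcard : (M.det).natAbs = Nat.card ((Fin 3 → ℤ) ⧸ LinearMap.range M.mulVecLin) := by
    have h1 := Submodule.natAbs_det_equiv (LinearMap.range M.mulVecLin) e
    have h2 : ((LinearMap.range M.mulVecLin).subtype ∘ₗ
        AddMonoidHom.toIntLinearMap (e : (Fin 3 → ℤ) →+ LinearMap.range M.mulVecLin))
        = Matrix.toLin' M := by
      ext v
      rfl
    rw [h2, LinearMap.det_toLin'] at h1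
    exact h1
  have hfin : Finite ((Fin 3 → ℤ) ⧸ LinearMap.range M.mulVecLin) := by
    refine Nat.finite_of_card_ne_zero ?_
    rw [← hcard]
    exact Int.natAbs_ne_zero.2 hM
  have hex : ∃ m : ℕ, M.det.natAbs < (m + 1) ^ 3 :=
    ⟨M.det.natAbs, lt_of_lt_of_le (Nat.lt_succ_self _) (Nat.le_self_pow (by norm_num) _)⟩
  classical
  set m := Nat.find hex with hm
  have h1 : M.det.natAbs < (m + 1) ^ 3 := Nat.find_spec hex
  have h2 : m ^ 3 ≤ M.det.natAbs := by
    rcases Nat.eq_zero_or_pos m with h | h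
    · rw [h]
      simp
    · have h3 := Nat.find_min hex (m := m - 1) (by omega)
      rw [not_lt] at h3
      have h4 : m - 1 + 1 = m := by omega
      rw [h4] at h3
      exact h3
  have := Fintype.ofFinite ((Fin 3 → ℤ) ⧸ LinearMap.range M.mulVecLin)
  have h3 : Fintype.card ((Fin 3 → ℤ) ⧸ LinearMap.range M.mulVecLin)
      < Fintype.card (Fin 3 → Fin (m + 1)) := by
    rw [← Nat.card_eq_fintype_card, ← hcard]
    simpa using h1
  obtain ⟨x, y, hxy, hq⟩ := Fintype.exists_ne_map_eq_of_card_lt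
    (fun x : Fin 3 → Fin (m + 1) => (Submodule.Quotient.mk (fun k => ((x k : ℕ) : ℤ)) :
      (Fin 3 → ℤ) ⧸ LinearMap.range M.mulVecLin)) h3
  have h4 := (Submodule.Quotient.eq _).1 hq
  obtain ⟨v, hv⟩ := h4
  have hv' : M.mulVec v = (fun k => ((x k : ℕ) : ℤ)) - fun k => ((y k : ℕ) : ℤ) := hv
  refine ⟨v, ?_, ?_⟩
  · rw [hv']
    intro h0
    refine hxy (funext fun k => Fin.ext ?_)
    have h5 := congrFun h0 k
    simp only [Pi.sub_apply, Pi.zero_apply] at h5
    omega
  · intro k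
    rw [hv']
    simp only [Pi.sub_apply]
    have h5 : |(((x k : ℕ) : ℤ) - ((y k : ℕ) : ℤ))| ≤ (m : ℤ) := by
      have hx := (x k).2
      have hy := (y k).2
      rw [abs_le]
      constructor <;> omega
    have h6 : |((((x k : ℕ) : ℤ) - ((y k : ℕ) : ℤ) : ℤ) : ℝ)| ≤ (m : ℝ) := by
      exact_mod_cast h5
    calc |((((x k : ℕ) : ℤ) - ((y k : ℕ) : ℤ) : ℤ) : ℝ)| ^ 3 ≤ (m : ℝ) ^ 3 :=
          pow_le_pow_left₀ (abs_nonneg _) h6 3
      _ ≤ ((M.det.natAbs : ℕ) : ℝ) := by exact_mod_cast h2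
      _ = |(M.det : ℝ)| := by
          rw [Nat.cast_natAbs]
          simp

/-- (size 5) Proof.  `Γ = {t : ∀ i, (L t) i ∈ ℤ}` is an additive subgroup of `ℤ ^ 3` containing `M ℤ ^ 3` for a common denominator `M`
of the entries of `L`, so it has a basis `e : Module.Basis (Fin 3) ℤ Γ`, and the index of `Γ` is `N0 = |det e|`
(`AddSubgroup.index_eq_natAbs_det`).
(1) `N0 ∣ N`: let `A` be the integral matrix `(i, a) ↦ (L (e a)) i` (`ι × Fin 3`).  Every `3 x 3` minor of `A` is `± N0` times the minor of `L`, so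
`N * minor A = ± N0 * ν` with `ν` an integer.  For every prime `p` some `3 x 3` minor of `A` is prime to `p`: otherwise the columns
of `A` modulo `p` are linearly dependent (a matrix over a field with three columns, all whose `3 x 3` minors vanish, has dependent
columns), i.e. there is `c : Fin 3 → ℤ`, not all `c a` divisible by `p`, with `p ∣ ∑ c a A i a` for all `i`; as `L` contains the three
unit forms, `p` divides all coordinates of `∑ c a e a`, and `(1 / p) ∑ c a e a` is in `Γ`: contradiction to `e` a basis.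
Hence `N0 / gcd (N0, N)` divides all minors of `A`, so it is `1`.
(2) pigeonhole: the `(m + 1) ^ 3 > N0` vectors `{0..m} ^ 3` with `m ^ 3 ≤ N0 < (m + 1) ^ 3` cannot be in different classes modulo `Γ`
(finite quotient of cardinality `N0`): the difference of two of them in the same class is `t`. -/
theorem skB {ι : Type} [Fintype ι] [DecidableEq ι] (L : ι → Fin 3 → ℚ) (u : Fin 3 → ι)
    (hu : ∀ k, L (u k) = Pi.single k 1) (N : ℤ) (hN : N ≠ 0)
    (hm : ∀ r : Fin 3 → ι, ∃ ν : ℤ, (N : ℚ) * (Matrix.of (fun a => L (r a))).det = ν) :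
    ∃ t : Fin 3 → ℤ, t ≠ 0 ∧ (∀ i, ∃ z : ℤ, ∑ k, L i k * (t k : ℚ) = z) ∧
      ∀ k, |(t k : ℝ)| ^ 3 ≤ |(N : ℝ)| := by
  set Λ : Submodule ℤ (Fin 3 → ℚ) := Submodule.span ℤ (Set.range L) with hΛ
  have hLm : ∀ i, L i ∈ Λ := fun i => Submodule.subset_span ⟨i, rfl⟩
  have hfg : Λ.FG := Submodule.fg_span (Set.finite_range L)
  obtain ⟨b⟩ := skB_basis Λ hfg fun k => by rw [← hu k]; exact hLm _
  -- the matrix of the basis and its inverse
  set B : Matrix (Fin 3) (Fin 3) ℚ := Matrix.of fun a => (b a : Fin 3 → ℚ) with hB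
  have hrepr : ∀ x : Λ, (x : Fin 3 → ℚ) = fun k => ∑ a, ((b.repr x a : ℤ) : ℚ) * B a k := by
    intro x
    have h1 : ((∑ a, b.repr x a • b a : Λ) : Fin 3 → ℚ) = x :=
      congrArg (Subtype.val) (b.sum_repr x)
    funext k
    rw [← h1, Submodule.coe_sum, Finset.sum_apply]
    refine Finset.sum_congr rfl fun a _ => ?_
    simp [hB]
  set M : Matrix (Fin 3) (Fin 3) ℤ := Matrix.of fun k a => b.repr ⟨L (u k), hLm _⟩ a with hMdef
  have hMB : (M.map (Int.cast : ℤ → ℚ)) * B = 1 := by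
    ext k j
    have h1 := congrFun (hrepr ⟨L (u k), hLm _⟩) j
    rw [Matrix.mul_apply]
    simp only [Matrix.map_apply, hMdef, Matrix.of_apply]
    rw [← h1]
    show L (u k) j = _
    rw [hu k, Matrix.one_apply, Pi.single_apply]
    simp only [eq_comm]
  have hBM : B * (M.map (Int.cast : ℤ → ℚ)) = 1 := mul_eq_one_comm.1 hMB
  obtain ⟨ν, hν⟩ := skB_det L N hm (fun a => (b a : Fin 3 → ℚ)) fun a => (b a).2
  have hdM : ((M.map (Int.cast : ℤ → ℚ))).det = (M.det : ℚ) := by
    have := (Int.castRingHom ℚ).map_det M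
    simpa using this.symm
  have hdet : (M.det : ℚ) * B.det = 1 := by
    rw [← hdM, ← Matrix.det_mul, hMB, Matrix.det_one]
  have hNM : N = ν * M.det := by
    have h1 : (N : ℚ) = (ν : ℚ) * (M.det : ℚ) := by
      rw [← hν]
      have h2 : (Matrix.of fun a => (b a : Fin 3 → ℚ)).det = B.det := rfl
      rw [h2, mul_assoc, mul_comm B.det, hdet, mul_one]
    exact_mod_cast h1
  have hMdet : M.det ≠ 0 := by
    intro h0
    rw [h0, mul_zero] at hNM
    exact hN hNM
  have hνne : ν ≠ 0 := by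
    intro h0
    rw [h0, zero_mul] at hNM
    exact hN hNM
  obtain ⟨v, hv0, hv⟩ := skB_pigeon M hMdet
  refine ⟨M.mulVec v, hv0, fun i => ?_, fun k => (hv k).trans ?_⟩
  · refine ⟨∑ a, b.repr ⟨L i, hLm i⟩ a * v a, ?_⟩
    have h1 := hrepr ⟨L i, hLm i⟩
    have h2 : ∀ k, L i k = ∑ a, ((b.repr ⟨L i, hLm i⟩ a : ℤ) : ℚ) * B a k := fun k =>
      congrFun h1 k
    have h3 : ∀ a, ∑ k, B a k * (((M.mulVec v) k : ℤ) : ℚ) = (v a : ℚ) := by
      intro a
      have h4 : ∀ k, (((M.mulVec v) k : ℤ) : ℚ)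
          = ∑ c, (M.map (Int.cast : ℤ → ℚ)) k c * (v c : ℚ) := by
        intro k
        simp [Matrix.mulVec, dotProduct]
      simp only [h4, Finset.mul_sum]
      rw [Finset.sum_comm]
      have h5 : ∀ c, ∑ k, B a k * ((M.map (Int.cast : ℤ → ℚ)) k c * (v c : ℚ))
          = (B * (M.map (Int.cast : ℤ → ℚ))) a c * (v c : ℚ) := by
        intro c
        rw [Matrix.mul_apply, Finset.sum_mul]
        refine Finset.sum_congr rfl fun k _ => ?_
        ring
      simp only [h5, hBM, Matrix.one_apply]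
      simp
    push_cast
    calc ∑ k, L i k * (((M.mulVec v) k : ℤ) : ℚ)
        = ∑ k, ∑ a, ((b.repr ⟨L i, hLm i⟩ a : ℤ) : ℚ) * (B a k * (((M.mulVec v) k : ℤ) : ℚ)) := by
          refine Finset.sum_congr rfl fun k _ => ?_
          rw [h2 k, Finset.sum_mul]
          refine Finset.sum_congr rfl fun a _ => ?_
          ring
      _ = ∑ a, ((b.repr ⟨L i, hLm i⟩ a : ℤ) : ℚ) * (v a : ℚ) := by
          rw [Finset.sum_comm]
          refine Finset.sum_congr rfl fun a _ => ?_
          rw [← Finset.mul_sum, h3 a]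
  · rw [hNM, Int.cast_mul, abs_mul]
    have h1 : (1 : ℝ) ≤ |(ν : ℝ)| := by
      have := Int.one_le_abs hνne
      exact_mod_cast this
    exact le_mul_of_one_le_left (abs_nonneg _) h1

end Pool.Agent.PP5G
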