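import Pool.Agent.PP5G.SkA
import Pool.Agent.PP5G.SkB

/-!
# PP5G/SkC: small vectors in the intersection of two lattices given by skew 5 x 5 matrices
-/

set_option autoImplicit false

namespace Pool.Agent.PP5G

open Pool.Agent.PP5

private theorem skC_cube {a b c N : ℝ} (ha : |a| ^ 3 ≤ N) (hb : |b| ^ 3 ≤ N) (hc : |c| ^ 3 ≤ N) :
    (|a| + |b| + |c|) ^ 3 ≤ 27 * N := by
  have h1 : ∀ x y z M : ℝ, 0 ≤ x → 0 ≤ y → 0 ≤ z → x ≤ M → y ≤ M → z ≤ M →
      (x + y + z) ^ 3 ≤ 27 * M ^ 3 := by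
    intro x y z M hx hy hz h1 h2 h3
    have h4 : x + y + z ≤ 3 * M := by linarith
    calc (x + y + z) ^ 3 ≤ (3 * M) ^ 3 := pow_le_pow_left₀ (by positivity) h4 3
      _ = 27 * M ^ 3 := by ring
  set M := max |a| (max |b| |c|) with hM
  have h2 := h1 |a| |b| |c| M (abs_nonneg _) (abs_nonneg _) (abs_nonneg _) (le_max_left _ _)
    ((le_max_left _ _).trans (le_max_right _ _)) ((le_max_right _ _).trans (le_max_right _ _))
  have h3 : M ^ 3 ≤ N := by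
    rcases max_choice |a| (max |b| |c|) with h | h
    · rw [hM, h]; exact ha
    · rcases max_choice |b| |c| with h' | h'
      · rw [hM, h, h']; exact hb
      · rw [hM, h, h']; exact hc
  linarith

private theorem skC_aux {g : ℤ} (hg : g ≠ 0) {B1 B2 : Fin 5 → Fin 5 → ℤ} (h1 : Skew B1)
    (h2 : Skew B2) (hb : B2 3 4 ≠ 0) (hmax : ∀ i j, |B2 i j| ≤ |B2 3 4|)
    (hp1 : ∀ i j k l, g ∣ Pf5 B1 i j k l) (hp2 : ∀ i j k l, Pf5 B2 i j k l = 0)
    (hp : ∀ i j k l, g ∣ Pp B1 B2 i j k l) {H : ℝ} (hH : |(g : ℝ)| * |(B2 3 4 : ℝ)| ≤ H) :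
    ∃ w z : Fin 5 → ℤ, w ≠ 0 ∧ (∀ i, act B2 w i = 0) ∧ (∀ i, act B1 w i = g * z i) ∧
      ∀ i, |(w i : ℝ)| ^ 3 ≤ 27 * H := by
  have hm : ∀ r : Fin 3 → Fin 5 ⊕ Fin 5, ∃ ν : ℤ,
      ((g * B2 3 4 : ℤ) : ℚ) * (Matrix.of (fun a => Lr g B1 B2 (r a))).det = ν := by
    intro r
    obtain ⟨ν, hν⟩ := skA hg h1 h2 hb hp1 hp2 hp r
    refine ⟨ν, ?_⟩
    rw [← hν]
    push_cast
    ring
  obtain ⟨t, ht0, htz, ht3⟩ := skB (Lr g B1 B2) (fun k => Sum.inl (k.castLE (by norm_num)))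
    (by
      intro k
      fin_cases k <;> ext l <;> fin_cases l <;> simp [Lr, Wr])
    (g * B2 3 4) (mul_ne_zero hg hb) hm
  have htw : ∀ i : Fin 5, ∃ w : ℤ, ∑ k, Wr B2 i k * (t k : ℚ) = w := fun i => htz (Sum.inl i)
  choose w hw using htw
  have htz' : ∀ m : Fin 5, ∃ z : ℤ, ∑ k, Lr g B1 B2 (Sum.inr m) k * (t k : ℚ) = z :=
    fun m => htz (Sum.inr m)
  choose z hz using htz'
  have hbq : (B2 3 4 : ℚ) ≠ 0 := by exact_mod_cast hb
  have hgq : (g : ℚ) ≠ 0 := by exact_mod_cast hg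
  have hw0 : w 0 = t 0 := by
    have := hw 0
    simp [Wr, Fin.sum_univ_three] at this
    exact_mod_cast this.symm
  have hw1 : w 1 = t 1 := by
    have := hw 1
    simp [Wr, Fin.sum_univ_three] at this
    exact_mod_cast this.symm
  have hw2 : w 2 = t 2 := by
    have := hw 2
    simp [Wr, Fin.sum_univ_three] at this
    exact_mod_cast this.symm
  have hw3 : B2 3 4 * w 3 = B2 4 0 * t 0 + B2 4 1 * t 1 + B2 4 2 * t 2 := by
    have h := hw 3
    simp only [Wr, Fin.sum_univ_three, Matrix.cons_val] at h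
    field_simp at h
    have h' : (B2 3 4 : ℚ) * w 3 = B2 4 0 * t 0 + B2 4 1 * t 1 + B2 4 2 * t 2 := by
      linarith
    exact_mod_cast h'
  have hw4 : B2 3 4 * w 4 = -(B2 3 0 * t 0 + B2 3 1 * t 1 + B2 3 2 * t 2) := by
    have h := hw 4
    simp only [Wr, Fin.sum_univ_three, Matrix.cons_val] at h
    field_simp at h
    have h' : (B2 3 4 : ℚ) * w 4 = -(B2 3 0 * t 0 + B2 3 1 * t 1 + B2 3 2 * t 2) := by
      linarith
    exact_mod_cast h'
  refine ⟨w, z, ?_, ?_, ?_, ?_⟩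
  · intro h0
    apply ht0
    ext k
    fin_cases k
    · have := congrFun h0 0
      simpa [hw0] using this
    · have := congrFun h0 1
      simpa [hw1] using this
    · have := congrFun h0 2
      simpa [hw2] using this
  · intro i
    have hP : ∀ k, Pf5 B2 i k 3 4 = 0 := fun k => hp2 i k 3 4
    have hk : ∀ k, B2 i k * B2 3 4 + B2 i 3 * B2 4 k - B2 i 4 * B2 3 k = 0 := by
      intro k
      have h3 := hP k
      unfold Pf5 at h3
      have h4 : B2 k 4 = - B2 4 k := h2 k 4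
      have h5 : B2 k 3 = - B2 3 k := h2 k 3
      rw [h4, h5] at h3
      linarith
    have h6 : B2 3 4 * act B2 w i = 0 := by
      unfold act
      simp only [Fin.sum_univ_five]
      rw [hw0, hw1, hw2]
      linear_combination t 0 * hk 0 + t 1 * hk 1 + t 2 * hk 2 + B2 i 3 * hw3 + B2 i 4 * hw4
    exact (mul_eq_zero.1 h6).resolve_left hb
  · intro m
    have h3 := hz m
    have h4 : (g : ℚ) * z m = ∑ j, (B1 m j : ℚ) * w j := by
      rw [← h3]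
      simp only [Lr, Sum.elim_inr]
      have h5 : ∀ j, (w j : ℚ) = ∑ k, Wr B2 j k * (t k : ℚ) := fun j => (hw j).symm
      simp only [h5, Finset.mul_sum]
      rw [Finset.sum_comm]
      refine Finset.sum_congr rfl fun k _ => ?_
      rw [← mul_assoc, mul_div_assoc', mul_div_cancel_left₀ _ hgq, Finset.sum_mul]
      refine Finset.sum_congr rfl fun j _ => ?_
      ring
    unfold act
    have h6 : (((∑ j, B1 m j * w j : ℤ)) : ℚ) = ((g * z m : ℤ) : ℚ) := by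
      push_cast
      exact h4.symm
    exact_mod_cast h6
  · have hN : |((g * B2 3 4 : ℤ) : ℝ)| ≤ H := by
      push_cast
      rw [abs_mul]
      exact hH
    have hH0 : 0 ≤ H := (abs_nonneg _).trans hN
    have ht : ∀ k, |(t k : ℝ)| ^ 3 ≤ H := fun k => (ht3 k).trans hN
    have hbr : (0 : ℝ) < |(B2 3 4 : ℝ)| := abs_pos.2 (by exact_mod_cast hb)
    have hmr : ∀ i j, |(B2 i j : ℝ)| ≤ |(B2 3 4 : ℝ)| := by
      intro i j
      exact_mod_cast hmax i j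
    have key : ∀ (a b c x : ℤ), |(a : ℝ)| ≤ |(B2 3 4 : ℝ)| → |(b : ℝ)| ≤ |(B2 3 4 : ℝ)| →
        |(c : ℝ)| ≤ |(B2 3 4 : ℝ)| → |(B2 3 4 : ℝ) * x| = |(a : ℝ) * t 0 + b * t 1 + c * t 2| →
        |(x : ℝ)| ^ 3 ≤ 27 * H := by
      intro a b c x ha hb' hc hx
      have h7 : |(B2 3 4 : ℝ)| * |(x : ℝ)|
          ≤ |(B2 3 4 : ℝ)| * (|(t 0 : ℝ)| + |(t 1 : ℝ)| + |(t 2 : ℝ)|) := by
        rw [← abs_mul, hx]
        calc |(a : ℝ) * t 0 + b * t 1 + c * t 2|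
            ≤ |(a : ℝ) * t 0| + |(b : ℝ) * t 1| + |(c : ℝ) * t 2| := by
              refine (abs_add_le _ _).trans ?_
              gcongr
              exact abs_add_le _ _
          _ = |(a : ℝ)| * |(t 0 : ℝ)| + |(b : ℝ)| * |(t 1 : ℝ)| + |(c : ℝ)| * |(t 2 : ℝ)| := by
              rw [abs_mul, abs_mul, abs_mul]
          _ ≤ |(B2 3 4 : ℝ)| * |(t 0 : ℝ)| + |(B2 3 4 : ℝ)| * |(t 1 : ℝ)|
                + |(B2 3 4 : ℝ)| * |(t 2 : ℝ)| := by
              gcongr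
          _ = |(B2 3 4 : ℝ)| * (|(t 0 : ℝ)| + |(t 1 : ℝ)| + |(t 2 : ℝ)|) := by ring
      have h8 := le_of_mul_le_mul_left h7 hbr
      exact (pow_le_pow_left₀ (abs_nonneg _) h8 3).trans (skC_cube (ht 0) (ht 1) (ht 2))
    intro i
    fin_cases i
    · show |(w 0 : ℝ)| ^ 3 ≤ 27 * H
      rw [hw0]
      linarith [ht 0]
    · show |(w 1 : ℝ)| ^ 3 ≤ 27 * H
      rw [hw1]
      linarith [ht 1]
    · show |(w 2 : ℝ)| ^ 3 ≤ 27 * H
      rw [hw2]
      linarith [ht 2]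
    · show |(w 3 : ℝ)| ^ 3 ≤ 27 * H
      refine key (B2 4 0) (B2 4 1) (B2 4 2) (w 3) (hmr _ _) (hmr _ _) (hmr _ _) ?_
      congr 1
      exact_mod_cast hw3
    · show |(w 4 : ℝ)| ^ 3 ≤ 27 * H
      refine key (B2 3 0) (B2 3 1) (B2 3 2) (w 4) (hmr _ _) (hmr _ _) (hmr _ _) ?_
      rw [← abs_neg]
      congr 1
      have h9 : -((B2 3 4) * w 4) = B2 3 0 * t 0 + B2 3 1 * t 1 + B2 3 2 * t 2 := by
        rw [hw4]; ring
      exact_mod_cast h9

/-- (size 3) Proof.  Choose `i0, j0` with `|B2 i0 j0|` maximal (`≠ 0`, so `i0 ≠ j0`) and a permutation `σ` of `Fin 5` with `σ 3 = i0`, `σ 4 = j0`;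
replace `B1, B2` by `B (σ i) (σ j)` (all hypotheses are preserved).  Then `skB` with `L = Lr g B1 B2`, `u k = Sum.inl k`, `N = g * B2 3 4`, and `skA`.
From `t` take `w i = (L (inl i)) t`, `z m = (L (inr m)) t` (integers).  `w` is in the kernel of `B2`: rows `3` and `4` by construction, rows `0, 1, 2`
from `Pf5 B2 = 0`; `act B1 w m = g z m`.  `w ≠ 0` because `w k = t k` for `k = 0, 1, 2`, and `|w i| ≤ 3 max |t k|` since `|B2 4 k|, |B2 3 k| ≤ |B2 3 4|`. -/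
theorem skC {g : ℤ} (hg : g ≠ 0) {B1 B2 : Fin 5 → Fin 5 → ℤ} (h1 : Skew B1) (h2 : Skew B2)
    (hb : ∃ i j, B2 i j ≠ 0) (hp1 : ∀ i j k l, g ∣ Pf5 B1 i j k l) (hp2 : ∀ i j k l, Pf5 B2 i j k l = 0)
    (hp : ∀ i j k l, g ∣ Pp B1 B2 i j k l) {H : ℝ} (hH : ∀ i j, |(g : ℝ)| * |(B2 i j : ℝ)| ≤ H) :
    ∃ w z : Fin 5 → ℤ, w ≠ 0 ∧ (∀ i, act B2 w i = 0) ∧ (∀ i, act B1 w i = g * z i) ∧
      ∀ i, |(w i : ℝ)| ^ 3 ≤ 27 * H := by
  obtain ⟨⟨i0, j0⟩, -, hm⟩ := Finset.exists_max_image (Finset.univ : Finset (Fin 5 × Fin 5))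
    (fun q => |B2 q.1 q.2|) Finset.univ_nonempty
  have hmax : ∀ i j, |B2 i j| ≤ |B2 i0 j0| := fun i j => hm (i, j) (Finset.mem_univ _)
  obtain ⟨i1, j1, hb1⟩ := hb
  have hb0 : B2 i0 j0 ≠ 0 := by
    intro h
    have h3 := hmax i1 j1
    rw [h, abs_zero] at h3
    exact hb1 (abs_nonpos_iff.1 h3)
  have hij : i0 ≠ j0 := by
    rintro rfl
    have h3 := h2 i0 i0
    apply hb0
    omega
  obtain ⟨σ, hs3, hs4⟩ : ∃ σ : Equiv.Perm (Fin 5), σ 3 = i0 ∧ σ 4 = j0 := by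
    have hj : Equiv.swap 3 i0 j0 ≠ 3 := by
      intro h
      have h3 := congrArg (Equiv.swap (3 : Fin 5) i0) h
      rw [Equiv.swap_apply_self, Equiv.swap_apply_left] at h3
      exact hij h3.symm
    refine ⟨(Equiv.swap 4 (Equiv.swap 3 i0 j0)).trans (Equiv.swap 3 i0), ?_, ?_⟩
    · rw [Equiv.trans_apply, Equiv.swap_apply_of_ne_of_ne (by decide) (Ne.symm hj),
        Equiv.swap_apply_left]
    · rw [Equiv.trans_apply, Equiv.swap_apply_left, Equiv.swap_apply_self]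
  obtain ⟨w, z, hw, hw2, hw1, hw3⟩ := skC_aux hg (B1 := fun i j => B1 (σ i) (σ j))
    (B2 := fun i j => B2 (σ i) (σ j)) (fun i j => h1 _ _) (fun i j => h2 _ _)
    (by simpa [hs3, hs4] using hb0) (by simpa [hs3, hs4] using fun i j => hmax (σ i) (σ j))
    (fun i j k l => hp1 (σ i) (σ j) (σ k) (σ l)) (fun i j k l => hp2 (σ i) (σ j) (σ k) (σ l))
    (fun i j k l => hp (σ i) (σ j) (σ k) (σ l)) (H := H) (hH (σ 3) (σ 4))
  have hact : ∀ (B : Fin 5 → Fin 5 → ℤ) (i : Fin 5),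
      act B (fun j => w (σ.symm j)) i = act (fun i j => B (σ i) (σ j)) w (σ.symm i) := by
    intro B i
    unfold act
    rw [← Equiv.sum_comp σ (fun j => B i j * w (σ.symm j))]
    simp
  refine ⟨fun j => w (σ.symm j), fun j => z (σ.symm j), ?_, ?_, ?_, fun i => hw3 _⟩
  · intro h
    apply hw
    ext i
    have := congrFun h (σ i)
    simpa using this
  · intro i
    rw [hact]
    exact hw2 _
  · intro i
    rw [hact]
    exact hw1 _

end Pool.Agent.PP5G
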